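import Pool.Agent.H35.RL.RDefs
import Pool.Agent.H79.Par.It
import Pool.Agent.H44.Fatou.Coset
import Pool.Agent.H79.Eul.Cpt

/-!
# Module CritClose: critical points near `c` converge to `c`

PROOF. `wv v0 z = (Wr (pol v0.1) (pol v0.2)).eval z` (`wv_cf`, `cf_pol`, `pol_deg`), `Wr ≠ 0` (`wr_ne_zero`,
H44/Fatou/Coset), so its zeros are isolated: there is `δ > 0` with `wv v0 z ≠ 0` for `z ∈ closedBall c δ`, `z ≠ c`. Fix `v`
and a neighbourhood `ball c η` of `c`. The set `K = closedBall c δ \ ball c η` is compact and `wv v0 z ≠ 0` on it; by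
continuity of `(w, z) ↦ wv w z` (`wv_cont`) and `pv_lim2` at every `z ∈ K` eventually in `flt v ×ˢ 𝓝 z` `wv (pv v0 y.1) y.2 ≠ 0`,
so by `ev_compact` (H79/Eul/Cpt) eventually in `flt v` `wv (pv v0 τ) z ≠ 0` for all `z ∈ K`. Hence for `y` with
`y.1` far, `y.2 ∈ closedBall c δ`, `y ∈ crs v0` (i.e. `wv (pv) y.2 = 0`): `y.2 ∈ ball c η`. Filter bookkeeping:
`le_prod` / `Filter.prod_mono`, it is enough to show that `y ↦ y.1` tends to `flt v` and `y ↦ y.2` tends to `𝓝 c`.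
-/

set_option autoImplicit false

open Filter Topology Polynomial Metric Set

namespace Pool.Agent.H35.PL

open Pool.Agent.H44.Fatou Pool.Agent.H32.BT Pool.Agent.H79.Eul Pool.Agent.H79.Par Pool.Agent.H35.RL

theorem crit_close {d : ℕ} {v0 : E d} (hcop : IsCoprime (pol v0.1) (pol v0.2))
    (hdeg : 1 ≤ max (pol v0.1).natDegree (pol v0.2).natDegree) (c : ℂ) :
    ∃ δ : ℝ, 0 < δ ∧ ∀ v : E d,
      (flt v ×ˢ 𝓟 (closedBall c δ)) ⊓ 𝓟 (crs v0) ≤ (flt v ×ˢ 𝓝 c) ⊓ 𝓟 (crs v0) := by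
  have hW : Wr (pol v0.1) (pol v0.2) ≠ 0 := wr_ne_zero hcop hdeg
  have hwr : ∀ z, wv v0 z = (Wr (pol v0.1) (pol v0.2)).eval z := by
    intro z
    rw [← wv_cf (pol_deg v0.1) (pol_deg v0.2), cf_pol, cf_pol]
  have hfin : ({z : ℂ | wv v0 z = 0} \ {c}).Finite := by
    refine ((Wr (pol v0.1) (pol v0.2)).roots.toFinset.finite_toSet).subset ?_
    intro z hz
    have hz' : wv v0 z = 0 := hz.1
    rw [hwr] at hz'
    simp only [Finset.mem_coe, Multiset.mem_toFinset, mem_roots hW, IsRoot.def]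
    exact hz'
  have hnh : ({z : ℂ | wv v0 z = 0} \ {c})ᶜ ∈ 𝓝 c := by
    apply hfin.isClosed.isOpen_compl.mem_nhds
    intro h
    exact h.2 rfl
  obtain ⟨δ, hδ, hsub⟩ := Metric.nhds_basis_closedBall.mem_iff.1 hnh
  refine ⟨δ, hδ, fun v => le_inf ?_ inf_le_right⟩
  have hsnd : Tendsto (fun y : (E d × ℝ) × ℂ => y.2)
      ((flt v ×ˢ 𝓟 (closedBall c δ)) ⊓ 𝓟 (crs v0)) (𝓝 c) := by
    rw [Metric.nhds_basis_ball.tendsto_right_iff]
    intro η hη
    have hK : IsCompact (closedBall c δ \ ball c η) := (isCompact_closedBall c δ).diff isOpen_ball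
    have hev : ∀ᶠ τ in flt v, ∀ z ∈ closedBall c δ \ ball c η, wv (pv v0 τ) z ≠ 0 := by
      apply ev_compact hK (p := fun (τ : E d × ℝ) (z : ℂ) => wv (pv v0 τ) z ≠ 0)
      intro z hz
      have hz0 : wv v0 z ≠ 0 := by
        intro h
        refine hsub hz.1 ⟨h, ?_⟩
        intro h2
        rw [mem_singleton_iff] at h2
        rw [h2] at hz
        exact hz.2 (mem_ball_self hη)
      have h1 : Tendsto (fun x : E d × ℂ => wv x.1 x.2) (𝓝 (v0, z)) (𝓝 (wv v0 z)) :=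
        (wv_cont (d := d)).tendsto (v0, z)
      have h2 := Tendsto.comp h1 (pv_lim2 v0 v z)
      exact h2.eventually_ne hz0
    rw [eventually_inf_principal]
    have h3 : ∀ᶠ y : (E d × ℝ) × ℂ in flt v ×ˢ 𝓟 (closedBall c δ),
        ∀ z ∈ closedBall c δ \ ball c η, wv (pv v0 y.1) z ≠ 0 := tendsto_fst.eventually hev
    have h4 : ∀ᶠ y : (E d × ℝ) × ℂ in flt v ×ˢ 𝓟 (closedBall c δ), y.2 ∈ closedBall c δ :=
      tendsto_snd.eventually (mem_principal_self _)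
    filter_upwards [h3, h4] with y hy1 hy2 hy3
    by_contra h5
    exact hy1 y.2 ⟨hy2, h5⟩ hy3
  have hfst : Tendsto (fun y : (E d × ℝ) × ℂ => y.1)
      ((flt v ×ˢ 𝓟 (closedBall c δ)) ⊓ 𝓟 (crs v0)) (flt v) :=
    tendsto_fst.mono_left inf_le_left
  exact Filter.le_prod.2 ⟨hfst, hsnd⟩

end Pool.Agent.H35.PL
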