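import Mathlib

/-!
# Module CxCount: only countably many bad rotations

PROOF. Let `t = b.im / b.re`, `e = (t : ℂ) - I`. If `s` is in the set, then `exp ((N - 1) s e - s' b) = p / κ`, so
(`Complex.exp_eq_exp_iff_exists_int`, with `p / κ = exp (log (p / κ))`) there is `n : ℤ` with
`(N - 1) s e - s' b = log (p / κ) + 2 π n I =: Z n`. Multiply by `conj b` and take imaginary parts:
`(N - 1) s (conj b * e).im = (conj b * Z n).im` (`(conj b * b).im = 0`), and
`(conj b * e).im = -b.re (1 + t ^ 2) ≠ 0`. So `s` is determined by `n`: the set is contained in the range of a function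
of `n : ℤ` (`Set.countable_range`, `Countable.mono`).
-/

set_option autoImplicit false

open Filter Topology Metric Set

namespace Pool.Agent.H35.PL

theorem cx_count {N : ℕ} (hN : 2 ≤ N) {b κ p : ℂ} (hb : 0 < b.re) (hκ : κ ≠ 0) (hp : p ≠ 0) :
    {s : ℝ | ∃ s' : ℝ, κ * Complex.exp (((((N : ℝ) - 1) * s : ℝ) : ℂ) *
      (((b.im / b.re : ℝ) : ℂ) - Complex.I)) * Complex.exp (-(s' * b)) = p}.Countable := by
  obtain ⟨t, ht⟩ : ∃ t : ℝ, t = b.im / b.re := ⟨_, rfl⟩
  obtain ⟨f, hf⟩ : ∃ f : ℤ → ℝ, ∀ n : ℤ, f n =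
      -(((starRingEnd ℂ) b * (Complex.log (p / κ) + n * (2 * Real.pi * Complex.I))).im) /
        (((N : ℝ) - 1) * (b.re * (1 + t ^ 2))) := ⟨_, fun _ => rfl⟩
  refine (Set.countable_range f).mono ?_
  rintro s ⟨s', hs⟩
  rw [← ht] at hs
  have hN1 : (0 : ℝ) < (N : ℝ) - 1 := by
    have : (2 : ℝ) ≤ N := by exact_mod_cast hN
    linarith
  have h1 : Complex.exp (((((N : ℝ) - 1) * s : ℝ) : ℂ) * ((t : ℂ) - Complex.I) +
      -(s' * b)) = Complex.exp (Complex.log (p / κ)) := by
    rw [Complex.exp_add, Complex.exp_log (div_ne_zero hp hκ), eq_div_iff hκ, ← hs]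
    ring
  obtain ⟨n, hn⟩ := Complex.exp_eq_exp_iff_exists_int.1 h1
  refine ⟨n, ?_⟩
  rw [hf]
  have hbt : b.im = t * b.re := by
    rw [ht]
    field_simp
  have h2 : ((starRingEnd ℂ) b * (Complex.log (p / κ) + n * (2 * Real.pi * Complex.I))).im =
      -(((N : ℝ) - 1) * (b.re * (1 + t ^ 2))) * s := by
    rw [← hn]
    simp only [Complex.mul_im, Complex.mul_re, Complex.add_re, Complex.add_im, Complex.neg_re,
      Complex.neg_im, Complex.sub_re, Complex.sub_im, Complex.ofReal_re, Complex.ofReal_im,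
      Complex.I_re, Complex.I_im, Complex.conj_re, Complex.conj_im, hbt]
    ring
  rw [h2]
  have h3 : (((N : ℝ) - 1) * (b.re * (1 + t ^ 2))) ≠ 0 := by positivity
  rw [neg_mul, neg_neg, mul_div_assoc, mul_comm, div_mul_eq_mul_div, div_eq_iff h3]

end Pool.Agent.H35.PL
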