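import Pool.Agent.H35.RL.RDefs

/-!
# Equidistribution: definitions
-/

set_option autoImplicit false

open Filter Topology Polynomial Metric Set

namespace Pool.Agent.H35.PL

open Pool.Agent.H44.Fatou Pool.Agent.H32.BT Pool.Agent.H79.Eul Pool.Agent.H79.Par Pool.Agent.H35.RL

/-- `log (1 / h)` -/
noncomputable def ll (h : ℝ) : ℝ := Real.log h⁻¹

theorem ll_lim : Tendsto ll (𝓝[>] 0) atTop :=
  Real.tendsto_log_atTop.comp tendsto_inv_nhdsGT_zero

/-- a small rotation of the direction -/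
noncomputable def rt {d : ℕ} (h s : ℝ) (v : E d) : E d :=
  Complex.exp (((s / ll h : ℝ) : ℂ) * Complex.I) • v

/-- every sequence of scales has a subsequence along which, for all but countably many `s ∈ [0, 1]`,
the directions very close to `rt h s v` are not bad -/
def RotGood {d : ℕ} (bad : ℝ → Set (E d)) (v : E d) : Prop :=
  ∀ h : ℕ → ℝ, Tendsto h atTop (𝓝[>] 0) → ∃ φ : ℕ → ℕ, StrictMono φ ∧
    ∃ Cx : Set ℝ, Cx.Countable ∧ ∀ s ∈ Icc (0 : ℝ) 1, s ∉ Cx → ∀ w : ℕ → E d,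
      Tendsto (fun j => ll (h (φ j)) • (w j - rt (h (φ j)) s v)) atTop (𝓝 0) →
      ∀ᶠ j in atTop, w j ∉ bad (h (φ j))

/-- number of steps until the orbit leaves the source -/
noncomputable def mf (N : ℕ) (b : ℂ) (h : ℝ) : ℕ := ⌊((N : ℝ) - 1) * ll h / (N * h * b.re)⌋₊

end Pool.Agent.H35.PL
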