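import Pool.Agent.H35.PL.EDefs

/-!
# Module RotLim: pointwise convergence of the averages

PROOF. `tendsto_of_subseq_tendsto` (the filter `𝓝[>] 0` is countably generated): let `h j → 0+`; take `φ, Cx` from `H`.
Let `S j = {s ∈ Icc 0 1 | rt (h (φ j)) s v ∈ closure (bad (h (φ j)))}`, a measurable set (closed preimage). For
`s ∈ Icc 0 1`, `s ∉ Cx`: eventually `s ∉ S j`. Otherwise frequently `s ∈ S j`; for every `j` with `s ∈ S j` choose
`w j ∈ bad (h (φ j))` with `‖w j - rt ..‖ ≤ 1 / ((j + 1) (1 + |ll (h (φ j))|))` (`Metric.mem_closure_iff`), for the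
other `j` let `w j = rt (h (φ j)) s v`; then `ll • (w j - rt ..) → 0`, so eventually `w j ∉ bad`, contradiction. So the
indicators of `S j` tend to `0` at almost every point of `Icc 0 1` (`Cx` is countable, null), and
`volume (S j) = ∫⁻ s in Icc 0 1, indicator (S j) 1 s → 0` by `tendsto_lintegral_of_dominated_convergence` (bound `1`).
-/

set_option autoImplicit false

open Filter Topology Polynomial Metric Set

namespace Pool.Agent.H35.PL

open Pool.Agent.H44.Fatou Pool.Agent.H32.BT Pool.Agent.H79.Eul Pool.Agent.H79.Par Pool.Agent.H35.RL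

theorem rt_cont {d : ℕ} (h : ℝ) (v : E d) : Continuous (fun s : ℝ => rt h s v) := by
  unfold rt
  fun_prop

open MeasureTheory in
theorem rot_lim {d : ℕ} {bad : ℝ → Set (E d)} {v : E d} (H : RotGood bad v) :
    Tendsto (fun h : ℝ => volume {s : ℝ | s ∈ Icc (0 : ℝ) 1 ∧ rt h s v ∈ closure (bad h)})
      (𝓝[>] 0) (𝓝 0) := by
  apply tendsto_of_subseq_tendsto
  intro h hh
  obtain ⟨φ, hφ, Cx, hC, hCx⟩ := H h hh
  refine ⟨φ, ?_⟩
  set S : ℕ → Set ℝ := fun j => {s : ℝ | rt (h (φ j)) s v ∈ closure (bad (h (φ j)))} with hS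
  have hSm : ∀ j, MeasurableSet (S j) := fun j =>
    (isClosed_closure.preimage (rt_cont (h (φ j)) v)).measurableSet
  have hpt : ∀ s ∈ Icc (0 : ℝ) 1, s ∉ Cx → ∀ᶠ j in atTop, s ∉ S j := by
    intro s hs hsC
    have h1 : ∀ j : ℕ, ∃ w : E d,
        ‖w - rt (h (φ j)) s v‖ ≤ 1 / ((j + 1) * (1 + |ll (h (φ j))|)) ∧
        (s ∈ S j → w ∈ bad (h (φ j))) := by
      intro j
      have hpos : (0 : ℝ) < 1 / ((j + 1) * (1 + |ll (h (φ j))|)) := by positivity
      by_cases hj : s ∈ S j
      · obtain ⟨w, hw, hd⟩ := Metric.mem_closure_iff.1 hj _ hpos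
        refine ⟨w, ?_, fun _ => hw⟩
        rw [← dist_eq_norm, dist_comm]
        exact hd.le
      · refine ⟨rt (h (φ j)) s v, ?_, fun h2 => absurd h2 hj⟩
        rw [sub_self, norm_zero]
        exact hpos.le
    choose w hw1 hw2 using h1
    have h2 : Tendsto (fun j => ll (h (φ j)) • (w j - rt (h (φ j)) s v)) atTop (𝓝 0) := by
      refine squeeze_zero_norm (fun j => ?_) (tendsto_one_div_add_atTop_nhds_zero_nat (𝕜 := ℝ))
      rw [norm_smul, Real.norm_eq_abs]
      have h3 := mul_le_mul_of_nonneg_left (hw1 j) (abs_nonneg (ll (h (φ j))))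
      refine h3.trans ?_
      rw [mul_one_div, div_le_div_iff₀ (by positivity) (by positivity)]
      have h4 := abs_nonneg (ll (h (φ j)))
      have h5 : (0 : ℝ) ≤ (j : ℝ) + 1 := by positivity
      nlinarith
    filter_upwards [hCx s hs hsC w h2] with j hj hs'
    exact hj (hw2 j hs')
  have h3 : Tendsto (fun j => ∫⁻ s in Icc (0 : ℝ) 1, (S j).indicator 1 s) atTop
      (𝓝 (∫⁻ _ in Icc (0 : ℝ) 1, 0)) := by
    refine tendsto_lintegral_of_dominated_convergence (fun _ => 1)
      (fun j => measurable_one.indicator (hSm j)) (fun j => ?_) ?_ ?_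
    · refine Eventually.of_forall fun s => ?_
      exact indicator_le_self' (fun _ _ => zero_le_one) s
    · rw [lintegral_const]
      simp
    · rw [ae_restrict_iff' measurableSet_Icc]
      filter_upwards [hC.ae_notMem volume] with s hs1 hs2
      refine tendsto_const_nhds.congr' ?_
      filter_upwards [hpt s hs2 hs1] with j hj
      rw [indicator_of_notMem hj]
  rw [lintegral_zero] at h3
  refine h3.congr fun j => ?_
  rw [lintegral_indicator_one (hSm j), Measure.restrict_apply (hSm j)]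
  congr 1
  ext s
  exact and_comm

end Pool.Agent.H35.PL
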