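import Pool.Agent.H35.PL.RotAvg
import Pool.Agent.H35.PL.RotLim

/-!
# Module EQ: density one from rotations

PROOF. `volume (ball 0 1 ∩ bad h) ≤ volume (ball 0 1 ∩ closure (bad h)) = ∫⁻ v in ball 0 1, g h v` with
`g h v = volume {s ∈ Icc 0 1 | rt h s v ∈ closure (bad h)}` (`rot_avg`). `g h v ≤ volume (Icc 0 1) = 1`, measurable in `v`
(`rot_meas`), and for almost every `v` `g h v → 0` as `h → 0+` (`rot_lim`):
`tendsto_lintegral_filter_of_dominated_convergence` (bound `1`, the ball has finite volume, `𝓝[>] 0` is countably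
generated); squeeze.
-/

set_option autoImplicit false

open Filter Topology Polynomial Metric Set

namespace Pool.Agent.H35.PL

open Pool.Agent.H44.Fatou Pool.Agent.H32.BT Pool.Agent.H79.Eul Pool.Agent.H79.Par Pool.Agent.H35.RL

open MeasureTheory in
theorem eq_main {d : ℕ} {bad : ℝ → Set (E d)} (H : ∀ᵐ v : E d, RotGood bad v) :
    Tendsto (fun h : ℝ => volume (ball (0 : E d) 1 ∩ bad h)) (𝓝[>] 0) (𝓝 0) := by
  have h1 : Tendsto (fun h : ℝ => ∫⁻ v in ball (0 : E d) 1,
      volume {s : ℝ | s ∈ Icc (0 : ℝ) 1 ∧ rt h s v ∈ closure (bad h)}) (𝓝[>] 0)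
      (𝓝 (∫⁻ _ in ball (0 : E d) 1, 0)) := by
    refine tendsto_lintegral_filter_of_dominated_convergence (fun _ => 1) ?_ ?_ ?_ ?_
    · exact Eventually.of_forall fun h => rot_meas isClosed_closure h
    · refine Eventually.of_forall fun h => Eventually.of_forall fun v => ?_
      calc volume {s : ℝ | s ∈ Icc (0 : ℝ) 1 ∧ rt h s v ∈ closure (bad h)}
          ≤ volume (Icc (0 : ℝ) 1) := measure_mono fun s hs => hs.1
        _ = 1 := by simp
    · rw [lintegral_one, Measure.restrict_apply_univ]
      exact measure_ball_lt_top.ne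
    · exact ae_restrict_of_ae (H.mono fun v hv => rot_lim hv)
  rw [lintegral_zero] at h1
  refine tendsto_of_tendsto_of_tendsto_of_le_of_le tendsto_const_nhds h1
    (fun h => zero_le) (fun h => ?_)
  calc volume (ball (0 : E d) 1 ∩ bad h) ≤ volume (ball (0 : E d) 1 ∩ closure (bad h)) :=
        measure_mono (inter_subset_inter_right _ subset_closure)
    _ = _ := rot_avg isClosed_closure h

end Pool.Agent.H35.PL
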