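import Pool.Agent.H35.PL.ItT
import Pool.Agent.H79.Par.NormalForm

/-!
# Module GermTwo: second order expansion of the germ at the persisting periodic point

PROOF. Let `F0 u = it v0 n (x 0 + u) - x 0`, `δ = α τ - x 0` (`‖δ‖ ≤ A h`), `w = τ.1` (near `v`), `h = τ.2`, `X = XX v0 w n`,
`D u = trD v0 n (x 0 + u)`, `b = deriv X (x 0)`, `t = (h : ℂ)`; `pv v0 τ = v0 + t • w`. For `‖u‖ < r` (small, fixed) and `τ` far:
(a) `‖it (pv) n (α + u) - it v0 n (α + u) - h X (α + u)‖ ≤ C h ^ 2` (`it_t`, point `x 0 + (δ + u)`);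
(b) `‖it v0 n (x 0 + u + δ) - it v0 n (x 0 + u) - D u * δ‖ ≤ C ‖δ‖ ^ 2` (`tay2` for `it v0 n`, holomorphic near `x 0` with
derivative `trD`: `orb_deriv`); (c) `‖X (x 0 + u + δ) - X (x 0 + u)‖ ≤ C ‖δ‖` (`xx_unif`, `schw` centred at `x 0 + u`).
Let `E u = (it (pv) n (α + u) - α) - F0 u - h (X (x 0 + u) - X (x 0)) - (D u - 1) δ`. It is holomorphic in `u`,
`E 0 = 0` (`hfix`, `it v0 n (x 0) = x 0`, `D 0 = 1`), and by (a)-(c) `‖E u - h X (x 0)‖ ≤ C h ^ 2`; at `u = 0`: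
`‖h X (x 0)‖ ≤ C h ^ 2`, so `‖E u‖ ≤ 2 C h ^ 2` on the ball and by `schw` `‖E u‖ ≤ C' h ^ 2 ‖u‖`.
(d) `‖X (x 0 + u) - X (x 0) - b u‖ ≤ C ‖u‖ ^ 2` (`tay2`, `xx_unif`); (e) `‖D u - 1‖ ≤ C ‖u‖ ^ 2`: `D u` is the derivative of
`F0 u = u + u ^ (N + 1) k u`, `D u - 1 = (N + 1) u ^ N k u + u ^ (N + 1) k' u`, `N ≥ 2`; so `‖(D u - 1) δ‖ ≤ C A h ‖u‖ ^ 2`;
(f) `‖F0 u - u - a u ^ (N + 1)‖ ≤ C ‖u‖ ^ (N + 2)` (`k` analytic, `k 0 = a`). Add up.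
-/

set_option autoImplicit false

open Filter Topology Polynomial Metric Set

namespace Pool.Agent.H35.PL

open Pool.Agent.H44.Fatou Pool.Agent.H32.BT Pool.Agent.H79.Eul Pool.Agent.H79.Par Pool.Agent.H35.RL

private theorem gt_lip {F : ℂ → ℂ} {c0 : ℂ} {ρ B : ℝ} (hρ : 0 < ρ)
    (hF : DifferentiableOn ℂ F (ball c0 ρ)) (hB : ∀ z ∈ ball c0 ρ, ‖F z‖ ≤ B) {c z : ℂ}
    (hc : ‖c - c0‖ ≤ ρ / 2) (hz : ‖z - c‖ < ρ / 2) : ‖F z - F c‖ ≤ 4 * B / ρ * ‖z - c‖ := by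
  have hsub : ball c (ρ / 2) ⊆ ball c0 ρ := by
    apply ball_subset_ball'
    rw [dist_eq_norm]
    linarith
  have hcc : c ∈ ball c0 ρ := hsub (mem_ball_self (by positivity))
  have h1 := schw (half_pos hρ) (hF.mono hsub) (B := 2 * B) (fun w hw => by
    have h2 := hB w (hsub hw)
    have h3 := hB c hcc
    have h4 := norm_sub_le (F w) (F c)
    linarith) z (by rw [mem_ball, dist_eq_norm]; exact hz)
  have h2 : 2 * B / (ρ / 2) = 4 * B / ρ := by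
    field_simp
    ring
  rwa [h2] at h1

private theorem gt_core {f g X k : ℂ → ℂ} {x0 δ a : ℂ} {N : ℕ} {ρ h A B CX C1 : ℝ} (hρ : 0 < ρ)
    (hρ1 : ρ ≤ 1) (hN : 2 ≤ N) (hA : 0 ≤ A) (hB : 0 ≤ B) (hCX : 0 ≤ CX) (hC1 : 0 ≤ C1)
    (hh : 0 < h) (hf : DifferentiableOn ℂ f (ball x0 ρ)) (hg : DifferentiableOn ℂ g (ball x0 ρ))
    (hX : DifferentiableOn ℂ X (ball x0 ρ)) (hk : DifferentiableOn ℂ k (ball 0 ρ)) (hka : k 0 = a)
    (hkB : ∀ u ∈ ball (0 : ℂ) ρ, ‖k u‖ ≤ B) (hXB : ∀ z ∈ ball x0 ρ, ‖X z‖ ≤ CX)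
    (hnf : ∀ u ∈ ball (0 : ℂ) ρ, f (x0 + u) = x0 + u + u ^ (N + 1) * k u)
    (he : ∀ z ∈ ball x0 ρ, ‖g z - f z - h * X z‖ ≤ C1 * h ^ 2)
    (hδ : ‖δ‖ ≤ A * h) (hδρ : ‖δ‖ ≤ ρ / 4) (hfix : g (x0 + δ) = x0 + δ) (u : ℂ)
    (hu : ‖u‖ ≤ ρ / 8) :
    ‖(g (x0 + δ + u) - (x0 + δ)) - u * (1 + h * deriv X x0 + a * u ^ N)‖ ≤
      ((3 * B + 4 * B / ρ) * (A ^ 2 + A) + 4 * B / ρ + 4 * CX / ρ ^ 2 + 32 * CX / ρ ^ 2 * A +
        4 * C1 / ρ) * ‖u‖ * (h ^ 2 + h * ‖u‖ + ‖u‖ ^ (N + 1)) := by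
  have hu0 : 0 ≤ ‖u‖ := norm_nonneg u
  have hδ0 : 0 ≤ ‖δ‖ := norm_nonneg δ
  have hu1 : ‖u‖ ≤ 1 := by linarith
  have hδ1 : ‖δ‖ ≤ 1 := by linarith
  have hmem : ∀ w : ℂ, ‖w‖ < ρ → x0 + w ∈ ball x0 ρ := by
    intro w hw
    rw [mem_ball, dist_eq_norm, add_sub_cancel_left]
    exact hw
  have hmem0 : ∀ w : ℂ, ‖w‖ < ρ → w ∈ ball (0 : ℂ) ρ := by
    intro w hw
    rw [mem_ball, dist_zero_right]
    exact hw
  have hδu : ‖δ + u‖ ≤ ρ / 4 + ρ / 8 := (norm_add_le _ _).trans (by linarith)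
  -- the function K
  obtain ⟨K, hK⟩ : ∃ K : ℂ → ℂ, K = fun w => w ^ (N - 2) * k w := ⟨_, rfl⟩
  have hKd : DifferentiableOn ℂ K (ball 0 ρ) := by
    rw [hK]
    exact (differentiable_id.pow _).differentiableOn.mul hk
  have hKB : ∀ w ∈ ball (0 : ℂ) ρ, ‖K w‖ ≤ B := by
    intro w hw
    have h1 := hkB w hw
    have hw' : ‖w‖ ≤ 1 := by
      rw [mem_ball, dist_zero_right] at hw
      linarith
    rw [hK]
    show ‖w ^ (N - 2) * k w‖ ≤ B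
    rw [norm_mul, norm_pow]
    calc ‖w‖ ^ (N - 2) * ‖k w‖ ≤ 1 * B :=
          mul_le_mul (pow_le_one₀ (norm_nonneg _) hw') h1 (norm_nonneg _) zero_le_one
      _ = B := one_mul B
  have hKpow : ∀ w : ℂ, w ^ (N + 1) * k w = w ^ 3 * K w := by
    intro w
    rw [hK]
    show w ^ (N + 1) * k w = w ^ 3 * (w ^ (N - 2) * k w)
    rw [← mul_assoc, ← pow_add]
    congr 2
    omega
  have hKlip1 : ‖K (δ + u) - K δ‖ ≤ 4 * B / ρ * ‖u‖ := by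
    have h1 := gt_lip hρ hKd hKB (c := δ) (z := δ + u) (by rw [sub_zero]; linarith)
      (by rw [add_sub_cancel_left]; linarith)
    rwa [add_sub_cancel_left] at h1
  have hKlip2 : ‖K (δ + u) - K u‖ ≤ 4 * B / ρ * ‖δ‖ := by
    have h1 := gt_lip hρ hKd hKB (c := u) (z := δ + u) (by rw [sub_zero]; linarith)
      (by rw [add_sub_cancel_right]; linarith)
    rwa [add_sub_cancel_right] at h1
  have hklip : ‖k u - a‖ ≤ 4 * B / ρ * ‖u‖ := by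
    have h1 := gt_lip hρ hk hkB (c := 0) (z := u) (by rw [sub_zero, norm_zero]; positivity)
      (by rw [sub_zero]; linarith)
    rwa [sub_zero, hka] at h1
  obtain ⟨L, hL⟩ : ∃ L : ℝ, L = 4 * B / ρ := ⟨_, rfl⟩
  have hL0 : 0 ≤ L := by rw [hL]; positivity
  rw [← hL] at hKlip1 hKlip2 hklip
  -- first term
  have t1 : ‖(δ + u) ^ (N + 1) * k (δ + u) - δ ^ (N + 1) * k δ - u ^ (N + 1) * k u‖ ≤
      (3 * B + L) * (A ^ 2 + A) * ‖u‖ * (h ^ 2 + h * ‖u‖) := by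
    rw [hKpow, hKpow, hKpow]
    have h1 : (δ + u) ^ 3 * K (δ + u) - δ ^ 3 * K δ - u ^ 3 * K u =
        3 * δ * u * (δ + u) * K (δ + u) + δ ^ 3 * (K (δ + u) - K δ) +
          u ^ 3 * (K (δ + u) - K u) := by ring
    rw [h1]
    have hKn : ‖K (δ + u)‖ ≤ B := hKB _ (hmem0 _ (by linarith))
    have h2 : ‖3 * δ * u * (δ + u) * K (δ + u)‖ ≤ 3 * ‖δ‖ * ‖u‖ * (‖δ‖ + ‖u‖) * B := by
      rw [norm_mul, norm_mul, norm_mul, norm_mul]
      have h3 : ‖(3 : ℂ)‖ = 3 := by norm_num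
      rw [h3]
      have h4 := norm_add_le δ u
      gcongr
    have h3 : ‖δ ^ 3 * (K (δ + u) - K δ)‖ ≤ ‖δ‖ ^ 2 * (L * ‖u‖) := by
      rw [norm_mul, norm_pow]
      have h4 : ‖δ‖ ^ 3 ≤ ‖δ‖ ^ 2 := pow_le_pow_of_le_one hδ0 hδ1 (by norm_num)
      exact mul_le_mul h4 hKlip1 (norm_nonneg _) (by positivity)
    have h4 : ‖u ^ 3 * (K (δ + u) - K u)‖ ≤ ‖u‖ ^ 2 * (L * ‖δ‖) := by
      rw [norm_mul, norm_pow]
      have h4 : ‖u‖ ^ 3 ≤ ‖u‖ ^ 2 := pow_le_pow_of_le_one hu0 hu1 (by norm_num)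
      exact mul_le_mul h4 hKlip2 (norm_nonneg _) (by positivity)
    have h5 : ‖3 * δ * u * (δ + u) * K (δ + u) + δ ^ 3 * (K (δ + u) - K δ) +
          u ^ 3 * (K (δ + u) - K u)‖ ≤ (3 * B + L) * (‖u‖ * (‖δ‖ * (‖δ‖ + ‖u‖))) := by
      refine (norm_add_le _ _).trans ((add_le_add (norm_add_le _ _) le_rfl).trans ?_)
      calc _ ≤ 3 * ‖δ‖ * ‖u‖ * (‖δ‖ + ‖u‖) * B + ‖δ‖ ^ 2 * (L * ‖u‖) + ‖u‖ ^ 2 * (L * ‖δ‖) :=
            add_le_add (add_le_add h2 h3) h4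
        _ = _ := by ring
    refine h5.trans ?_
    have h6 : ‖δ‖ * (‖δ‖ + ‖u‖) ≤ (A ^ 2 + A) * (h ^ 2 + h * ‖u‖) := by
      calc ‖δ‖ * (‖δ‖ + ‖u‖) ≤ (A * h) * (A * h + ‖u‖) := by gcongr
        _ = A ^ 2 * h ^ 2 + A * (h * ‖u‖) := by ring
        _ ≤ (A ^ 2 + A) * (h ^ 2 + h * ‖u‖) := by
            have h7 : 0 ≤ A ^ 2 * (h * ‖u‖) := by positivity
            have h8 : 0 ≤ A * h ^ 2 := by positivity
            nlinarith
    calc (3 * B + L) * (‖u‖ * (‖δ‖ * (‖δ‖ + ‖u‖))) ≤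
          (3 * B + L) * (‖u‖ * ((A ^ 2 + A) * (h ^ 2 + h * ‖u‖))) := by gcongr
      _ = _ := by ring
  -- second term
  have t2 : ‖u ^ (N + 1) * k u - u * (a * u ^ N)‖ ≤ L * ‖u‖ * ‖u‖ ^ (N + 1) := by
    have h1 : u ^ (N + 1) * k u - u * (a * u ^ N) = u ^ (N + 1) * (k u - a) := by ring
    rw [h1, norm_mul, norm_pow]
    calc ‖u‖ ^ (N + 1) * ‖k u - a‖ ≤ ‖u‖ ^ (N + 1) * (L * ‖u‖) := by gcongr
      _ = _ := by ring
  -- third term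
  have t3 : ‖(h : ℂ) * (X (x0 + u) - X x0 - deriv X x0 * u)‖ ≤ 4 * CX / ρ ^ 2 * ‖u‖ * (h * ‖u‖) := by
    have h1 := tay2 hρ hX (B := 2 * CX) (fun z hz => by
      have h2 := hXB z hz
      have h3 := hXB x0 (mem_ball_self hρ)
      have h4 := norm_sub_le (X z) (X x0)
      linarith) (x0 + u) (hmem u (by linarith))
    rw [add_sub_cancel_left] at h1
    rw [norm_mul, Complex.norm_real, Real.norm_eq_abs, abs_of_pos hh]
    calc h * ‖X (x0 + u) - X x0 - deriv X x0 * u‖ ≤ h * (2 * (2 * CX) / ρ ^ 2 * ‖u‖ ^ 2) := by gcongr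
      _ = _ := by ring
  -- fourth term
  have t4 : ‖(h : ℂ) * ((X (x0 + δ + u) - X (x0 + u)) - (X (x0 + δ) - X x0))‖ ≤
      32 * CX / ρ ^ 2 * A * ‖u‖ * h ^ 2 := by
    obtain ⟨Y, hY⟩ : ∃ Y : ℂ → ℂ, Y = fun w => X (x0 + δ + w) - X (x0 + w) := ⟨_, rfl⟩
    have hYd : DifferentiableOn ℂ Y (ball 0 (ρ / 4)) := by
      rw [hY]
      have h1 : DifferentiableOn ℂ (fun w => X (x0 + δ + w)) (ball 0 (ρ / 4)) := by
        apply hX.comp (by fun_prop)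
        intro w hw
        rw [mem_ball, dist_zero_right] at hw
        rw [add_assoc]
        apply hmem
        exact lt_of_le_of_lt (norm_add_le _ _) (by linarith)
      have h2 : DifferentiableOn ℂ (fun w => X (x0 + w)) (ball 0 (ρ / 4)) := by
        apply hX.comp (by fun_prop)
        intro w hw
        rw [mem_ball, dist_zero_right] at hw
        apply hmem
        linarith
      exact h1.sub h2
    have hYB : ∀ w ∈ ball (0 : ℂ) (ρ / 4), ‖Y w‖ ≤ 4 * CX / ρ * ‖δ‖ := by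
      intro w hw
      rw [mem_ball, dist_zero_right] at hw
      have h1 := gt_lip hρ hX hXB (c := x0 + w) (z := x0 + δ + w)
        (by rw [add_sub_cancel_left]; linarith) (by
          have h2 : x0 + δ + w - (x0 + w) = δ := by ring
          rw [h2]
          linarith)
      have h2 : x0 + δ + w - (x0 + w) = δ := by ring
      rw [h2] at h1
      rw [hY]
      exact h1
    have hY0 : (0 : ℂ) ∈ ball (0 : ℂ) (ρ / 4) := mem_ball_self (by positivity)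
    have h1 := schw (by positivity : 0 < ρ / 4) hYd (B := 2 * (4 * CX / ρ * ‖δ‖)) (fun w hw => by
      have h2 := hYB w hw
      have h3 := hYB 0 hY0
      have h4 := norm_sub_le (Y w) (Y 0)
      linarith) u (by rw [mem_ball, dist_zero_right]; linarith)
    rw [sub_zero] at h1
    have h2 : Y u - Y 0 = (X (x0 + δ + u) - X (x0 + u)) - (X (x0 + δ) - X x0) := by
      rw [hY]
      simp only [add_zero]
    rw [h2] at h1
    rw [norm_mul, Complex.norm_real, Real.norm_eq_abs, abs_of_pos hh]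
    calc h * ‖(X (x0 + δ + u) - X (x0 + u)) - (X (x0 + δ) - X x0)‖ ≤
          h * (2 * (4 * CX / ρ * ‖δ‖) / (ρ / 4) * ‖u‖) := by gcongr
      _ = h * (32 * CX / ρ ^ 2 * ‖δ‖ * ‖u‖) := by
          congr 2
          field_simp
          ring
      _ ≤ h * (32 * CX / ρ ^ 2 * (A * h) * ‖u‖) := by gcongr
      _ = _ := by ring
  -- fifth term
  have t5 : ‖(g (x0 + δ + u) - f (x0 + δ + u) - h * X (x0 + δ + u)) -
      (g (x0 + δ) - f (x0 + δ) - h * X (x0 + δ))‖ ≤ 4 * C1 / ρ * ‖u‖ * h ^ 2 := by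
    have hed : DifferentiableOn ℂ (fun z => g z - f z - h * X z) (ball x0 ρ) :=
      (hg.sub hf).sub (hX.const_mul _)
    have h1 := gt_lip hρ hed he (c := x0 + δ) (z := x0 + δ + u)
      (by rw [add_sub_cancel_left]; linarith) (by rw [add_sub_cancel_left]; linarith)
    rw [add_sub_cancel_left] at h1
    refine h1.trans (le_of_eq ?_)
    ring
  -- the sum
  have hf1 : f (x0 + δ + u) = x0 + δ + u + (δ + u) ^ (N + 1) * k (δ + u) := by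
    have h1 := hnf (δ + u) (hmem0 _ (by linarith))
    rw [← add_assoc] at h1
    exact h1
  have hf2 : f (x0 + δ) = x0 + δ + δ ^ (N + 1) * k δ := hnf δ (hmem0 _ (by linarith))
  have hsum : (g (x0 + δ + u) - (x0 + δ)) - u * (1 + h * deriv X x0 + a * u ^ N) =
      ((δ + u) ^ (N + 1) * k (δ + u) - δ ^ (N + 1) * k δ - u ^ (N + 1) * k u) +
      (u ^ (N + 1) * k u - u * (a * u ^ N)) +
      (h : ℂ) * (X (x0 + u) - X x0 - deriv X x0 * u) +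
      (h : ℂ) * ((X (x0 + δ + u) - X (x0 + u)) - (X (x0 + δ) - X x0)) +
      ((g (x0 + δ + u) - f (x0 + δ + u) - h * X (x0 + δ + u)) -
      (g (x0 + δ) - f (x0 + δ) - h * X (x0 + δ))) := by
    rw [hfix, hf1, hf2]
    ring
  rw [hsum]
  refine (norm_add_le _ _).trans ((add_le_add (norm_add_le _ _) le_rfl).trans
    ((add_le_add (add_le_add (norm_add_le _ _) le_rfl) le_rfl).trans
    ((add_le_add (add_le_add (add_le_add (norm_add_le _ _) le_rfl) le_rfl) le_rfl).trans ?_)))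
  rw [← hL]
  refine (add_le_add (add_le_add (add_le_add (add_le_add t1 t2) t3) t4) t5).trans ?_
  obtain ⟨V, hV⟩ : ∃ V : ℝ, V = ‖u‖ ^ (N + 1) := ⟨_, rfl⟩
  have hV0 : 0 ≤ V := by rw [hV]; positivity
  rw [← hV]
  have p1 : 0 ≤ (3 * B + L) * (A ^ 2 + A) := by positivity
  have p3 : 0 ≤ 4 * CX / ρ ^ 2 := by positivity
  have p4 : 0 ≤ 32 * CX / ρ ^ 2 * A := by positivity
  have p5 : 0 ≤ 4 * C1 / ρ := by positivity
  have q1 : (3 * B + L) * (A ^ 2 + A) * ‖u‖ * (h ^ 2 + h * ‖u‖) ≤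
      (3 * B + L) * (A ^ 2 + A) * ‖u‖ * (h ^ 2 + h * ‖u‖ + V) := by
    apply mul_le_mul_of_nonneg_left (by linarith) (by positivity)
  have hhu : 0 ≤ h * ‖u‖ := by positivity
  have hh2 : 0 ≤ h ^ 2 := sq_nonneg h
  have q2 : L * ‖u‖ * V ≤ L * ‖u‖ * (h ^ 2 + h * ‖u‖ + V) := by
    apply mul_le_mul_of_nonneg_left (by linarith) (by positivity)
  have q3 : 4 * CX / ρ ^ 2 * ‖u‖ * (h * ‖u‖) ≤ 4 * CX / ρ ^ 2 * ‖u‖ * (h ^ 2 + h * ‖u‖ + V) := by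
    apply mul_le_mul_of_nonneg_left (by linarith) (by positivity)
  have q4 : 32 * CX / ρ ^ 2 * A * ‖u‖ * h ^ 2 ≤
      32 * CX / ρ ^ 2 * A * ‖u‖ * (h ^ 2 + h * ‖u‖ + V) := by
    apply mul_le_mul_of_nonneg_left (by linarith) (by positivity)
  have q5 : 4 * C1 / ρ * ‖u‖ * h ^ 2 ≤ 4 * C1 / ρ * ‖u‖ * (h ^ 2 + h * ‖u‖ + V) := by
    apply mul_le_mul_of_nonneg_left (by linarith) (by positivity)
  calc _ ≤ (3 * B + L) * (A ^ 2 + A) * ‖u‖ * (h ^ 2 + h * ‖u‖ + V) +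
        L * ‖u‖ * (h ^ 2 + h * ‖u‖ + V) + 4 * CX / ρ ^ 2 * ‖u‖ * (h ^ 2 + h * ‖u‖ + V) +
        32 * CX / ρ ^ 2 * A * ‖u‖ * (h ^ 2 + h * ‖u‖ + V) +
        4 * C1 / ρ * ‖u‖ * (h ^ 2 + h * ‖u‖ + V) :=
          add_le_add (add_le_add (add_le_add (add_le_add q1 q2) q3) q4) q5
    _ = _ := by ring

theorem germ_two {d : ℕ} {v0 v : E d} {x : ℕ → ℂ} {n : ℕ} (ho : Orb v0 x n) (hx : x n = x 0)
    {N : ℕ} {a : ℂ} {k : ℂ → ℂ} (hN : 2 ≤ N) (hnf : NF (fun u => it v0 n (x 0 + u) - x 0) k N a)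
    {α : E d × ℝ → ℂ} {A : ℝ} (hα : ∀ᶠ τ in flt v, ‖α τ - x 0‖ ≤ A * τ.2)
    (hfix : ∀ᶠ τ in flt v, it (pv v0 τ) n (α τ) = α τ) :
    ∃ C r : ℝ, 0 < r ∧ ∀ᶠ τ in flt v, ∀ u : ℂ, ‖u‖ ≤ r →
      ‖(it (pv v0 τ) n (α τ + u) - α τ) -
          u * (1 + τ.2 * deriv (XX v0 τ.1 n) (x 0) + a * u ^ N)‖ ≤
        C * ‖u‖ * (τ.2 ^ 2 + τ.2 * ‖u‖ + ‖u‖ ^ (N + 1)) := by
  obtain ⟨hka, hk0, hkF⟩ := hnf
  obtain ⟨C1, r1, hC1, hr1, hit⟩ := it_t v ho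
  obtain ⟨CX, r2, hCX, hr2, hxx⟩ := xx_unif ho v
  have hol := orb_deriv ho
  rw [nhds_prod_eq] at hol
  obtain ⟨r3, hr3, hhol⟩ :=
    ev_ball (p := fun w z => HasDerivAt (fun z => it w n z) (trD w n z) z) hol
  -- the function k
  have hkd : ∀ᶠ u in 𝓝 (0 : ℂ), AnalyticAt ℂ k u := hka.eventually_analyticAt
  have hkB : ∀ᶠ u in 𝓝 (0 : ℂ), ‖k u‖ < ‖a‖ + 1 := by
    have h1 : Tendsto (fun u => ‖k u‖) (𝓝 0) (𝓝 ‖k 0‖) := hka.continuousAt.norm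
    rw [hk0] at h1
    exact h1.eventually_lt_const (by linarith)
  obtain ⟨r4, hr4, hk4⟩ := Metric.eventually_nhds_iff_ball.mp (hkd.and (hkB.and hkF))
  obtain ⟨ρ, hρdef⟩ : ∃ ρ : ℝ, ρ = min (min (min r1 r2) (min r3 r4)) 1 := ⟨_, rfl⟩
  have hρ : 0 < ρ := by
    rw [hρdef]
    exact lt_min (lt_min (lt_min hr1 hr2) (lt_min hr3 hr4)) one_pos
  have hρ1 : ρ ≤ 1 := by rw [hρdef]; exact min_le_right _ _
  have hρr1 : ρ ≤ r1 := by
    rw [hρdef]; exact (min_le_left _ _).trans ((min_le_left _ _).trans (min_le_left _ _))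
  have hρr2 : ρ ≤ r2 := by
    rw [hρdef]; exact (min_le_left _ _).trans ((min_le_left _ _).trans (min_le_right _ _))
  have hρr3 : ρ ≤ r3 := by
    rw [hρdef]; exact (min_le_left _ _).trans ((min_le_right _ _).trans (min_le_left _ _))
  have hρr4 : ρ ≤ r4 := by
    rw [hρdef]; exact (min_le_left _ _).trans ((min_le_right _ _).trans (min_le_right _ _))
  have hf : DifferentiableOn ℂ (fun z => it v0 n z) (ball (x 0) ρ) := by
    intro z hz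
    exact (hhol.self_of_nhds z (ball_subset_ball hρr3 hz)).differentiableAt.differentiableWithinAt
  have hkd' : DifferentiableOn ℂ k (ball 0 ρ) := by
    intro z hz
    exact (hk4 z (ball_subset_ball hρr4 hz)).1.differentiableAt.differentiableWithinAt
  refine ⟨(3 * (‖a‖ + 1) + 4 * (‖a‖ + 1) / ρ) * (|A| ^ 2 + |A|) + 4 * (‖a‖ + 1) / ρ +
    4 * CX / ρ ^ 2 + 32 * CX / ρ ^ 2 * |A| + 4 * C1 / ρ, ρ / 8, by positivity, ?_⟩
  have f1 : ∀ᶠ τ in flt v, τ.1 ∈ ball v 1 := by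
    have h1 : Tendsto (fun τ : E d × ℝ => τ.1) (flt v) (𝓝 v) := tendsto_fst
    exact h1.eventually (ball_mem_nhds v one_pos)
  have f2 : ∀ᶠ τ in flt v, DifferentiableOn ℂ (XX v0 τ.1 n) (ball (x 0) r2) ∧
      ∀ z ∈ ball (x 0) r2, ‖XX v0 τ.1 n z‖ ≤ CX := by
    have h1 : Tendsto (fun τ : E d × ℝ => τ.1) (flt v) (𝓝 v) := tendsto_fst
    exact h1.eventually hxx
  have f3 : ∀ᶠ τ in flt v, ∀ z ∈ ball (x 0) r3,
      HasDerivAt (fun z => it (pv v0 τ) n z) (trD (pv v0 τ) n z) z := (pv_lim v0 v).eventually hhol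
  have f4 : ∀ᶠ τ in flt v, τ.2 < r1 := (flt_lim v).eventually_lt_const hr1
  have f5 : ∀ᶠ τ in flt v, |A| * τ.2 < ρ / 4 := by
    have h1 := (flt_lim v).const_mul |A|
    rw [mul_zero] at h1
    exact h1.eventually_lt_const (by positivity)
  filter_upwards [hα, hfix, Pool.Agent.H79.Par.flt_pos v, f1, f2, f3, f4, f5] with τ hα hfix hpos f1 f2 f3 f4 f5
  intro u hu
  obtain ⟨δ, hδ⟩ : ∃ δ : ℂ, δ = α τ - x 0 := ⟨_, rfl⟩
  have hαδ : α τ = x 0 + δ := by rw [hδ]; ring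
  have hδA : ‖δ‖ ≤ |A| * τ.2 := by
    rw [hδ]
    exact hα.trans (mul_le_mul_of_nonneg_right (le_abs_self A) hpos.le)
  have hpv : pv v0 τ = v0 + (τ.2 : ℂ) • τ.1 := by
    unfold pv
    rw [Complex.coe_smul]
  have h1 := gt_core (f := fun z => it v0 n z) (g := fun z => it (pv v0 τ) n z)
    (X := XX v0 τ.1 n) (k := k) (x0 := x 0) (δ := δ) (a := a) (N := N) (ρ := ρ) (h := τ.2)
    (A := |A|) (B := ‖a‖ + 1) (CX := CX) (C1 := C1) hρ hρ1 hN (abs_nonneg A) (by positivity) hCX hC1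
    hpos hf (fun z hz => (f3 z (ball_subset_ball hρr3 hz)).differentiableAt.differentiableWithinAt)
    (f2.1.mono (ball_subset_ball hρr2)) hkd' hk0
    (fun u hu => (hk4 u (ball_subset_ball hρr4 hu)).2.1.le)
    (fun z hz => f2.2 z (ball_subset_ball hρr2 hz))
    (fun u hu => by
      have h2 : it v0 n (x 0 + u) - x 0 = u + u ^ (N + 1) * k u :=
        (hk4 u (ball_subset_ball hρr4 hu)).2.2
      have h3 : it v0 n (x 0 + u) = x 0 + (it v0 n (x 0 + u) - x 0) := by ring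
      show it v0 n (x 0 + u) = x 0 + u + u ^ (N + 1) * k u
      rw [h3, h2]
      ring)
    (fun z hz => by
      have h2 := hit τ.1 f1 (τ.2 : ℂ) (by
        rw [Complex.norm_real, Real.norm_eq_abs, abs_of_pos hpos]
        exact f4.le) z (ball_subset_ball hρr1 hz)
      rw [Complex.norm_real, Real.norm_eq_abs, abs_of_pos hpos] at h2
      show ‖it (pv v0 τ) n z - it v0 n z - τ.2 * XX v0 τ.1 n z‖ ≤ C1 * τ.2 ^ 2
      rw [hpv]
      exact h2)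
    hδA (hδA.trans f5.le) (by
      show it (pv v0 τ) n (x 0 + δ) = x 0 + δ
      rw [← hαδ]
      exact hfix) u hu
  rw [hαδ]
  exact h1

end Pool.Agent.H35.PL
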