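import Pool.Agent.H35.PL.Tay
import Pool.Agent.H79.Par.It
import Pool.Agent.H79.Par.XXLin
import Pool.Agent.H35.RL.RDefs

/-!
# Module ItT: second order expansion of the iterates in the size of the perturbation

PROOFS. `it_deriv_t`: induction on `n` (`n = 0`: constant, `XX 0 = 0`). `it w (j + 1) z = ev w.1 y / ev w.2 y`,
`y = it w j z`, `w = v0 + t • w1`: `ev (v0 + t • w1).1 y = ev v0.1 y + t * ev w1.1 y` (`ev` is linear in the coefficients),
so with `y' = XX (..) w1 j z` the derivative of the numerator is `ev w1.1 y + dev w.1 y * y'` and the quotient rule gives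
`(ev w1.1 y * ev w.2 y - ev w.1 y * ev w1.2 y) / ev w.2 y ^ 2 + wv w y / ev w.2 y ^ 2 * y'` (`wv` is `dev w.1 * ev w.2 -
ev w.1 * dev w.2`), the definition of `XX (..) w1 (j + 1) z`.
`it_t`: by `orb_near` and `orb_cont` there is `ρ > 0` with: for `‖v' - v0‖ < ρ`, `z ∈ ball (x 0) ρ` the denominators are not
zero and `‖it v' n z - x n‖ ≤ 1`. For `w ∈ ball v 1` and `‖t‖ < r1 = ρ / (‖v‖ + 2)`: `‖t • w‖ < ρ`. So
`f t = it (v0 + t • w) n z` is differentiable on `ball 0 r1`, `‖f t - f 0‖ ≤ 2`, `deriv f 0 = XX v0 w n z`: `tay2`.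
-/

set_option autoImplicit false

open Filter Topology Polynomial Metric Set

namespace Pool.Agent.H35.PL

open Pool.Agent.H44.Fatou Pool.Agent.H32.BT Pool.Agent.H79.Eul Pool.Agent.H79.Par Pool.Agent.H35.RL

/-- derivative of the evaluation when the coefficients and the point move -/
private theorem it_ev_deriv {d : ℕ} (p p1 : Fin (d + 1) → ℂ) {y : ℂ → ℂ} {y' t : ℂ}
    (hy : HasDerivAt y y' t) :
    HasDerivAt (fun t : ℂ => ev (p + t • p1) (y t))
      (dev (p + t • p1) (y t) * y' + ev p1 (y t)) t := by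
  have h : ∀ i : Fin (d + 1), HasDerivAt (fun t : ℂ => (p + t • p1) i * y t ^ (i : ℕ))
      ((p + t • p1) i * ((i : ℕ) * y t ^ ((i : ℕ) - 1)) * y' + p1 i * y t ^ (i : ℕ)) t := by
    intro i
    have h1 : HasDerivAt (fun t : ℂ => (p + t • p1) i) (p1 i) t := by
      have h2 : HasDerivAt (fun t : ℂ => p i + t * p1 i) (p1 i) t := by
        have h3 := ((hasDerivAt_id t).mul_const (p1 i)).const_add (p i)
        simp only [id, one_mul] at h3
        exact h3
      exact h2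
    have h4 := h1.mul (hy.fun_pow (i : ℕ))
    refine h4.congr_deriv ?_
    ring
  have h5 := HasDerivAt.fun_sum (u := Finset.univ) (fun i _ => h i)
  unfold ev dev
  refine h5.congr_deriv ?_
  rw [Finset.sum_add_distrib, Finset.sum_mul]

theorem it_deriv_t {d : ℕ} {v0 w : E d} {t z : ℂ} {n : ℕ}
    (h : ∀ j < n, ev (v0 + t • w).2 (it (v0 + t • w) j z) ≠ 0) :
    HasDerivAt (fun t : ℂ => it (v0 + t • w) n z) (XX (v0 + t • w) w n z) t := by
  induction n with
  | zero => exact hasDerivAt_const t z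
  | succ n ih =>
    have ih' := ih fun j hj => h j (by omega)
    have hn := h n (Nat.lt_succ_self n)
    have h1 : HasDerivAt (fun t : ℂ => ev (v0 + t • w).1 (it (v0 + t • w) n z))
        (dev (v0 + t • w).1 (it (v0 + t • w) n z) * XX (v0 + t • w) w n z +
          ev w.1 (it (v0 + t • w) n z)) t := it_ev_deriv v0.1 w.1 ih'
    have h2 : HasDerivAt (fun t : ℂ => ev (v0 + t • w).2 (it (v0 + t • w) n z))
        (dev (v0 + t • w).2 (it (v0 + t • w) n z) * XX (v0 + t • w) w n z +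
          ev w.2 (it (v0 + t • w) n z)) t := it_ev_deriv v0.2 w.2 ih'
    have h3 := h1.div h2 hn
    have h4 : XX (v0 + t • w) w (n + 1) z = xi (v0 + t • w) w (it (v0 + t • w) n z) +
        wv (v0 + t • w) (it (v0 + t • w) n z) / ev (v0 + t • w).2 (it (v0 + t • w) n z) ^ 2 *
          XX (v0 + t • w) w n z := rfl
    have h5 : HasDerivAt (fun t : ℂ => it (v0 + t • w) (n + 1) z) _ t := h3
    refine h5.congr_deriv ?_
    rw [h4]
    unfold xi wv
    generalize ev (v0 + t • w).2 (it (v0 + t • w) n z) = b at hn ⊢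
    field_simp
    ring

/-- uniform data on a ball: nonzero denominators and bounded variation -/
private theorem it_unif {d : ℕ} {v0 : E d} (v : E d) {x : ℕ → ℂ} {n : ℕ} (ho : Orb v0 x n) :
    ∃ ρ : ℝ, 0 < ρ ∧ ∀ w ∈ ball v 1, ∀ z ∈ ball (x 0) ρ,
      (∀ t ∈ ball (0 : ℂ) ρ, ∀ j < n, ev (v0 + t • w).2 (it (v0 + t • w) j z) ≠ 0) ∧
      (∀ t ∈ ball (0 : ℂ) ρ, ‖it (v0 + t • w) n z - it v0 n z‖ ≤ 2) := by
  have h1 := orb_near ho
  have h2 : ∀ᶠ y : E d × ℂ in 𝓝 (v0, x 0), ‖it y.1 n y.2 - it v0 n (x 0)‖ < 1 := by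
    have h3 := (orb_cont ho le_rfl).sub (continuousAt_const (y := it v0 n (x 0)))
    have h4 := h3.norm
    refine h4.eventually (gt_mem_nhds ?_)
    simp
  obtain ⟨ρ, hρ, hball⟩ := Metric.eventually_nhds_iff_ball.1 (h1.and h2)
  have hv : 0 < ‖v‖ + 1 := by positivity
  refine ⟨min ρ (ρ / (‖v‖ + 1)), lt_min hρ (by positivity), ?_⟩
  intro w hw z hz
  have hwn : ‖w‖ ≤ ‖v‖ + 1 := by
    rw [mem_ball, dist_eq_norm] at hw
    calc ‖w‖ = ‖v + (w - v)‖ := by rw [add_sub_cancel]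
      _ ≤ ‖v‖ + ‖w - v‖ := norm_add_le _ _
      _ ≤ ‖v‖ + 1 := by linarith
  have hzρ : dist z (x 0) < ρ := lt_of_lt_of_le (mem_ball.1 hz) (min_le_left _ _)
  have hmem : ∀ t ∈ ball (0 : ℂ) (min ρ (ρ / (‖v‖ + 1))), (v0 + t • w, z) ∈ ball (v0, x 0) ρ := by
    intro t ht
    rw [mem_ball, dist_zero_right] at ht
    have ht2 : ‖t‖ < ρ / (‖v‖ + 1) := lt_of_lt_of_le ht (min_le_right _ _)
    rw [mem_ball, Prod.dist_eq, max_lt_iff]
    refine ⟨?_, hzρ⟩
    rw [dist_eq_norm, add_sub_cancel_left, norm_smul]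
    rw [lt_div_iff₀ hv] at ht2
    calc ‖t‖ * ‖w‖ ≤ ‖t‖ * (‖v‖ + 1) := by gcongr
      _ < ρ := ht2
  have h0 : (0 : ℂ) ∈ ball (0 : ℂ) (min ρ (ρ / (‖v‖ + 1))) :=
    mem_ball_self (lt_min hρ (by positivity))
  refine ⟨fun t ht => (hball _ (hmem t ht)).1, fun t ht => ?_⟩
  have h5 := (hball _ (hmem t ht)).2
  have h6 := (hball _ (hmem 0 h0)).2
  simp only [zero_smul, add_zero] at h5 h6
  calc ‖it (v0 + t • w) n z - it v0 n z‖
      = ‖(it (v0 + t • w) n z - it v0 n (x 0)) - (it v0 n z - it v0 n (x 0))‖ := by ring_nf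
    _ ≤ ‖it (v0 + t • w) n z - it v0 n (x 0)‖ + ‖it v0 n z - it v0 n (x 0)‖ := norm_sub_le _ _
    _ ≤ 2 := by linarith

theorem it_t {d : ℕ} {v0 : E d} (v : E d) {x : ℕ → ℂ} {n : ℕ} (ho : Orb v0 x n) :
    ∃ C r : ℝ, 0 ≤ C ∧ 0 < r ∧ ∀ w ∈ ball v 1, ∀ t : ℂ, ‖t‖ ≤ r → ∀ z ∈ ball (x 0) r,
      ‖it (v0 + t • w) n z - it v0 n z - t * XX v0 w n z‖ ≤ C * ‖t‖ ^ 2 := by
  obtain ⟨ρ, hρ, H⟩ := it_unif v ho
  refine ⟨2 * 2 / ρ ^ 2, ρ / 2, by positivity, by positivity, ?_⟩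
  intro w hw t ht z hz
  have hz' : z ∈ ball (x 0) ρ := ball_subset_ball (by linarith) hz
  obtain ⟨H1, H2⟩ := H w hw z hz'
  have hf : DifferentiableOn ℂ (fun t : ℂ => it (v0 + t • w) n z) (ball 0 ρ) := fun s hs =>
    (it_deriv_t (H1 s hs)).differentiableAt.differentiableWithinAt
  have h0 : (0 : ℂ) ∈ ball (0 : ℂ) ρ := mem_ball_self hρ
  have hd : deriv (fun t : ℂ => it (v0 + t • w) n z) 0 = XX v0 w n z := by
    have h1 := (it_deriv_t (H1 0 h0)).deriv
    rw [zero_smul, add_zero] at h1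
    exact h1
  have h2 := tay2 hρ hf (B := 2) (by
    intro s hs
    have h3 := H2 s hs
    simp only [zero_smul, add_zero]
    exact h3) t (by
    rw [mem_ball, dist_zero_right]
    linarith)
  rw [hd] at h2
  simp only [zero_smul, add_zero, sub_zero] at h2
  rw [mul_comm t]
  exact h2

/-- the derivative in the direction `w`, uniformly for `w` near `v` -/
theorem xx_unif {d : ℕ} {v0 : E d} {x : ℕ → ℂ} {n : ℕ} (ho : Orb v0 x n) (v : E d) :
    ∃ C r : ℝ, 0 ≤ C ∧ 0 < r ∧ ∀ᶠ w in 𝓝 v, DifferentiableOn ℂ (XX v0 w n) (ball (x 0) r) ∧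
      ∀ z ∈ ball (x 0) r, ‖XX v0 w n z‖ ≤ C := by
  obtain ⟨ρ, hρ, H⟩ := it_unif v ho
  refine ⟨2 / ρ, ρ, by positivity, hρ, ?_⟩
  filter_upwards [ball_mem_nhds v one_pos] with w hw
  have h0 : (0 : ℂ) ∈ ball (0 : ℂ) ρ := mem_ball_self hρ
  constructor
  · intro z hz
    obtain ⟨H1, H2⟩ := H w hw z hz
    have h1 : Orb v0 (fun j => it v0 j z) n := by
      intro j hj
      have h2 := H1 0 h0 j hj
      rw [zero_smul, add_zero] at h2
      exact ⟨h2, rfl⟩
    have h3 := (XX_diff h1 w).self_of_nhds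
    exact h3.differentiableWithinAt
  · intro z hz
    obtain ⟨H1, H2⟩ := H w hw z hz
    have hf : DifferentiableOn ℂ (fun t : ℂ => it (v0 + t • w) n z) (ball 0 ρ) := fun s hs =>
      (it_deriv_t (H1 s hs)).differentiableAt.differentiableWithinAt
    have hd : deriv (fun t : ℂ => it (v0 + t • w) n z) 0 = XX v0 w n z := by
      have h1 := (it_deriv_t (H1 0 h0)).deriv
      rw [zero_smul, add_zero] at h1
      exact h1
    rw [← hd]
    refine Complex.norm_deriv_le_div_of_mapsTo_ball hf ?_ hρ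
    intro s hs
    rw [mem_closedBall, dist_eq_norm]
    have h3 := H2 s hs
    simp only [zero_smul, add_zero]
    exact h3

end Pool.Agent.H35.PL
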