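import Pool.Agent.H35.RL.Cocyc
import Pool.Agent.H79.Par.GDefs
import Pool.Agent.H61.TT.Main3

/-!
# Module KapNe1: transversality for neutral cycles

From `kap_ne` of H61/TT/Main3: the neutral cycle itself is a non repelling cycle.
-/

set_option autoImplicit false

open Filter Topology Polynomial Metric Set

namespace Pool.Agent.H35.PL

open Pool.Agent.H44.Fatou Pool.Agent.H32.BT Pool.Agent.H79.Eul Pool.Agent.H79.Par Pool.Agent.H35.RL

theorem kap_ne1 {d : ℕ} (hd : 2 ≤ d) {v0 : E d} (hcop : IsCoprime (pol v0.1) (pol v0.2))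
    (hdeg : max (pol v0.1).natDegree (pol v0.2).natDegree = d) {x : ℕ → ℂ} {k n : ℕ}
    (ho : ∀ j, Orb v0 x j) (hk : 1 ≤ k) (hn : 0 < n) (hper : x (k + n) = x k)
    (hinj : ∀ i < n, ∀ j < n, x (k + i) = x (k + j) → i = j)
    (hc : wv v0 (x 0) = 0) (hlam : ‖trD v0 n (x k)‖ = 1) (hlam1 : trD v0 n (x k) ≠ 1) :
    ∃ v, kap v0 v x k n ≠ 0 :=
  Pool.Agent.H61.TT.kap_ne hd hcop hdeg x hk hn hc (ho (k + n)) hper hlam.ge hlam1
    ⟨fun i => x (k + i), n, hn, fun j hj => ho (k + j + 1) (k + j) (by omega), by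
      show x (k + n) = x (k + 0)
      rw [hper, add_zero], by
      show ‖trD v0 n (x (k + 0))‖ ≤ 1
      rw [add_zero]
      exact hlam.le⟩

end Pool.Agent.H35.PL
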