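import Pool.Agent.H35.RL.CritIt
import Pool.Agent.H79.Par.PerRate

/-!
# Module KapU: distance between the critical orbit and the periodic point

PROOF. `it (pv) k y.2 - α = (it (pv) k y.2 - x k) - (α (pv) - x k)`. Divided by `h` the first term tends to
`XX v0 v k (x 0)` (`crit_it`), the second to `XX v0 v p (x k) / (1 - trD v0 p (x k))` (`per_rate` for the shifted orbit
`fun i => x (k + i)`, composed with `y ↦ y.1`, `mono_left inf_le_left`).
`kap = XX v0 v k (x 0) + XX v0 v p (x k) / (trD - 1)`.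
-/

set_option autoImplicit false

open Filter Topology Polynomial Metric Set

namespace Pool.Agent.H35.PL

open Pool.Agent.H44.Fatou Pool.Agent.H32.BT Pool.Agent.H79.Eul Pool.Agent.H79.Par Pool.Agent.H35.RL

theorem kap_u {d : ℕ} {v0 v : E d} (hcop : IsCoprime (pol v0.1) (pol v0.2))
    (hdeg : 1 ≤ max (pol v0.1).natDegree (pol v0.2).natDegree) {x : ℕ → ℂ} {k p : ℕ} (hk : 1 ≤ k)
    (ho : ∀ j, Orb v0 x j) (hper : x (k + p) = x k) (hL : trD v0 p (x k) ≠ 1) {α : E d → ℂ}
    (hα0 : α v0 = x k) (hαc : ContinuousAt α v0) (hα : ∀ᶠ w in 𝓝 v0, it w p (α w) = α w) :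
    Tendsto (fun y : (E d × ℝ) × ℂ => (it (pv v0 y.1) k y.2 - α (pv v0 y.1)) / (y.1.2 : ℂ))
      ((flt v ×ˢ 𝓝 (x 0)) ⊓ 𝓟 (crs v0)) (𝓝 (kap v0 v x k p)) := by
  have h1 := crit_it (v := v) hcop hdeg hk (ho k)
  have ho' : Orb v0 (fun i => x (k + i)) p := by
    intro j hj
    exact ho (k + p) (k + j) (by omega)
  have h2 := per_rate (v := v) (x := fun i => x (k + i)) (n := p) ho'
    (by simpa using hper) (by simpa using hL) (α := α) (by simpa using hα0) hαc hα
  simp only [add_zero] at h2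
  have hfst : Tendsto (fun y : (E d × ℝ) × ℂ => y.1)
      ((flt v ×ˢ 𝓝 (x 0)) ⊓ 𝓟 (crs v0)) (Pool.Agent.H79.Eul.flt v) :=
    tendsto_fst.mono_left inf_le_left
  have h3 := h1.sub (h2.comp hfst)
  have h4 : XX v0 v k (x 0) - XX v0 v p (x k) / (1 - trD v0 p (x k)) = kap v0 v x k p := by
    unfold kap
    have h5 : 1 - trD v0 p (x k) = -(trD v0 p (x k) - 1) := by ring
    rw [h5, div_neg, sub_neg_eq_add]
  rw [h4] at h3
  refine h3.congr fun y => ?_
  simp only [Function.comp]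
  rw [← sub_div]
  congr 1
  ring

end Pool.Agent.H35.PL
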