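import Pool.Agent.H35.RL.CritIt
import Pool.Agent.H35.RL.PullAtt
import Pool.Agent.H79.Par.SubToC
import Pool.Agent.H79.Par.CycNull
import Pool.Agent.H79.Par.GermGood
import Pool.Agent.H79.Par.GermZero
import Pool.Agent.H79.Par.GenRot
import Pool.Agent.H79.Par.KerNull

/-!
# Module ParZero: critical orbits landing on a parabolic cycle, multiplier 1

PROOF. `L v = XX v0 v p (x k)` is linear (`XX_add`, `XX_smul`), not zero. `sub_of_ae` (H79/Par/SubToC): it is enough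
that for almost every `v` eventually in `flt v ×ˢ 𝓝 (x 0)`: critical implies `Att`. `genV_rot` (H79/Par/GenRot, `κ = 0`,
`β = 1`) gives a countable set `bad` of angles. Let `v` be outside the null sets `{L v = 0}` (`ker_null`) and
`{(exp (-(φ I)) * L v).im = 0}`, `φ ∈ bad` (`line_null`, as in `cyc_null`, H79/Par/CycNull.lean): `L v = t exp (φ I)`,
`t > 0`, `φ ∉ bad`. Put `v' = t⁻¹ • v`, `L v' = exp (φ I)`. `germ_zero` for the shifted orbit `fun i => x (k + i)` and the direction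
`v'` gives `s : Germ (E d × ℝ) (flt v') N 0 a (L v')`, `s.att τ u ↔ Att (Rf (pv v0 τ)) (x k + u)`. `germ_land` with
`M = ‖XX v0 v' k (x 0)‖ + 1`: eventually in `flt v'`, `att τ u` for all `‖u‖ ≤ M h`. By `crit_it` along
`(flt v' ×ˢ 𝓝 (x 0)) ⊓ 𝓟 (crs v0)` eventually `‖it (pv) k y.2 - x k‖ ≤ M h`, so `Att (Rf (pv)) (it (pv) k y.2)` and by `pull_one`
(H35/RL/PullAtt; `orb_near (ho k)`, `cop_near`) `Att (Rf (pv)) y.2`. Finally transport from `v'` to `v`: the map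
`((w, h), z) ↦ ((t⁻¹ • w, t * h), z)` tends to `flt v' ×ˢ 𝓝 z0` along `flt v ×ˢ 𝓝 z0` and `pv v0` has the same value (see
`flt_scale` in CycNull.lean; apply the same argument to the statement `wv (pv) z = 0 → Att ..`).
-/

set_option autoImplicit false

open Filter Topology Polynomial Metric Set

namespace Pool.Agent.H35.PL

open Pool.Agent.H44.Fatou Pool.Agent.H32.BT Pool.Agent.H79.Eul Pool.Agent.H79.Par Pool.Agent.H35.RL

theorem crit_scale {d : ℕ} {v0 v : E d} {t : ℝ} (ht : 0 < t) {z : ℂ}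
    (h : ∀ᶠ w : (E d × ℝ) × ℂ in flt (t⁻¹ • v) ×ˢ 𝓝 z, wv (pv v0 w.1) w.2 = 0 →
      Att (Rf (pv v0 w.1)) (w.2 : OnePoint ℂ)) :
    ∀ᶠ w : (E d × ℝ) × ℂ in flt v ×ˢ 𝓝 z, wv (pv v0 w.1) w.2 = 0 →
      Att (Rf (pv v0 w.1)) (w.2 : OnePoint ℂ) := by
  have h1 : Tendsto (fun w : E d × ℝ => (t⁻¹ • w.1, t * w.2)) (flt v) (flt (t⁻¹ • v)) := by
    refine Tendsto.prodMk ?_ ?_
    · have h2 : Tendsto (fun w : E d × ℝ => w.1) (flt v) (𝓝 v) := tendsto_fst
      exact h2.const_smul t⁻¹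
    · have h2 : Tendsto (fun w : E d × ℝ => w.2) (flt v) (𝓝[>] (0 : ℝ)) := tendsto_snd
      have h3 : Tendsto (fun s : ℝ => t * s) (𝓝[>] (0 : ℝ)) (𝓝[>] (0 : ℝ)) := by
        refine tendsto_nhdsWithin_iff.2 ⟨?_, ?_⟩
        · have h4 : Tendsto (fun s : ℝ => t * s) (𝓝 (0 : ℝ)) (𝓝 (t * 0)) :=
            (continuous_const.mul continuous_id).tendsto 0
          rw [mul_zero] at h4
          exact h4.mono_left nhdsWithin_le_nhds
        · filter_upwards [self_mem_nhdsWithin] with s hs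
          exact mul_pos ht hs
      exact h3.comp h2
  have h2 : Tendsto (fun w : (E d × ℝ) × ℂ => ((t⁻¹ • w.1.1, t * w.1.2), w.2)) (flt v ×ˢ 𝓝 z)
      (flt (t⁻¹ • v) ×ˢ 𝓝 z) :=
    (h1.comp tendsto_fst).prodMk tendsto_snd
  filter_upwards [h2.eventually h] with w hw
  have h3 : pv v0 (t⁻¹ • w.1.1, t * w.1.2) = pv v0 w.1 := by
    unfold pv
    rw [smul_smul]
    congr 2
    field_simp
  rw [h3] at hw
  exact hw

/-- one direction -/
theorem pz_dir {d : ℕ} (hd : 2 ≤ d) {v0 v : E d} (hcop : IsCoprime (pol v0.1) (pol v0.2))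
    (hdeg : max (pol v0.1).natDegree (pol v0.2).natDegree = d) {x : ℕ → ℂ} {k p N : ℕ} {a : ℂ}
    {kk : ℂ → ℂ} (ho : ∀ j, Orb v0 x j) (hk : 1 ≤ k) (hp : 0 < p)
    (hper : x (k + p) = x k) (hN : 1 ≤ N) (ha : a ≠ 0)
    (hnf : NF (fun u => it v0 p (x k + u) - x k) kk N a)
    (hβ : XX v0 v p (x k) ≠ 0) (hgen : ∃ s0 c : ℂ, GenAt N 0 a (XX v0 v p (x k)) s0 c) :
    ∀ᶠ w : (E d × ℝ) × ℂ in flt v ×ˢ 𝓝 (x 0), wv (pv v0 w.1) w.2 = 0 →
      Att (Rf (pv v0 w.1)) (w.2 : OnePoint ℂ) := by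
  have hcopn : ∀ᶠ w in 𝓝 v0, IsCoprime (pol w.1) (pol w.2) :=
    (cop_near hcop hdeg (by omega)).mono (fun _ h => h.1)
  have hos : Orb v0 (fun i => x (k + i)) p := by
    intro i hi
    exact ho (k + i + 1) (k + i) (by omega)
  obtain ⟨s, hs, hatt⟩ := germ_zero (v := v) hp hcopn hos hper hN hnf
  have hland := germ_land hN ha hβ s hgen (‖XX v0 v k (x 0)‖ + 1)
  have hcrit := crit_it (v := v) hcop (by rw [hdeg]; omega) hk (ho k)
  have h1 : ∀ᶠ y : (E d × ℝ) × ℂ in (flt v ×ˢ 𝓝 (x 0)) ⊓ 𝓟 (crs v0),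
      ‖(it (pv v0 y.1) k y.2 - x k) / (y.1.2 : ℂ)‖ < ‖XX v0 v k (x 0)‖ + 1 :=
    hcrit.norm.eventually (gt_mem_nhds (by linarith))
  rw [eventually_inf_principal] at h1
  have h2 : ∀ᶠ w : (E d × ℝ) × ℂ in flt v ×ˢ 𝓝 (x 0),
      IsCoprime (pol (pv v0 w.1).1) (pol (pv v0 w.1).2) :=
    tendsto_fst.eventually ((pv_lim v0 v).eventually hcopn)
  have h3 := (pv_lim2 v0 v (x 0)).eventually (orb_near (ho k))
  have h4 : ∀ᶠ w : (E d × ℝ) × ℂ in flt v ×ˢ 𝓝 (x 0), 0 < w.1.2 :=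
    tendsto_fst.eventually (Pool.Agent.H79.Par.flt_pos v)
  have h5 : ∀ᶠ w : (E d × ℝ) × ℂ in flt v ×ˢ 𝓝 (x 0),
      ∀ u : ℂ, ‖u‖ ≤ (‖XX v0 v k (x 0)‖ + 1) * s.h w.1 → s.att w.1 u :=
    tendsto_fst.eventually hland
  filter_upwards [h1, h2, h3, h4, h5] with w e1 e2 e3 e4 e5 hcr
  have e6 := e1 hcr
  rw [norm_div, Complex.norm_real, Real.norm_of_nonneg e4.le, div_lt_iff₀ e4] at e6
  have e7 := e5 (it (pv v0 w.1) k w.2 - x k) (by rw [hs]; exact e6.le)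
  rw [hatt] at e7
  have e8 : x (k + 0) + (it (pv v0 w.1) k w.2 - x k) = it (pv v0 w.1) k w.2 := by
    rw [add_zero]
    ring
  rw [e8] at e7
  exact pull_one e2 e3 e7

theorem par_zero_land {d : ℕ} (hd : 2 ≤ d) {v0 : E d} (hcop : IsCoprime (pol v0.1) (pol v0.2))
    (hdeg : max (pol v0.1).natDegree (pol v0.2).natDegree = d) {x : ℕ → ℂ} {k p N : ℕ} {a : ℂ}
    {kk : ℂ → ℂ} (ho : ∀ j, Orb v0 x j) (hk : 1 ≤ k) (hp : 0 < p)
    (hper : x (k + p) = x k) (hN : 1 ≤ N) (ha : a ≠ 0)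
    (hnf : NF (fun u => it v0 p (x k + u) - x k) kk N a)
    (hb : ∃ v, XX v0 v p (x k) ≠ 0) : SubGood v0 (x 0) := by

  obtain ⟨v1, hv1⟩ := hb
  obtain ⟨bad, hbad, hgen⟩ := genV_rot (N := N) (κ := 0) (by omega) (by omega) ha
    (one_ne_zero : (1 : ℂ) ≠ 0)
  have hsub : {v : E d | ¬ ∀ᶠ w : (E d × ℝ) × ℂ in flt v ×ˢ 𝓝 (x 0), wv (pv v0 w.1) w.2 = 0 →
      Att (Rf (pv v0 w.1)) (w.2 : OnePoint ℂ)} ⊆ {v : E d | XX v0 v p (x k) = 0} ∪
      ⋃ φ ∈ bad, {v : E d | (Complex.exp (-(φ * Complex.I)) * XX v0 v p (x k)).im = 0} := by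
    intro v hv
    by_cases h0 : XX v0 v p (x k) = 0
    · exact Or.inl h0
    · right
      have ht : 0 < ‖XX v0 v p (x k)‖ := norm_pos_iff.2 h0
      have hpol : XX v0 v p (x k) = (‖XX v0 v p (x k)‖ : ℂ) *
          Complex.exp (Complex.arg (XX v0 v p (x k)) * Complex.I) :=
        (Complex.norm_mul_exp_arg_mul_I (XX v0 v p (x k))).symm
      by_cases hb : Complex.arg (XX v0 v p (x k)) ∈ bad
      · refine mem_iUnion₂.2 ⟨_, hb, ?_⟩
        show (Complex.exp (-((Complex.arg (XX v0 v p (x k)) : ℝ) * Complex.I)) *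
          XX v0 v p (x k)).im = 0
        have h1 : Complex.exp (-((Complex.arg (XX v0 v p (x k)) : ℝ) * Complex.I)) *
            XX v0 v p (x k) = (‖XX v0 v p (x k)‖ : ℂ) := by
          rw [Complex.exp_neg]
          have h2 := Complex.exp_ne_zero ((Complex.arg (XX v0 v p (x k)) : ℝ) * Complex.I)
          rw [inv_mul_eq_iff_eq_mul₀ h2, mul_comm]
          exact hpol
        rw [h1, Complex.ofReal_im]
      · exfalso
        apply hv
        have h1 : XX v0 ((‖XX v0 v p (x k)‖)⁻¹ • v) p (x k) =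
            Complex.exp ((Complex.arg (XX v0 v p (x k)) : ℝ) * Complex.I) := by
          have h2 : (‖XX v0 v p (x k)‖)⁻¹ • v = (((‖XX v0 v p (x k)‖)⁻¹ : ℝ) : ℂ) • v :=
            (Complex.coe_smul _ v).symm
          have h3 : (‖XX v0 v p (x k)‖ : ℂ) ≠ 0 := by exact_mod_cast ht.ne'
          rw [h2, XX_smul, Complex.ofReal_inv, inv_mul_eq_iff_eq_mul₀ h3]
          exact hpol
        refine crit_scale ht (pz_dir hd hcop hdeg ho hk hp hper hN ha hnf ?_ ?_)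
        · rw [h1]
          exact Complex.exp_ne_zero _
        · rw [h1]
          have h4 := hgen _ hb
          rwa [mul_one] at h4
  refine sub_of_ae (MeasureTheory.measure_mono_null hsub
    (MeasureTheory.measure_union_null
      (ker_null (fun v => XX v0 v p (x k)) (fun v w => XX_add v0 v w p (x k))
        (fun c v => XX_smul v0 v c p (x k)) ⟨v1, hv1⟩) ?_))
  rw [MeasureTheory.measure_biUnion_null_iff hbad]
  intro φ _
  exact line_null (fun v => XX v0 v p (x k)) (fun v w => XX_add v0 v w p (x k))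
    (fun c v => XX_smul v0 v c p (x k)) ⟨v1, hv1⟩ φ

end Pool.Agent.H35.PL
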