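import Pool.Agent.H35.PL.ParOne
import Pool.Agent.H35.PL.ParZero
import Pool.Agent.H35.PL.KapNe1
import Pool.Agent.H79.Par.PerFin
import Pool.Agent.H79.Par.Trans
import Pool.Agent.H79.Par.DirPar

/-!
# Module LandGood: type 4 critical points are good

PROOFS. `it_not_id`: otherwise all points of a neighbourhood of `x 0` satisfy `(Rf v0)^[n] z = z` (`rat_it` with
`orb_near` at `v0`), infinitely many, contradicting `per_finite` (H79/Par/PerFin; `Rf v0 = rat (pol v0.1) (pol v0.2)`).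
`land_good`: as in `rep_good` (header of H35/RL/RepGood.lean): the orbit of `c` is finite, `x j = it v0 j c`, `x m = z`,
`k = m + n ≥ 1`, `x k = z`, `x (k + n) = x k`, and `trD v0 n (x k) = 1` (`fix_trD` for the shifted orbit, multiplier `1`).
`per_dec` for the shifted orbit `y i = x (k + i)`: `n = p * m0`, `x (k + p) = x k`, distinct points. As in `dir_par`
(H79/Par/DirPar.lean, copy): `L = trD v0 p (x k)`, `L ^ m0 = 1` (`trD_mul`); `F u = it v0 n (x k + u) - x k` is analytic,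
`F 0 = 0`, derivative `1`, not the identity near `0` by `it_not_id`, so `normal_form` gives `N, a, kk`.
Case `L = 1`: apply the normal form to `it v0 p` instead (derivative `L = 1`, not the identity), `tt0` (Trans.lean) at
`p` and `par_zero_land`, `sub_c` (H79/Par/SubToC). Case `L ≠ 1`: `2 ≤ N` by `nf_comm` (as in `dir_par`), `tt1` gives
`hb`, `kap_ne1` (`n := p`; `‖L‖ = 1` since `L ^ m0 = 1`) gives `hκ`, `par_one`.
-/

set_option autoImplicit false

open Filter Topology Polynomial Metric Set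

namespace Pool.Agent.H35.PL

open Pool.Agent.H44.Fatou Pool.Agent.H32.BT Pool.Agent.H79.Eul Pool.Agent.H79.Par Pool.Agent.H35.RL

theorem it_not_id {d : ℕ} (hd : 2 ≤ d) {v0 : E d} (hcop : IsCoprime (pol v0.1) (pol v0.2))
    (hdeg : max (pol v0.1).natDegree (pol v0.2).natDegree = d) {x : ℕ → ℂ} {n : ℕ} (hn : 0 < n)
    (ho : Orb v0 x n) : ¬ ∀ᶠ u in 𝓝 (0 : ℂ), it v0 n (x 0 + u) - x 0 = u := by
  intro h
  have h1 : ∀ᶠ z in 𝓝 (x 0), it v0 n z = z := by
    have h2 : Tendsto (fun z : ℂ => z - x 0) (𝓝 (x 0)) (𝓝 0) := by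
      have h3 : Tendsto (fun z : ℂ => z - x 0) (𝓝 (x 0)) (𝓝 (x 0 - x 0)) :=
        (continuous_id.sub continuous_const).tendsto (x 0)
      rwa [sub_self] at h3
    filter_upwards [h2.eventually h] with z hz
    have h3 : x 0 + (z - x 0) = z := by ring
    rw [h3] at hz
    exact sub_left_injective hz
  have hnear : ∀ᶠ u : ℂ in 𝓝 (x 0), ∀ j < n, ev v0.2 (it v0 j u) ≠ 0 := by
    have hc : Tendsto (fun u : ℂ => (v0, u)) (𝓝 (x 0)) (𝓝 (v0, x 0)) :=
      (continuous_const.prodMk continuous_id).tendsto _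
    exact hc.eventually (orb_near ho)
  have h4 : {z : ℂ | (Rf v0)^[n] (z : OnePoint ℂ) = (z : OnePoint ℂ)} ∈ 𝓝 (x 0) := by
    filter_upwards [h1, hnear] with z hz1 hz2
    show (Rf v0)^[n] (z : OnePoint ℂ) = (z : OnePoint ℂ)
    rw [rat_it hz2, hz1]
  have h5 : {z : OnePoint ℂ | (rat (pol v0.1) (pol v0.2))^[n] z = z}.Finite :=
    per_finite hcop (by rw [hdeg]; exact hd) hn
  have h6 : {z : ℂ | (Rf v0)^[n] (z : OnePoint ℂ) = (z : OnePoint ℂ)}.Finite :=
    h5.preimage OnePoint.coe_injective.injOn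
  exact infinite_of_mem_nhds (x 0) h4 h6

theorem land_good {d : ℕ} (hd : 2 ≤ d) {v0 : E d} (h0 : Chart0 v0) {c z : ℂ} {n : ℕ}
    (hc : wv v0 c = 0) (h : Ty4 (Rf v0) (c : OnePoint ℂ) (z : OnePoint ℂ) n) : CGood v0 c := by
  obtain ⟨hcop, hdeg, -, hcrit⟩ := h0
  have hd1 : 1 ≤ max (pol v0.1).natDegree (pol v0.2).natDegree := by rw [hdeg]; omega
  have hcr : IsCrit (Rf v0) (c : OnePoint ℂ) := by
    apply crit_of_wr hcop hd1
    rw [← wv_cf (pol_deg _) (pol_deg _), cf_pol, cf_pol]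
    exact hc
  obtain ⟨ho, hit⟩ := orb_all (hcrit _ hcr)
  obtain ⟨x, hxdef⟩ : ∃ x : ℕ → ℂ, x = fun j => it v0 j c := ⟨_, rfl⟩
  rw [← hxdef] at ho
  have hit : ∀ j, (Rf v0)^[j] (c : OnePoint ℂ) = ((x j : ℂ) : OnePoint ℂ) := by
    rw [hxdef]
    exact hit
  have hx0 : x 0 = c := by rw [hxdef]; rfl
  obtain ⟨hn, hfix, m, hm⟩ := h
  have hxm : x m = z := by
    rw [hit] at hm
    exact OnePoint.coe_injective hm
  have hsh : ∀ j q, Orb v0 (fun i => x (j + i)) q := fun j q i hi => ho (j + i + 1) (j + i) (by omega)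
  obtain ⟨hmn, htr⟩ := fix_trD (hsh m n) (a := 1) (by
    show FixMult (Rf v0)^[n] (x (m + 0) : OnePoint ℂ) 1
    rw [add_zero, hxm]
    exact hfix)
  have hmn : x (m + n) = x m := hmn
  have htr : trD v0 n (x m) = 1 := htr
  obtain ⟨k, hk⟩ : ∃ k, k = m + n := ⟨_, rfl⟩
  have hk1 : 1 ≤ k := by omega
  have hxk : x k = x m := by rw [hk]; exact hmn
  have hkn : x (k + n) = x k := by
    rw [← para_shift ho k n, hxk, para_shift ho m n, hmn]
  have hmul : trD v0 n (x k) = 1 := by rw [hxk]; exact htr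
  obtain ⟨p, m0, hp, hm0, hnpm, hxp, hinj⟩ := per_dec hn (hsh k n) hkn
  have hxp : x (k + p) = x k := hxp
  subst hnpm
  have ho' : Orb v0 (fun i => x (k + i)) (p * m0) := hsh k _
  have hop : Orb v0 (fun i => x (k + i)) p := hsh k _
  have hLm : trD v0 p (x k) ^ m0 = 1 := by
    have h1 : trD v0 (p * m0) (x k) = trD v0 p (x k) ^ m0 :=
      trD_mul (x := fun i => x (k + i)) hop hxp
    rw [← h1]
    exact hmul
  have hFp0 : (fun u => it v0 p (x k + u) - x k) 0 = 0 := by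
    show it v0 p (x k + 0) - x k = 0
    rw [add_zero, para_shift ho, hxp, sub_self]
  by_cases hL : trD v0 p (x k) = 1
  · have hF1 : HasDerivAt (fun u => it v0 p (x k + u) - x k) 1 0 := by
      have h1 : HasDerivAt (fun u => it v0 p (x k + u) - x k) (trD v0 p (x k)) 0 :=
        g_der hop (x k)
      rwa [hL] at h1
    have hnid : ¬ ∀ᶠ u in 𝓝 (0 : ℂ), (fun u => it v0 p (x k + u) - x k) u = u :=
      it_not_id (x := fun i => x (k + i)) hd hcop hdeg hp hop
    obtain ⟨N, a, kk, hN, ha, hnf⟩ :=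
      normal_form (F := fun u => it v0 p (x k + u) - x k) (g_an hop (x k)) hFp0 hF1 hnid
    have hb : ∃ v, XX v0 v p (x k) ≠ 0 := tt0 hd hcop hdeg (fun i => x (k + i)) hp hxp hop hinj hL
    have h1 := par_zero_land hd hcop hdeg ho hk1 hp hxp hN ha hnf hb
    rw [hx0] at h1
    exact sub_c h1
  · have hF0 : (fun u => it v0 (p * m0) (x k + u) - x k) 0 = 0 := by
      show it v0 (p * m0) (x k + 0) - x k = 0
      rw [add_zero, para_shift ho, hkn, sub_self]
    have hF1 : HasDerivAt (fun u => it v0 (p * m0) (x k + u) - x k) 1 0 := by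
      have h1 : HasDerivAt (fun u => it v0 (p * m0) (x k + u) - x k) (trD v0 (p * m0) (x k)) 0 :=
        g_der ho' (x k)
      rwa [hmul] at h1
    have hnid : ¬ ∀ᶠ u in 𝓝 (0 : ℂ), (fun u => it v0 (p * m0) (x k + u) - x k) u = u :=
      it_not_id (x := fun i => x (k + i)) hd hcop hdeg hn ho'
    obtain ⟨N, a, kk, hN, ha, hnf⟩ :=
      normal_form (F := fun u => it v0 (p * m0) (x k + u) - x k) (g_an ho' (x k)) hF0 hF1 hnid
    have hL0 : trD v0 p (x k) ≠ 0 := by
      intro h0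
      rw [h0, zero_pow hm0.ne'] at hLm
      exact zero_ne_one hLm
    have hN2 : 2 ≤ N := by
      refine nf_comm (M := fun u => it v0 p (x k + u) - x k) hN ha hnf (g_an hop (x k)) hFp0
        (g_der hop (x k)) hL0 hL ?_
      refine Eventually.of_forall fun u => ?_
      show it v0 (p * m0) (x k + (it v0 p (x k + u) - x k)) - x k =
        it v0 p (x k + (it v0 (p * m0) (x k + u) - x k)) - x k
      rw [add_sub_cancel, add_sub_cancel, ← it_add, ← it_add, add_comm (p * m0) p]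
    have hb : ∃ v, deriv (XX v0 v (p * m0)) (x k) ≠ 0 :=
      tt1 hd hcop hdeg (fun i => x (k + i)) hn hkn ho' hmul (trD_second ho' hN2 hnf)
    have hwv : wv v0 (x 0) = 0 := by rw [hx0]; exact hc
    have hnorm : ‖trD v0 p (x k)‖ = 1 := by
      have h1 : ‖trD v0 p (x k)‖ ^ m0 = 1 := by rw [← norm_pow, hLm, norm_one]
      exact (pow_eq_one_iff_of_nonneg (norm_nonneg _) hm0.ne').1 h1
    have hκ : ∃ v, kap v0 v x k p ≠ 0 :=
      kap_ne1 hd hcop hdeg ho hk1 hp hxp hinj hwv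
        hnorm hL
    have h1 := par_one hd hcop hdeg ho hk1 hp hm0 hxp hL hN2 ha hnf hκ hb
    rwa [hx0] at h1

end Pool.Agent.H35.PL
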