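import Mathlib

/-!
# Module LineQ: distance of a point to a logarithmic spiral

PROOF. By contradiction, or directly: the function `s ↦ ‖q exp (-s b) - p‖` is continuous and positive; as
`s → ∞` it tends to `‖p‖ > 0` (`‖exp (-s b)‖ = exp (-s b.re)`), as `s → -∞` it is at least
`‖q‖ exp (-s b.re) - ‖p‖ → ∞`. So it is at least `‖p‖ / 2` outside a compact interval `Icc (-A) A`, and on the
interval it attains its positive minimum (`IsCompact.exists_isMinOn`).
-/

set_option autoImplicit false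

open Filter Topology Metric Set

namespace Pool.Agent.H35.PL

theorem line_q {q p b : ℂ} (hq : q ≠ 0) (hp : p ≠ 0) (hb : 0 < b.re)
    (h : ∀ s : ℝ, q * Complex.exp (-(s * b)) ≠ p) :
    ∃ δ : ℝ, 0 < δ ∧ ∀ s : ℝ, δ ≤ ‖q * Complex.exp (-(s * b)) - p‖ := by
  set f : ℝ → ℝ := fun s => ‖q * Complex.exp (-(s * b)) - p‖ with hf
  have hcont : Continuous f := by
    rw [hf]
    fun_prop
  have hp0 : 0 < ‖p‖ := norm_pos_iff.2 hp
  have hq0 : 0 < ‖q‖ := norm_pos_iff.2 hq
  have hn : ∀ s : ℝ, ‖q * Complex.exp (-(s * b))‖ = ‖q‖ * Real.exp (-(s * b.re)) := by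
    intro s
    rw [norm_mul, Complex.norm_exp]
    congr 2
    simp
  have h1 : Tendsto (fun s : ℝ => ‖q‖ * Real.exp (-(s * b.re))) atTop (𝓝 0) := by
    have h2 : Tendsto (fun s : ℝ => -(s * b.re)) atTop atBot :=
      tendsto_neg_atTop_atBot.comp (tendsto_id.atTop_mul_const hb)
    have h3 := (Real.tendsto_exp_atBot.comp h2).const_mul ‖q‖
    rw [mul_zero] at h3
    exact h3
  have h2 : Tendsto (fun s : ℝ => ‖q‖ * Real.exp (-(s * b.re))) atBot atTop := by
    have h2 : Tendsto (fun s : ℝ => -(s * b.re)) atBot atTop :=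
      tendsto_neg_atBot_atTop.comp (tendsto_id.atBot_mul_const hb)
    exact (Real.tendsto_exp_atTop.comp h2).const_mul_atTop hq0
  have h3 : ∀ᶠ s : ℝ in atTop, ‖p‖ / 2 ≤ f s := by
    filter_upwards [h1.eventually (gt_mem_nhds (half_pos hp0))] with s hs
    have h4 : ‖p‖ ≤ ‖q * Complex.exp (-(s * b))‖ + ‖q * Complex.exp (-(s * b)) - p‖ := by
      have := norm_sub_le (q * Complex.exp (-(s * b))) (q * Complex.exp (-(s * b)) - p)
      rwa [sub_sub_cancel] at this
    rw [hn] at h4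
    show ‖p‖ / 2 ≤ ‖q * Complex.exp (-(s * b)) - p‖
    linarith
  have h4 : ∀ᶠ s : ℝ in atBot, ‖p‖ / 2 ≤ f s := by
    filter_upwards [h2.eventually_ge_atTop (‖p‖ + ‖p‖ / 2)] with s hs
    have h4 : ‖q * Complex.exp (-(s * b))‖ ≤ ‖q * Complex.exp (-(s * b)) - p‖ + ‖p‖ := by
      have := norm_add_le (q * Complex.exp (-(s * b)) - p) p
      rwa [sub_add_cancel] at this
    rw [hn] at h4
    show ‖p‖ / 2 ≤ ‖q * Complex.exp (-(s * b)) - p‖
    linarith
  obtain ⟨A, hA⟩ := eventually_atTop.1 h3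
  obtain ⟨B, hB⟩ := eventually_atBot.1 h4
  have hne : (Icc (min A B) (max A B)).Nonempty := nonempty_Icc.2 min_le_max
  obtain ⟨x, -, hx⟩ := isCompact_Icc.exists_isMinOn hne hcont.continuousOn
  have hfx : 0 < f x := norm_pos_iff.2 (sub_ne_zero.2 (h x))
  refine ⟨min (f x) (‖p‖ / 2), lt_min hfx (half_pos hp0), fun s => ?_⟩
  show min (f x) (‖p‖ / 2) ≤ f s
  by_cases hs1 : A ≤ s
  · exact (min_le_right _ _).trans (hA s hs1)
  · by_cases hs2 : s ≤ B
    · exact (min_le_right _ _).trans (hB s hs2)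
    · refine (min_le_left _ _).trans (hx ⟨?_, ?_⟩)
      · exact (min_le_right _ _).trans (not_le.1 hs2).le
      · exact (not_le.1 hs1).le.trans (le_max_left _ _)

end Pool.Agent.H35.PL
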