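import Pool.Agent.H35.PL.SrcLand
import Pool.Agent.H35.PL.GermTwo
import Pool.Agent.H35.PL.GermOneB
import Pool.Agent.H35.PL.KapU
import Pool.Agent.H79.Par.CopNear
import Pool.Agent.H35.RL.PullAtt

/-!
# Module LocF: a critical orbit landing on a parabolic cycle (multiplier not 1), local statement

PROOF. Shifted orbit `x' i = x (k + i)`; `p * m0` steps close up (`x (k + p * j) = x k`, induction, `para_shift` in
H79/Par/ParaGood). `germ_one_b` gives `α, s`. Put `g y = y.1`, `T' = (E d × ℝ) × ℂ`, filter `l`; `Tendsto g l (flt v)`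
(`hl`, `tendsto_fst`, `inf_le_left`). `germ_comp` gives `s'` along `l`. `u0 y = it (pv v0 y.1) k y.2 - α (pv v0 y.1)`;
`u0 / h → kap` (`kap_u`, `mono_left hl`). First part: `snk_land`. Second part: `germ_two` with `α τ = α (pv v0 τ)`
(`hα` from `per_rate`: `(α (pv) - x k) / h` converges so it is bounded; `hfix`: `it w p (α w) = α w` implies the same for
`p * m0` steps by `it_add` and induction), composed with `g`; `β y = deriv (XX v0 y.1.1 (p * m0)) (x k)`, which tends to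
`deriv (XX v0 v (p * m0)) (x k)` (it is a linear function of the direction: `deriv_XX_add`, `deriv_XX_smul`, so continuous,
`LinearMap.continuous_of_finiteDimensional`). `src_land` gives `att (u0 y)`, i.e. `Att (Rf (pv)) (it (pv) k y.2)`; pull
back `k` steps: `pull_one` (H35/RL/PullAtt) with the denominators from `orb_near (ho k)` and coprimality from
`cop_near`.
-/

set_option autoImplicit false

open Filter Topology Polynomial Metric Set

namespace Pool.Agent.H35.PL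

open Pool.Agent.H44.Fatou Pool.Agent.H32.BT Pool.Agent.H79.Eul Pool.Agent.H79.Par Pool.Agent.H35.RL

/-- the orbit of the closed cycle -/
private theorem lf_mul {d : ℕ} {w : E d} {z : ℂ} {p : ℕ} (h : it w p z = z) (m : ℕ) :
    it w (p * m) z = z := by
  induction m with
  | zero => rfl
  | succ m ih => rw [Nat.mul_succ, it_add, h, ih]

/-- continuity of the derivative in the direction -/
private theorem lf_cont {d : ℕ} {v0 : E d} {x : ℕ → ℂ} {n : ℕ} (ho : Orb v0 x n) :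
    Continuous (fun w : E d => deriv (XX v0 w n) (x 0)) := by
  set L : E d →ₗ[ℂ] ℂ :=
    { toFun := fun w => deriv (XX v0 w n) (x 0)
      map_add' := fun w w' => deriv_XX_add ho w w'
      map_smul' := fun c w => by
        rw [deriv_XX_smul (x := x) (n := n) w c, RingHom.id_apply, smul_eq_mul] } with hL
  exact L.continuous_of_finiteDimensional

theorem loc_f {d : ℕ} (hd : 2 ≤ d) {v0 v : E d} (hcop : IsCoprime (pol v0.1) (pol v0.2))
    (hdeg : max (pol v0.1).natDegree (pol v0.2).natDegree = d) {x : ℕ → ℂ} {k p m0 N : ℕ} {a : ℂ}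
    {kk : ℂ → ℂ} (ho : ∀ j, Orb v0 x j) (hk : 1 ≤ k) (hp : 0 < p) (hm0 : 0 < m0)
    (hper : x (k + p) = x k) (hL : trD v0 p (x k) ≠ 1) (hN : 2 ≤ N) (ha : a ≠ 0)
    (hnf : NF (fun u => it v0 (p * m0) (x k + u) - x k) kk N a) (hκ : kap v0 v x k p ≠ 0)
    {l : Filter ((E d × ℝ) × ℂ)} (hl : l ≤ (flt v ×ˢ 𝓝 (x 0)) ⊓ 𝓟 (crs v0)) :
    ((deriv (XX v0 v (p * m0)) (x k)).re < 0 →
      ∀ᶠ y in l, Att (Rf (pv v0 y.1)) (y.2 : OnePoint ℂ)) ∧
    (0 < (deriv (XX v0 v (p * m0)) (x k)).re → ∀ (m : (E d × ℝ) × ℂ → ℕ) (qs : ℂ), qs ≠ 0 →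
      (∀ s : ℝ, qs * Complex.exp (-(s * deriv (XX v0 v (p * m0)) (x k))) ≠
        a / deriv (XX v0 v (p * m0)) (x k)) →
      Tendsto (fun y => (kap v0 v x k p ^ N * (y.1.2 : ℂ) ^ (N - 1))⁻¹ *
        Complex.exp (-((N : ℂ) * y.1.2 * deriv (XX v0 y.1.1 (p * m0)) (x k) * m y))) l (𝓝 qs) →
      ∀ᶠ y in l, Att (Rf (pv v0 y.1)) (y.2 : OnePoint ℂ)) := by
  -- the shifted orbit
  obtain ⟨x', hx'⟩ : ∃ x' : ℕ → ℂ, x' = fun i => x (k + i) := ⟨_, rfl⟩
  have hx0 : x k = x' 0 := by rw [hx']; rfl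
  have ho' : ∀ j, Orb v0 x' j := by
    intro j i hi
    rw [hx']
    exact ho (k + i + 1) (k + i) (by omega)
  have hxp : x' p = x' 0 := by
    rw [hx']
    exact hper
  have hfx : it v0 p (x' 0) = x' 0 := by rw [orb_it (ho' p) p le_rfl, hxp]
  have hxx : x' (p * m0) = x' 0 := by
    rw [← orb_it (ho' (p * m0)) (p * m0) le_rfl, lf_mul hfx m0]
  have hcn : ∀ᶠ w in 𝓝 v0, IsCoprime (pol w.1) (pol w.2) :=
    (cop_near hcop hdeg (by omega)).mono fun w hw => hw.1
  have hLx : trD v0 p (x' 0) ≠ 1 := by rw [← hx0]; exact hL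
  have hnf' : NF (fun u => it v0 (p * m0) (x' 0 + u) - x' 0) kk N a := by
    rw [← hx0]
    exact hnf
  obtain ⟨α, s, hα0, hαc, hαfix, hsh, hsF, hsatt⟩ :=
    germ_one_b (v := v) hp hm0 hcn (ho' (p * m0)) hxp hxx hLx hN hnf'
  have hl1 : l ≤ flt v ×ˢ 𝓝 (x 0) := hl.trans inf_le_left
  have hg : Tendsto (fun y : (E d × ℝ) × ℂ => y.1) l (flt v) := tendsto_fst.mono_left hl1
  obtain ⟨s', hs'h, hs'ep, hs'F, hs'att⟩ := germ_comp s hg
  -- the critical orbit
  have hu : Tendsto (fun y : (E d × ℝ) × ℂ => (it (pv v0 y.1) k y.2 - α (pv v0 y.1)) /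
      (s'.h y : ℂ)) l (𝓝 (kap v0 v x k p)) := by
    have h1 := (kap_u (v := v) hcop (by omega) hk ho hper hL (by rw [hx0]; exact hα0) hαc
      hαfix).mono_left hl
    refine h1.congr fun y => ?_
    rw [hs'h, hsh]
  -- pulling back
  have hden : ∀ᶠ y : (E d × ℝ) × ℂ in l, ∀ j < k, ev (pv v0 y.1).2 (it (pv v0 y.1) j y.2) ≠ 0 :=
    ((pv_lim2 v0 v (x 0)).mono_left hl1).eventually (orb_near (ho k))
  have hcl : ∀ᶠ y : (E d × ℝ) × ℂ in l, IsCoprime (pol (pv v0 y.1).1) (pol (pv v0 y.1).2) :=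
    hg.eventually ((pv_lim v0 v).eventually hcn)
  have hpull : (∀ᶠ y in l, s'.att y (it (pv v0 y.1) k y.2 - α (pv v0 y.1))) →
      ∀ᶠ y : (E d × ℝ) × ℂ in l, Att (Rf (pv v0 y.1)) (y.2 : OnePoint ℂ) := by
    intro h
    filter_upwards [h, hden, hcl] with y h1 h2 h3
    rw [hs'att, hsatt, add_sub_cancel] at h1
    exact pull_one h3 h2 h1
  rw [hx0]
  constructor
  · intro hneg
    exact hpull (snk_land hN hneg s' hu)
  · intro hpos m qs hqs hav hq
    -- the second order expansion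
    have hrate := per_rate (v := v) (ho' p) hxp hLx hα0 hαc hαfix
    obtain ⟨A, hA⟩ : ∃ A : ℝ, ∀ᶠ τ in flt v, ‖α (pv v0 τ) - x' 0‖ ≤ A * τ.2 := by
      refine ⟨‖XX v0 v p (x' 0) / (1 - trD v0 p (x' 0))‖ + 1, ?_⟩
      have h1 := hrate.norm.eventually (gt_mem_nhds (lt_add_one _))
      filter_upwards [h1, Pool.Agent.H79.Par.flt_pos v] with τ h2 h3
      rw [norm_div, Complex.norm_real, Real.norm_of_nonneg h3.le, div_lt_iff₀ h3] at h2
      exact h2.le
    have hfix : ∀ᶠ τ in flt v, it (pv v0 τ) (p * m0) (α (pv v0 τ)) = α (pv v0 τ) := by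
      filter_upwards [(pv_lim v0 v).eventually hαfix] with τ hτ
      exact lf_mul hτ m0
    obtain ⟨C, r, hr, hF⟩ := germ_two (ho' (p * m0)) hxx hN hnf' hA hfix
    have hF' : ∀ᶠ y in l, ∀ u : ℂ, ‖u‖ ≤ r →
        ‖s'.F y u - u * (1 + s'.h y * deriv (XX v0 y.1.1 (p * m0)) (x' 0) + a * u ^ N)‖ ≤
        C * ‖u‖ * (s'.h y ^ 2 + s'.h y * ‖u‖ + ‖u‖ ^ (N + 1)) := by
      filter_upwards [hg.eventually hF] with y hy u hu'
      rw [hs'F, hsF, hs'h, hsh]
      exact hy u hu'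
    have hβ : Tendsto (fun y : (E d × ℝ) × ℂ => deriv (XX v0 y.1.1 (p * m0)) (x' 0)) l
        (𝓝 (deriv (XX v0 v (p * m0)) (x' 0))) := by
      have h1 : Tendsto (fun y : (E d × ℝ) × ℂ => y.1.1) l (𝓝 v) :=
        (tendsto_fst (f := 𝓝 v) (g := 𝓝[>] (0 : ℝ))).comp hg
      have h2 := (lf_cont (ho' (p * m0))).tendsto v
      exact h2.comp h1

    refine hpull (src_land hN ha hpos hκ hqs hav s' hβ hr hF' hu (m := m) ?_)
    refine hq.congr fun y => ?_
    rw [hs'h, hsh]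

end Pool.Agent.H35.PL
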