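import Mathlib

/-!
# Module MLog: the number of steps is `O(log (1 / h) / h)`

PROOF. Taking norms in `hq` (`‖exp w‖ = exp w.re`): `(‖κ‖ ^ N h ^ (N - 1))⁻¹ exp (-N h (β τ).re m) → ‖qs‖ > 0`,
so eventually it is `≥ ‖qs‖ / 2`, i.e. `exp (N h (β τ).re m) ≤ 2 / (‖qs‖ ‖κ‖ ^ N h ^ (N - 1))`; logarithms:
`N h (β τ).re m ≤ K + (N - 1) log (1 / h)` and `(β τ).re ≥ b.re / 2`, so `h m ≤ K' + K'' log (1 / ep)`
(`h = ep ^ N`). Then `m ep ^ (N + 1) = (h m) ep ≤ ep (K' + K'' log (1 / ep)) → 0`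
(`Real.tendsto_log_mul_self_nhdsGT_zero` or a similar lemma).
-/

set_option autoImplicit false

open Filter Topology Metric Set

namespace Pool.Agent.H35.PL

theorem m_log {T : Type} {l : Filter T} {N : ℕ} (hN : 2 ≤ N) {b κ qs : ℂ} (hb : 0 < b.re)
    (hκ : κ ≠ 0) (hqs : qs ≠ 0) {h ep : T → ℝ} (hep : ∀ᶠ τ in l, 0 < ep τ)
    (hep0 : Tendsto ep l (𝓝 0)) (hh : ∀ᶠ τ in l, h τ = ep τ ^ N) {β : T → ℂ}
    (hβ : Tendsto β l (𝓝 b)) {m : T → ℕ}
    (hq : Tendsto (fun τ => (κ ^ N * (h τ : ℂ) ^ (N - 1))⁻¹ *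
      Complex.exp (-((N : ℂ) * h τ * β τ * m τ))) l (𝓝 qs)) :
    Tendsto (fun τ => (m τ : ℝ) * ep τ ^ (N + 1)) l (𝓝 0) := by
  have hqp : 0 < ‖qs‖ := norm_pos_iff.2 hqs
  have hκp : 0 < ‖κ‖ := norm_pos_iff.2 hκ
  have hNp : (0 : ℝ) < N := by
    have : 0 < N := by omega
    exact_mod_cast this
  have hc := hq.norm.eventually (lt_mem_nhds (half_lt_self hqp))
  have hre : ∀ᶠ τ in l, b.re / 2 < (β τ).re :=
    ((Complex.continuous_re.tendsto b).comp hβ).eventually (lt_mem_nhds (half_lt_self hb))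
  obtain ⟨K0, hK0⟩ : ∃ K0 : ℝ, K0 = -Real.log (‖qs‖ / 2 * ‖κ‖ ^ N) := ⟨_, rfl⟩
  have key : ∀ᶠ τ in l, (m τ : ℝ) * ep τ ^ (N + 1) ≤
      2 / (N * b.re) * (K0 * ep τ - (N - 1) * N * (ep τ * Real.log (ep τ))) := by
    filter_upwards [hc, hre, hep, hh] with τ h1 h2 h3 h4
    have h5 : 0 < h τ := by
      rw [h4]
      positivity
    have h6 : ((N : ℂ) * h τ * β τ * m τ) = ((N * h τ * m τ : ℝ) : ℂ) * β τ := by
      push_cast
      ring
    rw [h6, norm_mul, norm_inv, norm_mul, norm_pow, norm_pow, Complex.norm_exp, Complex.neg_re,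
      Complex.re_ofReal_mul, Complex.norm_of_nonneg h5.le] at h1
    have h7 : 0 < ‖κ‖ ^ N * h τ ^ (N - 1) := by positivity
    rw [inv_mul_eq_div, lt_div_iff₀ h7] at h1
    have h8 := Real.log_le_log (by positivity) h1.le
    rw [Real.log_exp, ← mul_assoc, Real.log_mul (by positivity) (by positivity), Real.log_pow] at h8
    have h9 : Real.log (h τ) = N * Real.log (ep τ) := by
      rw [h4, Real.log_pow]
    rw [h9] at h8
    have h10 : ((N - 1 : ℕ) : ℝ) = (N : ℝ) - 1 := by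
      rw [Nat.cast_sub (by omega)]
      simp
    rw [h10] at h8
    have h11 : (N : ℝ) * h τ * m τ * (b.re / 2) ≤ N * h τ * m τ * (β τ).re :=
      mul_le_mul_of_nonneg_left h2.le (by positivity)
    have h12 : (N : ℝ) * h τ * m τ * (b.re / 2) ≤ K0 - (N - 1) * N * Real.log (ep τ) := by
      rw [hK0]
      linarith
    have h13 : (m τ : ℝ) * ep τ ^ N ≤
        2 / (N * b.re) * (K0 - (N - 1) * N * Real.log (ep τ)) := by
      rw [h4] at h12
      have h14 : (m τ : ℝ) * ep τ ^ N = 2 / (N * b.re) *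
          ((N : ℝ) * ep τ ^ N * m τ * (b.re / 2)) := by
        field_simp
      rw [h14]
      exact mul_le_mul_of_nonneg_left h12 (by positivity)
    calc (m τ : ℝ) * ep τ ^ (N + 1) = (m τ : ℝ) * ep τ ^ N * ep τ := by ring
      _ ≤ 2 / (N * b.re) * (K0 - (N - 1) * N * Real.log (ep τ)) * ep τ :=
        mul_le_mul_of_nonneg_right h13 h3.le
      _ = _ := by ring
  have hlim : Tendsto (fun τ => 2 / (N * b.re) *
      (K0 * ep τ - (N - 1) * N * (ep τ * Real.log (ep τ)))) l (𝓝 0) := by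
    have h1 : Tendsto (fun τ => ep τ * Real.log (ep τ)) l (𝓝 0) := by
      have := (Real.continuous_mul_log.tendsto 0).comp hep0
      rw [zero_mul] at this
      exact this
    have h2 := ((hep0.const_mul K0).sub (h1.const_mul (((N : ℝ) - 1) * N))).const_mul
      (2 / (N * b.re))
    simpa using h2
  refine squeeze_zero' ?_ key hlim
  filter_upwards [hep] with τ h1
  positivity

end Pool.Agent.H35.PL
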