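import Pool.Agent.H35.PL.PhaseA
import Pool.Agent.H35.PL.EQ
import Pool.Agent.H35.RL.Cocyc
import Pool.Agent.H79.Par.GDefs
import Pool.Agent.H79.Par.CycNull
import Pool.Agent.H79.Par.KerNull

/-!
# Module ParOne: critical orbits landing on a parabolic cycle, multiplier not 1

PROOF. `δ` from `crit_close` at `c = x 0`. For almost every `v`: `kap v0 v x k p ≠ 0` (`ker_null`, H79/Par/KerNull, with
`kap_add`, `kap_smul`, `hκ`) and `(deriv (XX v0 v (p * m0)) (x k)).re ≠ 0` (`line_null`, H79/Par/CycNull, with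
`φ = -π / 2`: `(exp (-(φ I)) * L v).im = (I * L v).im = (L v).re`; linear by `deriv_XX_add`, `deriv_XX_smul`). `phase_a`
gives `RotGood bad v`, `eq_main` gives `volume (ball 0 1 ∩ bad h) → 0`, and this is `CGood` (for every `ε` the same `δ`;
`ENNReal.tendsto_nhds_zero`).
-/

set_option autoImplicit false

open Filter Topology Polynomial Metric Set

namespace Pool.Agent.H35.PL

open Pool.Agent.H44.Fatou Pool.Agent.H32.BT Pool.Agent.H79.Eul Pool.Agent.H79.Par Pool.Agent.H35.RL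

theorem par_one {d : ℕ} (hd : 2 ≤ d) {v0 : E d} (hcop : IsCoprime (pol v0.1) (pol v0.2))
    (hdeg : max (pol v0.1).natDegree (pol v0.2).natDegree = d) {x : ℕ → ℂ} {k p m0 N : ℕ} {a : ℂ}
    {kk : ℂ → ℂ} (ho : ∀ j, Orb v0 x j) (hk : 1 ≤ k) (hp : 0 < p) (hm0 : 0 < m0)
    (hper : x (k + p) = x k) (hL : trD v0 p (x k) ≠ 1) (hN : 2 ≤ N) (ha : a ≠ 0)
    (hnf : NF (fun u => it v0 (p * m0) (x k + u) - x k) kk N a)
    (hκ : ∃ v, kap v0 v x k p ≠ 0) (hb : ∃ v, deriv (XX v0 v (p * m0)) (x k) ≠ 0) :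
    CGood v0 (x 0) := by
  obtain ⟨δ, hδ, hcc⟩ := crit_close hcop (by rw [hdeg]; omega) (x 0)
  have hok : Orb v0 (fun i => x (k + i)) (p * m0) := by
    intro j _
    exact ho (k + j + 1) (k + j) (by omega)
  have h1 : ∀ᵐ v : E d ∂MeasureTheory.volume, kap v0 v x k p ≠ 0 := by
    rw [MeasureTheory.ae_iff]
    have h := ker_null (fun v : E d => kap v0 v x k p) (fun v w => kap_add v0 v w x k p)
      (fun c v => kap_smul v0 v c x k p) hκ
    simpa only [not_not, ne_eq] using h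
  have h2 : ∀ᵐ v : E d ∂MeasureTheory.volume, (deriv (XX v0 v (p * m0)) (x k)).re ≠ 0 := by
    rw [MeasureTheory.ae_iff]
    have h := line_null (fun v : E d => deriv (XX v0 v (p * m0)) (x k))
      (fun v w => deriv_XX_add hok v w) (fun c v => deriv_XX_smul (x := fun i => x (k + i)) v c)
      hb (-(Real.pi / 2))
    have he : Complex.exp (-(((-(Real.pi / 2) : ℝ) : ℂ) * Complex.I)) = Complex.I := by
      have e1 : -(((-(Real.pi / 2) : ℝ) : ℂ) * Complex.I) = (Real.pi : ℂ) / 2 * Complex.I := by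
        push_cast
        ring
      rw [e1, Complex.exp_pi_div_two_mul_I]
    rw [he] at h
    have e2 : ∀ z : ℂ, (Complex.I * z).im = z.re := fun z => by simp
    simp only [e2] at h
    simpa only [not_not, ne_eq] using h
  have H : ∀ᵐ v : E d ∂MeasureTheory.volume,
      RotGood (fun h => {w : E d | ¬ ∀ z ∈ ball (x 0) δ, wv (pv v0 (w, h)) z = 0 →
        Att (Rf (pv v0 (w, h))) (z : OnePoint ℂ)}) v := by
    filter_upwards [h1, h2] with v h1 h2
    exact phase_a hd hcop hdeg ho hk hp hm0 hper hL hN ha hnf h1 h2 hcc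
  have h3 := eq_main H
  intro ε hε
  exact ⟨δ, hδ, (ENNReal.tendsto_nhds_zero.1 h3) ε hε⟩

end Pool.Agent.H35.PL
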