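import Pool.Agent.H35.PL.EDefs

/-!
# Module PhaseLim: the limit of the phases

PROOF. Write `h` for `h τ`, `L = ll h = log (1 / h) → ∞` (`ll_lim`), `m = mf N b h`, `t = b.im / b.re`, so
`b = b.re (1 + t I)`. `h = exp (-L)`, so `(h : ℂ) ^ (N - 1) = exp (-(N - 1) L)` and the function is
`(κ ^ N)⁻¹ * exp ((N - 1) L - N h β m)`. From the floor: `N h m = (N - 1) L / b.re - ρ`, `0 ≤ ρ ≤ N h` (for `h` small
the argument of the floor is `≥ 0`), so `N h β m = β (N - 1) L / b.re + O(h)`. `hβ` and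
`exp (I s / L) = 1 + I s / L + O(1 / L ^ 2)` give `L β = L b + I s b + o(1)`. So the exponent is
`(N - 1) (L - (L b + I s b) / b.re) + o(1) = (N - 1) (-t L I - I s (1 + t I)) + o(1)
= -((N - 1) t L) I + (N - 1) s (t - I) + o(1)`. Continuity of `exp` and `hω`.
-/

set_option autoImplicit false

open Filter Topology Polynomial Metric Set

namespace Pool.Agent.H35.PL

open Pool.Agent.H44.Fatou Pool.Agent.H32.BT Pool.Agent.H79.Eul Pool.Agent.H79.Par Pool.Agent.H35.RL

/-- difference quotient of the exponential along `ll` -/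
theorem exp_quot {T : Type} {l : Filter T} {L : T → ℝ} (hL : Tendsto L l atTop) (s : ℝ) :
    Tendsto (fun τ => (L τ : ℂ) * (Complex.exp (((s / L τ : ℝ) : ℂ) * Complex.I) - 1)) l
      (𝓝 ((s : ℂ) * Complex.I)) := by
  have h1 : HasDerivAt (fun x : ℝ => Complex.exp (((s * x : ℝ) : ℂ) * Complex.I))
      ((s : ℂ) * Complex.I) 0 := by
    have h2 : HasDerivAt (fun x : ℝ => ((s * x : ℝ) : ℂ) * Complex.I) ((s : ℂ) * Complex.I) 0 := by
      have h3 : HasDerivAt (fun x : ℝ => s * x) s 0 := by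
        simpa using (hasDerivAt_id (0 : ℝ)).const_mul s
      exact (h3.ofReal_comp).mul_const Complex.I
    have h4 := h2.cexp
    simpa using h4
  have h2 : Tendsto (fun τ => (L τ)⁻¹) l (𝓝[≠] 0) := by
    have h3 : Tendsto (fun τ => (L τ)⁻¹) l (𝓝[>] 0) := tendsto_inv_atTop_nhdsGT_zero.comp hL
    exact h3.mono_right (nhdsWithin_mono _ fun x hx => ne_of_gt hx)
  have h3 := h1.tendsto_slope.comp h2
  refine h3.congr fun τ => ?_
  simp only [Function.comp, slope, vsub_eq_sub, sub_zero, inv_inv, mul_zero, Complex.ofReal_zero,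
    zero_mul, Complex.exp_zero, Complex.real_smul]
  rfl

/-- the number of steps -/
theorem mf_lim {T : Type} {l : Filter T} {N : ℕ} (hN : 1 ≤ N) {b : ℂ} (hb : 0 < b.re)
    {h : T → ℝ} (hh : Tendsto h l (𝓝[>] 0)) :
    Tendsto (fun τ => ((N : ℝ) - 1) * ll (h τ) / b.re - N * h τ * (mf N b (h τ) : ℕ)) l (𝓝 0) := by
  have hL : Tendsto (fun τ => ll (h τ)) l atTop := ll_lim.comp hh
  have hpos : ∀ᶠ τ in l, 0 < h τ := hh.eventually self_mem_nhdsWithin
  have h0 : Tendsto h l (𝓝 0) := hh.mono_right nhdsWithin_le_nhds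
  have hN' : (1 : ℝ) ≤ N := by exact_mod_cast hN
  have h1 : Tendsto (fun τ => (N : ℝ) * h τ) l (𝓝 0) := by
    have := h0.const_mul (N : ℝ)
    simpa using this
  refine squeeze_zero' ?_ ?_ h1
  · filter_upwards [hpos, hL.eventually_ge_atTop 0] with τ h2 h3
    have h4 : (0 : ℝ) < N * h τ := by positivity
    have h5 : ((mf N b (h τ) : ℕ) : ℝ) ≤ ((N : ℝ) - 1) * ll (h τ) / (N * h τ * b.re) :=
      Nat.floor_le (by
        apply div_nonneg (mul_nonneg (by linarith) h3)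
        positivity)
    have h6 := mul_le_mul_of_nonneg_left h5 h4.le
    have h7 : (N : ℝ) * h τ * (((N : ℝ) - 1) * ll (h τ) / (N * h τ * b.re)) =
        ((N : ℝ) - 1) * ll (h τ) / b.re := by
      field_simp
    rw [h7] at h6
    linarith
  · filter_upwards [hpos, hL.eventually_ge_atTop 0] with τ h2 h3
    have h4 : (0 : ℝ) < N * h τ := by positivity
    have h5 : ((N : ℝ) - 1) * ll (h τ) / (N * h τ * b.re) < ((mf N b (h τ) : ℕ) : ℝ) + 1 :=
      Nat.lt_floor_add_one _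
    have h6 := mul_lt_mul_of_pos_left h5 h4
    have h7 : (N : ℝ) * h τ * (((N : ℝ) - 1) * ll (h τ) / (N * h τ * b.re)) =
        ((N : ℝ) - 1) * ll (h τ) / b.re := by
      field_simp
    rw [h7] at h6
    linarith

theorem phase_lim {T : Type} {l : Filter T} {N : ℕ} (hN : 1 ≤ N) {b κ ω : ℂ} (hb : 0 < b.re)
    {h : T → ℝ} (hh : Tendsto h l (𝓝[>] 0))
    (hω : Tendsto (fun τ => Complex.exp
      (-(((((N : ℝ) - 1) * (b.im / b.re) * ll (h τ) : ℝ) : ℂ) * Complex.I))) l (𝓝 ω))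
    {β : T → ℂ} {s : ℝ}
    (hβ : Tendsto (fun τ => (ll (h τ) : ℂ) *
      (β τ - Complex.exp (((s / ll (h τ) : ℝ) : ℂ) * Complex.I) * b)) l (𝓝 0)) :
    Tendsto (fun τ => (κ ^ N * (h τ : ℂ) ^ (N - 1))⁻¹ *
        Complex.exp (-((N : ℂ) * h τ * β τ * (mf N b (h τ) : ℕ)))) l
      (𝓝 ((κ ^ N)⁻¹ * ω * Complex.exp (((((N : ℝ) - 1) * s : ℝ) : ℂ) *
        (((b.im / b.re : ℝ) : ℂ) - Complex.I)))) := by
  have hL : Tendsto (fun τ => ll (h τ)) l atTop := ll_lim.comp hh
  have hpos : ∀ᶠ τ in l, 0 < h τ := hh.eventually self_mem_nhdsWithin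
  have hA := exp_quot hL s
  have hρ := mf_lim hN hb hh
  have hLi : Tendsto (fun τ => ((ll (h τ) : ℝ) : ℂ)⁻¹) l (𝓝 0) := by
    have h1 : Tendsto (fun τ => ((ll (h τ))⁻¹ : ℝ)) l (𝓝 0) := tendsto_inv_atTop_zero.comp hL
    have h2 := (Complex.continuous_ofReal.tendsto 0).comp h1
    rw [Complex.ofReal_zero] at h2
    refine h2.congr fun τ => ?_
    simp
  -- `β` tends to `b`
  have hβb : Tendsto β l (𝓝 b) := by
    have h1 := (hLi.mul hβ).add ((hLi.mul hA).mul_const b)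
    rw [zero_mul, zero_mul, zero_mul, add_zero] at h1
    have h2 := h1.add_const b
    rw [zero_add] at h2
    refine h2.congr' ?_
    filter_upwards [hL.eventually_gt_atTop 0] with τ hτ
    have h3 : ((ll (h τ) : ℝ) : ℂ) ≠ 0 := by exact_mod_cast hτ.ne'
    field_simp
    ring
  have hbre : (b.re : ℂ) ≠ 0 := by exact_mod_cast hb.ne'
  have hbeq : b = b.re * (1 + ((b.im / b.re : ℝ) : ℂ) * Complex.I) := by
    push_cast
    rw [mul_add, mul_one, ← mul_assoc, mul_div_cancel₀ _ hbre]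
    exact (Complex.re_add_im b).symm
  set t : ℂ := ((b.im / b.re : ℝ) : ℂ) with ht
  have ht' : t = (b.im : ℂ) / b.re := by
    rw [ht]
    push_cast
    rfl
  -- the error in the exponent
  have hE : Tendsto (fun τ => -((N : ℂ) - 1) * ((ll (h τ) : ℂ) *
        (Complex.exp (((s / ll (h τ) : ℝ) : ℂ) * Complex.I) - 1) * b + (ll (h τ) : ℂ) *
      (β τ - Complex.exp (((s / ll (h τ) : ℝ) : ℂ) * Complex.I) * b)) / b.re +
      β τ * ((((N : ℝ) - 1) * ll (h τ) / b.re - N * h τ * (mf N b (h τ) : ℕ) : ℝ) : ℂ)) l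
      (𝓝 (((((N : ℝ) - 1) * s : ℝ) : ℂ) * (t - Complex.I))) := by
    have h1 := ((((hA.mul_const b).add hβ).const_mul (-((N : ℂ) - 1))).div_const (b.re : ℂ)).add
      (hβb.mul ((Complex.continuous_ofReal.tendsto 0).comp hρ))
    have h2 : -((N : ℂ) - 1) * ((s : ℂ) * Complex.I * b + 0) / b.re + b * ((0 : ℝ) : ℂ) =
        ((((N : ℝ) - 1) * s : ℝ) : ℂ) * (t - Complex.I) := by
      rw [Complex.ofReal_zero, mul_zero, add_zero, add_zero]
      have h3 : (s : ℂ) * Complex.I * b = (s : ℂ) * Complex.I * (1 + t * Complex.I) * b.re := by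
        conv_lhs => rw [hbeq]
        ring
      rw [h3]
      push_cast
      field_simp
      linear_combination (-(N : ℂ) * s * t + s * t) * Complex.I_sq
    rw [h2] at h1
    exact h1
  have h1 := (hω.mul (Complex.continuous_exp.tendsto _ |>.comp hE)).const_mul ((κ ^ N)⁻¹)
  rw [← mul_assoc] at h1
  refine h1.congr' ?_
  filter_upwards [hpos, hL.eventually_gt_atTop 0] with τ h2 h3
  have h4 : ((h τ : ℝ) : ℂ) ^ (N - 1) = (Complex.exp (((N : ℂ) - 1) * ll (h τ)))⁻¹ := by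
    have h5 : ((h τ : ℝ) : ℂ) = Complex.exp (-(ll (h τ) : ℂ)) := by
      rw [← Complex.ofReal_neg, ← Complex.ofReal_exp]
      congr 1
      unfold ll
      rw [Real.log_inv, neg_neg, Real.exp_log h2]
    rw [← Complex.exp_neg, h5, ← Complex.exp_nat_mul]
    congr 1
    rw [Nat.cast_sub hN]
    push_cast
    ring
  rw [mul_inv, h4, inv_inv]
  simp only [Function.comp]
  rw [mul_assoc ((κ ^ N)⁻¹), ← Complex.exp_add, ← Complex.exp_add]
  congr 2
  have h6 : (ll (h τ) : ℂ) * (Complex.exp (((s / ll (h τ) : ℝ) : ℂ) * Complex.I) - 1) * b +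
      (ll (h τ) : ℂ) * (β τ - Complex.exp (((s / ll (h τ) : ℝ) : ℂ) * Complex.I) * b) =
      (ll (h τ) : ℂ) * (β τ - b) := by ring
  have h7 : (ll (h τ) : ℂ) * (β τ - b) / b.re =
      (ll (h τ) : ℂ) * β τ / b.re - (ll (h τ) : ℂ) * (1 + t * Complex.I) := by
    have h5 : (b : ℂ) / b.re = 1 + t * Complex.I := by
      rw [div_eq_iff hbre, mul_comm]
      exact hbeq
    rw [mul_sub, sub_div, mul_div_assoc _ b, h5]
  rw [h6, mul_div_assoc, h7]
  push_cast
  rw [← ht']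
  ring

end Pool.Agent.H35.PL
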