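import Pool.Agent.H35.PL.LocF
import Pool.Agent.H35.PL.PhaseLim
import Pool.Agent.H35.PL.CxCount
import Pool.Agent.H35.PL.CritClose

/-!
# Module PhaseA: the hypothesis of the equidistribution theorem

PROOF. Let `B w = deriv (XX v0 w (p * m0)) (x k)`, a linear form (`deriv_XX_add`, `deriv_XX_smul`, orbit
`fun i => x (k + i)`), so continuous and `‖B w‖ ≤ K ‖w‖`; `b = B v`, `κ = kap v0 v x k p`. Let `h j → 0+`.
CASE `b.re > 0`. The numbers `exp (-((N - 1) (b.im / b.re) ll (h j)) I)` lie on the unit circle (compact): choose a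
subsequence `φ` along which they converge to `ω`, `‖ω‖ = 1`. `Cx` = the set of `cx_count` with `κ := (κ ^ N)⁻¹ * ω`,
`p := a / b`. Let `s ∈ Icc 0 1`, `s ∉ Cx`, `w j` with `ll • (w j - rt (h (φ j)) s v) → 0`, and suppose that not
eventually `w j ∉ bad`. Put `A = {j | w j ∈ bad (h (φ j))}`, `l0 = atTop ⊓ 𝓟 A`, a nontrivial filter (frequently). For `j ∈ A`
choose `z j ∈ ball (x 0) δ` with `wv (pv v0 (w j, h (φ j))) (z j) = 0` and `¬ Att`. Let `Y j = ((w j, h (φ j)), z j)` and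
`l = map Y l0`. `w j → v` (`ll → ∞` and `rt (h) s v → v`: `s / ll → 0`), `h (φ j) → 0+`, so `Y` tends to
`(flt v ×ˢ 𝓟 (closedBall (x 0) δ)) ⊓ 𝓟 (crs v0)` along `l0`, and by `hδ` `l ≤ (flt v ×ˢ 𝓝 (x 0)) ⊓ 𝓟 (crs v0)`. `phase_lim` along
`l` (`T = (E d × ℝ) × ℂ`, `h y = y.1.2`, `β y = B y.1.1`): `hβ`: `ll (B (w j) - exp (I s / ll) b) = B (ll • (w j - rt ..)) → 0`
(`B (rt h s v) = exp (I s / ll) B v`). So with `m y = mf N b y.1.2` and
`qs = (κ ^ N)⁻¹ ω exp ((N - 1) s (b.im / b.re - I)) ≠ 0` the hypotheses of the second part of `loc_f` hold (`s ∉ Cx`), so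
eventually along `l0` `Att` holds at `z j`: contradiction (`l0 ≠ ⊥`).
CASE `b.re < 0`: `φ = id`, `Cx = ∅`, the same argument with the first part of `loc_f`.
-/

set_option autoImplicit false

open Filter Topology Polynomial Metric Set

namespace Pool.Agent.H35.PL

open Pool.Agent.H44.Fatou Pool.Agent.H32.BT Pool.Agent.H79.Eul Pool.Agent.H79.Par Pool.Agent.H35.RL

private theorem pa_reduce {d : ℕ} {v0 v : E d} {x0 : ℂ} {δ : ℝ}
    (hδ : (flt v ×ˢ 𝓟 (closedBall x0 δ)) ⊓ 𝓟 (crs v0) ≤ (flt v ×ˢ 𝓝 x0) ⊓ 𝓟 (crs v0))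
    {h : ℕ → ℝ} (hh : Tendsto h atTop (𝓝[>] 0)) {w : ℕ → E d} (hw : Tendsto w atTop (𝓝 v))
    (H : ∀ (l0 : Filter ℕ), l0 ≤ atTop → ∀ z : ℕ → ℂ,
      map (fun j => (((w j, h j), z j) : (E d × ℝ) × ℂ)) l0 ≤ (flt v ×ˢ 𝓝 x0) ⊓ 𝓟 (crs v0) →
      ∀ᶠ j in l0, Att (Rf (pv v0 (w j, h j))) (z j : OnePoint ℂ)) :
    ∀ᶠ j in atTop, w j ∉ {w : E d | ¬ ∀ z ∈ ball x0 δ, wv (pv v0 (w, h j)) z = 0 →
      Att (Rf (pv v0 (w, h j))) (z : OnePoint ℂ)} := by
  by_contra hcon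
  obtain ⟨A, hA⟩ : ∃ A : Set ℕ, A = {j | w j ∈ {w : E d | ¬ ∀ z ∈ ball x0 δ,
      wv (pv v0 (w, h j)) z = 0 → Att (Rf (pv v0 (w, h j))) (z : OnePoint ℂ)}} := ⟨_, rfl⟩
  have hfreq : ∃ᶠ j in atTop, j ∈ A := by
    intro h1
    apply hcon
    filter_upwards [h1] with j hj
    rw [hA] at hj
    exact hj
  have hne : (atTop ⊓ 𝓟 A : Filter ℕ).NeBot := Filter.frequently_mem_iff_neBot.1 hfreq
  have hex : ∀ j ∈ A, ∃ z : ℂ, z ∈ ball x0 δ ∧ wv (pv v0 (w j, h j)) z = 0 ∧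
      ¬ Att (Rf (pv v0 (w j, h j))) (z : OnePoint ℂ) := by
    intro j hj
    rw [hA] at hj
    have hj' : ¬ ∀ z ∈ ball x0 δ, wv (pv v0 (w j, h j)) z = 0 →
      Att (Rf (pv v0 (w j, h j))) (z : OnePoint ℂ) := hj
    push Not at hj'
    exact hj'
  choose! z hz1 hz2 hz3 using hex
  have hAl : ∀ᶠ j in (atTop ⊓ 𝓟 A : Filter ℕ), j ∈ A :=
    Filter.Eventually.filter_mono inf_le_right (Filter.eventually_principal.2 fun _ hj => hj)
  have hY : Tendsto (fun j => (((w j, h j), z j) : (E d × ℝ) × ℂ)) (atTop ⊓ 𝓟 A)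
      ((flt v ×ˢ 𝓟 (closedBall x0 δ)) ⊓ 𝓟 (crs v0)) := by
    rw [Filter.tendsto_inf]
    constructor
    · refine Filter.Tendsto.prodMk ?_ ?_
      · exact (hw.mono_left inf_le_left).prodMk (hh.mono_left inf_le_left)
      · rw [Filter.tendsto_principal]
        filter_upwards [hAl] with j hj
        exact ball_subset_closedBall (hz1 j hj)
    · rw [Filter.tendsto_principal]
      filter_upwards [hAl] with j hj
      exact hz2 j hj
  have h1 := H (atTop ⊓ 𝓟 A) inf_le_left z (hY.trans hδ)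
  obtain ⟨j, hj1, hj2⟩ := (h1.and hAl).exists
  exact hz3 j hj2 hj1

private theorem pa_lim {d : ℕ} {v : E d} {h : ℕ → ℝ} (hh : Tendsto h atTop (𝓝[>] 0)) {s : ℝ}
    {w : ℕ → E d}
    (hw : Tendsto (fun j => ll (h j) • (w j - rt (h j) s v)) atTop (𝓝 0)) :
    Tendsto w atTop (𝓝 v) := by
  have hll : Tendsto (fun j => ll (h j)) atTop atTop := ll_lim.comp hh
  have hinv : Tendsto (fun j => (ll (h j))⁻¹) atTop (𝓝 0) := hll.inv_tendsto_atTop
  have h1 : Tendsto (fun j => (ll (h j))⁻¹ • (ll (h j) • (w j - rt (h j) s v))) atTop (𝓝 0) := by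
    have h2 := hinv.smul hw
    rw [smul_zero] at h2
    exact h2
  have h2 : Tendsto (fun j => w j - rt (h j) s v) atTop (𝓝 0) := by
    refine h1.congr' ?_
    filter_upwards [hll.eventually_gt_atTop 0] with j hj
    rw [smul_smul, inv_mul_cancel₀ hj.ne', one_smul]
  have h3 : Tendsto (fun j => rt (h j) s v) atTop (𝓝 v) := by
    have h4 : Tendsto (fun j => ((s / ll (h j) : ℝ) : ℂ) * Complex.I) atTop (𝓝 0) := by
      have h5 : Tendsto (fun j => s / ll (h j)) atTop (𝓝 0) := hll.const_div_atTop s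
      have h6 : Tendsto (fun j => ((s / ll (h j) : ℝ) : ℂ)) atTop (𝓝 ((0 : ℝ) : ℂ)) :=
        (Complex.continuous_ofReal.tendsto 0).comp h5
      have h7 := h6.mul_const Complex.I
      rw [Complex.ofReal_zero, zero_mul] at h7
      exact h7
    have h5 : Tendsto (fun j => Complex.exp (((s / ll (h j) : ℝ) : ℂ) * Complex.I)) atTop
        (𝓝 (Complex.exp 0)) := (Complex.continuous_exp.tendsto 0).comp h4
    rw [Complex.exp_zero] at h5
    have h6 := h5.smul_const v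
    rw [one_smul] at h6
    exact h6
  have h4 := h2.add h3
  rw [zero_add] at h4
  refine h4.congr fun j => ?_
  abel

theorem phase_a {d : ℕ} (hd : 2 ≤ d) {v0 v : E d} (hcop : IsCoprime (pol v0.1) (pol v0.2))
    (hdeg : max (pol v0.1).natDegree (pol v0.2).natDegree = d) {x : ℕ → ℂ} {k p m0 N : ℕ} {a : ℂ}
    {kk : ℂ → ℂ} (ho : ∀ j, Orb v0 x j) (hk : 1 ≤ k) (hp : 0 < p) (hm0 : 0 < m0)
    (hper : x (k + p) = x k) (hL : trD v0 p (x k) ≠ 1) (hN : 2 ≤ N) (ha : a ≠ 0)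
    (hnf : NF (fun u => it v0 (p * m0) (x k + u) - x k) kk N a) (hκ : kap v0 v x k p ≠ 0)
    (hb : (deriv (XX v0 v (p * m0)) (x k)).re ≠ 0) {δ : ℝ}
    (hδ : ∀ v : E d, (flt v ×ˢ 𝓟 (closedBall (x 0) δ)) ⊓ 𝓟 (crs v0) ≤
      (flt v ×ˢ 𝓝 (x 0)) ⊓ 𝓟 (crs v0)) :
    RotGood (fun h => {w : E d | ¬ ∀ z ∈ ball (x 0) δ, wv (pv v0 (w, h)) z = 0 →
      Att (Rf (pv v0 (w, h))) (z : OnePoint ℂ)}) v := by
  have hox : Orb v0 (fun i => x (k + i)) (p * m0) := fun i _ => ho (k + i + 1) (k + i) (by omega)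
  -- the linear form
  obtain ⟨B, hB⟩ : ∃ B : E d →ₗ[ℂ] ℂ, ∀ w, B w = deriv (XX v0 w (p * m0)) (x k) :=
    ⟨{ toFun := fun w => deriv (XX v0 w (p * m0)) (x k)
       map_add' := fun w w' => deriv_XX_add hox w w'
       map_smul' := fun c w => deriv_XX_smul (x := fun i => x (k + i)) w c }, fun _ => rfl⟩
  have hBc : Continuous B := LinearMap.continuous_of_finiteDimensional B
  obtain ⟨b, hbd⟩ : ∃ b : ℂ, b = deriv (XX v0 v (p * m0)) (x k) := ⟨_, rfl⟩
  rw [← hbd] at hb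
  intro h hh
  rcases lt_or_gt_of_ne hb with hbneg | hbpos
  · refine ⟨id, strictMono_id, ∅, Set.countable_empty, ?_⟩
    intro s _ _ w hw
    have hw' := pa_lim (v := v) hh (s := s) (w := w) hw
    refine pa_reduce (hδ v) hh hw' ?_
    intro l0 hl0 z hle
    have h1 := (loc_f hd hcop hdeg ho hk hp hm0 hper hL hN ha hnf hκ hle).1 (by
      rw [← hbd]
      exact hbneg)
    exact h1
  · -- subsequence
    obtain ⟨ω, hω, φ, hφ, hlim⟩ := (isCompact_sphere (0 : ℂ) 1).tendsto_subseq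
      (x := fun j => Complex.exp
        (-(((((N : ℝ) - 1) * (b.im / b.re) * ll (h j) : ℝ) : ℂ) * Complex.I))) (by
        intro j
        rw [mem_sphere_zero_iff_norm, Complex.norm_exp]
        simp)
    have hω0 : ω ≠ 0 := by
      intro h0
      rw [mem_sphere_zero_iff_norm, h0, norm_zero] at hω
      exact zero_ne_one hω
    have hb0 : b ≠ 0 := by
      intro h0
      rw [h0] at hbpos
      exact lt_irrefl _ hbpos
    have hκ1 : (kap v0 v x k p ^ N)⁻¹ * ω ≠ 0 := mul_ne_zero (inv_ne_zero (pow_ne_zero N hκ)) hω0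
    have hcx := cx_count hN (b := b) (κ := (kap v0 v x k p ^ N)⁻¹ * ω) (p := a / b) hbpos hκ1
      (div_ne_zero ha hb0)
    refine ⟨φ, hφ, _, hcx, ?_⟩
    intro s _ hs w hw
    have hhφ : Tendsto (fun j => h (φ j)) atTop (𝓝[>] 0) := hh.comp hφ.tendsto_atTop
    have hw' := pa_lim (v := v) hhφ (s := s) (w := w) hw
    have hβ : Tendsto (fun j => (ll (h (φ j)) : ℂ) *
        (deriv (XX v0 (w j) (p * m0)) (x k) -
          Complex.exp (((s / ll (h (φ j)) : ℝ) : ℂ) * Complex.I) * b)) atTop (𝓝 0) := by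
      have h1 : Tendsto (fun j => B (ll (h (φ j)) • (w j - rt (h (φ j)) s v))) atTop (𝓝 (B 0)) :=
        (hBc.tendsto 0).comp hw
      rw [map_zero] at h1
      refine h1.congr fun j => ?_
      have h2 : ll (h (φ j)) • (w j - rt (h (φ j)) s v) =
          ((ll (h (φ j)) : ℝ) : ℂ) • (w j - rt (h (φ j)) s v) := (Complex.coe_smul _ _).symm
      rw [h2, map_smul, map_sub, smul_eq_mul, hB (w j)]
      unfold rt
      rw [map_smul, smul_eq_mul, hB v, ← hbd]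
    refine pa_reduce (hδ v) hhφ hw' ?_
    intro l0 hl0 z hle
    have hqs : (kap v0 v x k p ^ N)⁻¹ * ω * Complex.exp (((((N : ℝ) - 1) * s : ℝ) : ℂ) *
        (((b.im / b.re : ℝ) : ℂ) - Complex.I)) ≠ 0 := mul_ne_zero hκ1 (Complex.exp_ne_zero _)
    have h1 := (loc_f hd hcop hdeg ho hk hp hm0 hper hL hN ha hnf hκ hle).2 (by
      rw [← hbd]
      exact hbpos) (fun y => mf N b y.1.2) _ hqs (by
      rw [← hbd]
      intro s' hs'
      exact hs ⟨s', hs'⟩) (by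
      rw [Filter.tendsto_map'_iff]
      have h2 := phase_lim (T := ℕ) (l := l0) (N := N) (by omega) (b := b) (κ := kap v0 v x k p)
        (ω := ω) hbpos (h := fun j => h (φ j)) (hhφ.mono_left hl0) (hlim.mono_left hl0)
        (β := fun j => deriv (XX v0 (w j) (p * m0)) (x k)) (s := s) (hβ.mono_left hl0)
      exact h2)
    exact h1

end Pool.Agent.H35.PL
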