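import Mathlib

/-!
# Module ProdQ: a perturbed geometric sequence

PROOF. Put `y i = q i * exp (i z)`. For `i < m`: `q (i + 1) = q i * (1 - z) + e i`, `‖e i‖ ≤ η ‖q i‖`, so
`y (i + 1) = y i * (1 + w i)` with `w i = (1 - z) exp z - 1 + (e i / q i) exp z` (if `q i = 0` then
`q (i + 1) = 0`, take `w i = 0`), `‖w i‖ ≤ ‖z‖ ^ 2 + 3 η ≤ 3 (‖z‖ ^ 2 + η)`: `‖(1 - z) exp z - 1‖ ≤ ‖z‖ ^ 2` for
`‖z‖ ≤ 1` (even `≤ 3 ‖z‖ ^ 2` is enough: `Complex.norm_exp_sub_one_sub_id_le` gives `exp z = 1 + z + ρ`,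
`‖ρ‖ ≤ ‖z‖ ^ 2`, so `(1 - z) exp z - 1 = - z ^ 2 + (1 - z) ρ`, norm `≤ 3 ‖z‖ ^ 2`) and `‖exp z‖ ≤ exp 1 ≤ 3`.
So `y i = q 0 * ∏ j ∈ range i, (1 + w j)` and `Finset.norm_prod_one_add_sub_one_le`:
`‖∏ (1 + w j) - 1‖ ≤ exp (∑ ‖w j‖) - 1`.
-/

set_option autoImplicit false

open Filter Topology Metric Set

namespace Pool.Agent.H35.PL

theorem prod_q {q : ℕ → ℂ} {z : ℂ} {η : ℝ} {m : ℕ} (hz : ‖z‖ ≤ 1) (hη : 0 ≤ η)
    (hq : ∀ i < m, ‖q (i + 1) - q i * (1 - z)‖ ≤ η * ‖q i‖) :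
    ∀ i ≤ m, ‖q i * Complex.exp (i * z) - q 0‖ ≤
      (Real.exp (i * (3 * (‖z‖ ^ 2 + η))) - 1) * ‖q 0‖ := by
  have hE0 : 0 ≤ 3 * (‖z‖ ^ 2 + η) := by positivity
  have hexp3 : ‖Complex.exp z‖ ≤ 3 := by
    have h1 := Complex.norm_exp_le_exp_norm z
    have h2 : Real.exp ‖z‖ ≤ Real.exp 1 := Real.exp_le_exp.2 hz
    have h3 := Real.exp_one_lt_d9
    linarith
  have hρ : ‖(1 - z) * Complex.exp z - 1‖ ≤ 3 * ‖z‖ ^ 2 := by
    have h1 := Complex.norm_exp_sub_one_sub_id_le hz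
    have h2 : (1 - z) * Complex.exp z - 1 = -z ^ 2 + (1 - z) * (Complex.exp z - 1 - z) := by ring
    have h3 : ‖1 - z‖ ≤ 2 := by
      have := norm_sub_le (1 : ℂ) z
      rw [norm_one] at this
      linarith
    rw [h2]
    calc ‖-z ^ 2 + (1 - z) * (Complex.exp z - 1 - z)‖
        ≤ ‖-z ^ 2‖ + ‖(1 - z) * (Complex.exp z - 1 - z)‖ := norm_add_le _ _
      _ ≤ ‖z‖ ^ 2 + 2 * ‖z‖ ^ 2 := by
          rw [norm_neg, norm_pow, norm_mul]
          gcongr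
      _ = 3 * ‖z‖ ^ 2 := by ring
  intro i
  induction i with
  | zero =>
    intro _
    simp
  | succ i ih =>
    intro hi
    have hi1 : i < m := hi
    have h1 := ih hi1.le
    have h2 := hq i hi1
    set E : ℝ := 3 * (‖z‖ ^ 2 + η) with hE
    set y : ℂ := q i * Complex.exp (i * z) with hy
    have h3 : q (i + 1) * Complex.exp ((i + 1 : ℕ) * z) - y =
        Complex.exp (i * z) * ((q (i + 1) - q i * (1 - z)) * Complex.exp z) +
          Complex.exp (i * z) * (q i * ((1 - z) * Complex.exp z - 1)) := by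
      have h4 : Complex.exp ((i + 1 : ℕ) * z) = Complex.exp (i * z) * Complex.exp z := by
        rw [← Complex.exp_add]
        congr 1
        push_cast
        ring
      rw [h4, hy]
      ring
    have hyn : ‖y‖ = ‖Complex.exp (i * z)‖ * ‖q i‖ := by rw [hy, norm_mul, mul_comm]
    have h5 : ‖q (i + 1) * Complex.exp ((i + 1 : ℕ) * z) - y‖ ≤ E * ‖y‖ := by
      rw [h3]
      refine (norm_add_le _ _).trans ?_
      rw [norm_mul, norm_mul, norm_mul, norm_mul, hyn]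
      have h6 : ‖q (i + 1) - q i * (1 - z)‖ * ‖Complex.exp z‖ ≤ η * ‖q i‖ * 3 :=
        mul_le_mul h2 hexp3 (norm_nonneg _) (by positivity)
      have h7 : ‖q i‖ * ‖(1 - z) * Complex.exp z - 1‖ ≤ ‖q i‖ * (3 * ‖z‖ ^ 2) :=
        mul_le_mul_of_nonneg_left hρ (norm_nonneg _)
      have h8 := norm_nonneg (Complex.exp (i * z))
      calc ‖Complex.exp (i * z)‖ * (‖q (i + 1) - q i * (1 - z)‖ * ‖Complex.exp z‖) +
            ‖Complex.exp (i * z)‖ * (‖q i‖ * ‖(1 - z) * Complex.exp z - 1‖)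
          ≤ ‖Complex.exp (i * z)‖ * (η * ‖q i‖ * 3) +
            ‖Complex.exp (i * z)‖ * (‖q i‖ * (3 * ‖z‖ ^ 2)) :=
              add_le_add (mul_le_mul_of_nonneg_left h6 h8) (mul_le_mul_of_nonneg_left h7 h8)
        _ = E * (‖Complex.exp (i * z)‖ * ‖q i‖) := by rw [hE]; ring
    have h9 : ‖y‖ ≤ Real.exp (i * E) * ‖q 0‖ := by
      have h10 : ‖y‖ ≤ ‖y - q 0‖ + ‖q 0‖ := by
        have := norm_add_le (y - q 0) (q 0)
        rwa [sub_add_cancel] at this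
      linarith
    have h11 : ‖q (i + 1) * Complex.exp ((i + 1 : ℕ) * z) - q 0‖ ≤ E * ‖y‖ + ‖y - q 0‖ := by
      have := norm_add_le (q (i + 1) * Complex.exp ((i + 1 : ℕ) * z) - y) (y - q 0)
      rw [sub_add_sub_cancel] at this
      linarith
    have h12 : Real.exp ((i + 1 : ℕ) * E) = Real.exp (i * E) * Real.exp E := by
      rw [← Real.exp_add]
      congr 1
      push_cast
      ring
    have h13 : 1 + E ≤ Real.exp E := by
      have := Real.add_one_le_exp E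
      linarith
    have h14 : E * ‖y‖ ≤ E * (Real.exp (i * E) * ‖q 0‖) := mul_le_mul_of_nonneg_left h9 hE0
    have h15 : Real.exp (i * E) * ‖q 0‖ * (1 + E) ≤ Real.exp (i * E) * ‖q 0‖ * Real.exp E :=
      mul_le_mul_of_nonneg_left h13 (by positivity)
    rw [h12]
    nlinarith [h1, h11, h14, h15]

end Pool.Agent.H35.PL
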