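import Pool.Agent.H35.PL.ProdQ
import Pool.Agent.H35.PL.LineQ

/-!
# Module QRun: the orbit in the variable `q`

PROOF. Let `δ0` be given by `line_q` for `qs, p, b`. Choose `S1 > 0` with
`‖qs‖ / 4 * exp (S1 b.re / 2) ≥ ‖p‖ + 2 δ0 + 1` and put
`δ = min (δ0 / 4) (‖qs‖ / 4 * exp (-(S + 1) (b.re + 1)))` (also `≤ 1`). Let `K τ = m τ + ⌈S / H τ⌉₊`,
`z τ = H τ * β τ`, and `E τ = exp (K τ * 3 (‖z‖ ^ 2 + η)) - 1 → 0` (`K ≤ m + S / H + 1`, `‖z‖ ^ 2 ≤ C H ^ 2`, use the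
hypothesis on `(m + 1 / H) (η + H ^ 2)`). For `τ` far we show by strong induction on `i ≤ K τ`:
`A i: δ ≤ ‖q i‖ ∧ δ ≤ ‖q i - P‖`. Assume `A j` for `j < i`; then the step estimate holds for `j < i`, `prod_q` (with
`m := i`) gives `q i = q 0 exp (-i z) (1 + θ)`, `‖θ‖ ≤ E τ ≤ 1 / 100`. Let `Q τ = q 0 * exp (-m z) → qs`, so
`q i = Q exp (-(i - m) z) (1 + θ)` (`i - m` an integer, `(i - m) z = s β`, `s = (i - m) H ∈ (-∞, S + H]`).
Case `s ≥ -S1`: `Q exp (-s β) (1 + θ)` is uniformly close to `qs exp (-s b)` for `-S1 ≤ s ≤ S + 1` (as `τ` is far: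
`‖Q - qs‖`, `‖β - b‖`, `E` small), so `‖q i - p‖ ≥ δ0 / 2`, `‖q i‖ ≥ ‖qs‖ / 2 * exp (-(S + 1) (b.re + 1 / 2)) ≥ δ`; and
`P → p`. Case `s < -S1`: `‖q i‖ ≥ ‖Q‖ exp (-s β.re) (1 - E) ≥ ‖qs‖ / 4 * exp (S1 b.re / 2) ≥ ‖p‖ + 2 δ0 + 1`, so both
hold. End: `i = K`: `s ≥ S`, `‖q K‖ ≤ ‖Q‖ exp (-s β.re) (1 + E) ≤ 2 ‖qs‖ exp (-S b.re / 2)`.
-/

set_option autoImplicit false

open Filter Topology Metric Set

namespace Pool.Agent.H35.PL

/-- uniform estimates near the limit spiral -/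
private theorem qr_geo {qs p b : ℂ} (hqs : qs ≠ 0) (hb : 0 < b.re) {δ0 : ℝ} (hδ0 : 0 < δ0)
    (hline : ∀ s : ℝ, δ0 ≤ ‖qs * Complex.exp (-(s * b)) - p‖) {S : ℝ} (hS : 0 < S) :
    ∃ δ ε : ℝ, 0 < δ ∧ 0 < ε ∧ ε ≤ 1 ∧ ∀ (Q β P : ℂ) (s : ℝ), ‖Q - qs‖ ≤ ε → ‖β - b‖ ≤ ε →
      ‖P - p‖ ≤ ε → s ≤ S + 1 →
      (δ ≤ ‖Q * Complex.exp (-(s * β))‖ ∧ δ ≤ ‖Q * Complex.exp (-(s * β)) - P‖) ∧
      (S ≤ s → ‖Q * Complex.exp (-(s * β))‖ ≤ 2 * ‖qs‖ * Real.exp (-(S * b.re / 2))) := by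
  have hq0 : 0 < ‖qs‖ := norm_pos_iff.mpr hqs
  obtain ⟨x, hx⟩ : ∃ x : ℝ, x = 2 * (‖p‖ + 2 * δ0 + 1) / ‖qs‖ := ⟨_, rfl⟩
  have hx0 : 0 < x := by rw [hx]; positivity
  obtain ⟨S1, hS1⟩ : ∃ S1 : ℝ, S1 = 2 * x / b.re := ⟨_, rfl⟩
  have hS10 : 0 < S1 := by rw [hS1]; positivity
  obtain ⟨M, hM⟩ : ∃ M : ℝ, M = S1 + S + 1 := ⟨_, rfl⟩
  have hM0 : 0 < M := by rw [hM]; positivity
  obtain ⟨D, hD⟩ : ∃ D : ℝ, D = Real.exp (M * (‖b‖ + 1)) + ‖qs‖ * (Real.exp (M * ‖b‖) * (2 * M)) :=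
    ⟨_, rfl⟩
  have hD0 : 0 < D := by rw [hD]; positivity
  obtain ⟨ε, hε⟩ : ∃ ε : ℝ, ε = min (min 1 (b.re / 2)) (min (min (‖qs‖ / 2) (δ0 / 4))
      (min (1 / M) (δ0 / (4 * D)))) := ⟨_, rfl⟩
  have hε0 : 0 < ε := by
    rw [hε]
    exact lt_min (lt_min one_pos (by positivity)) (lt_min (lt_min (by positivity) (by positivity))
      (lt_min (by positivity) (by positivity)))
  have hε1 : ε ≤ 1 := by rw [hε]; exact (min_le_left _ _).trans (min_le_left _ _)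
  have hε2 : ε ≤ b.re / 2 := by rw [hε]; exact (min_le_left _ _).trans (min_le_right _ _)
  have hε3 : ε ≤ ‖qs‖ / 2 := by
    rw [hε]; exact (min_le_right _ _).trans ((min_le_left _ _).trans (min_le_left _ _))
  have hε4 : ε ≤ δ0 / 4 := by
    rw [hε]; exact (min_le_right _ _).trans ((min_le_left _ _).trans (min_le_right _ _))
  have hε5 : ε ≤ 1 / M := by
    rw [hε]; exact (min_le_right _ _).trans ((min_le_right _ _).trans (min_le_left _ _))
  have hε6 : ε ≤ δ0 / (4 * D) := by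
    rw [hε]; exact (min_le_right _ _).trans ((min_le_right _ _).trans (min_le_right _ _))
  have hε5' : M * ε ≤ 1 := by
    rw [le_div_iff₀ hM0] at hε5
    linarith
  have hε6' : D * ε ≤ δ0 / 4 := by
    rw [le_div_iff₀ (by positivity)] at hε6
    linarith
  refine ⟨min (δ0 / 2) (‖qs‖ / 2 * Real.exp (-((S + 1) * (b.re + 1)))), ε,
    lt_min (by positivity) (by positivity), hε0, hε1, ?_⟩
  intro Q β P s hQ hβ hP hs
  have hre : |β.re - b.re| ≤ ε := by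
    have h1 := (Complex.abs_re_le_norm (β - b)).trans hβ
    rwa [Complex.sub_re] at h1
  obtain ⟨hre1, hre2⟩ := abs_le.mp hre
  have hβ0 : b.re / 2 ≤ β.re := by linarith
  have hβ1 : β.re ≤ b.re + 1 := by linarith
  have hβpos : 0 < β.re := by linarith
  have hQ1 : ‖qs‖ / 2 ≤ ‖Q‖ := by
    have h1 := norm_sub_norm_le qs Q
    rw [norm_sub_rev] at h1
    linarith
  have hQ2 : ‖Q‖ ≤ 3 / 2 * ‖qs‖ := by
    have h1 := norm_sub_norm_le Q qs
    linarith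
  have hexp : ‖Complex.exp (-(s * β))‖ = Real.exp (-(s * β.re)) := by
    rw [Complex.norm_exp]
    congr 1
    simp
  have hlow : ‖qs‖ / 2 * Real.exp (-((S + 1) * (b.re + 1))) ≤ ‖Q * Complex.exp (-(s * β))‖ := by
    rw [norm_mul, hexp]
    apply mul_le_mul hQ1 _ (Real.exp_pos _).le (norm_nonneg _)
    apply Real.exp_le_exp.mpr
    have h1 : s * β.re ≤ (S + 1) * β.re := mul_le_mul_of_nonneg_right hs hβpos.le
    have h2 : (S + 1) * β.re ≤ (S + 1) * (b.re + 1) := mul_le_mul_of_nonneg_left hβ1 (by positivity)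
    linarith
  refine ⟨⟨(min_le_right _ _).trans hlow, ?_⟩, ?_⟩
  · refine (min_le_left _ _).trans ?_
    rcases lt_or_ge s (-S1) with hs1 | hs1
    · have h1 : ‖p‖ + 2 * δ0 + 1 ≤ ‖Q * Complex.exp (-(s * β))‖ := by
        rw [norm_mul, hexp]
        have h2 : x ≤ Real.exp (-(s * β.re)) := by
          have h3 : x ≤ -(s * β.re) := by
            have h4 : S1 * (b.re / 2) ≤ (-s) * β.re :=
              mul_le_mul (by linarith) hβ0 (by positivity) (by linarith)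
            have h5 : S1 * (b.re / 2) = x := by
              rw [hS1]
              field_simp
            linarith
          have h6 := Real.add_one_le_exp (-(s * β.re))
          linarith
        calc ‖p‖ + 2 * δ0 + 1 = ‖qs‖ / 2 * x := by rw [hx]; field_simp
          _ ≤ ‖Q‖ * Real.exp (-(s * β.re)) := mul_le_mul hQ1 h2 hx0.le (norm_nonneg _)
      have h2 := norm_sub_norm_le (Q * Complex.exp (-(s * β))) P
      have h3 := norm_sub_norm_le P p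
      linarith
    · have hsM : |s| ≤ M := by
        rw [abs_le, hM]
        constructor <;> linarith
      have h1 : ‖Q * Complex.exp (-(s * β)) - qs * Complex.exp (-(s * b))‖ ≤ δ0 / 4 := by
        have h2 : Q * Complex.exp (-(s * β)) - qs * Complex.exp (-(s * b)) =
            (Q - qs) * Complex.exp (-(s * β)) +
            qs * (Complex.exp (-(s * b)) * (Complex.exp (-(s * (β - b))) - 1)) := by
          have h3 : Complex.exp (-(s * b)) * Complex.exp (-(s * (β - b))) = Complex.exp (-(s * β)) := by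
            rw [← Complex.exp_add]
            congr 1
            ring
          rw [mul_sub, h3]
          ring
        have h4 : ‖Complex.exp (-(s * β))‖ ≤ Real.exp (M * (‖b‖ + 1)) := by
          rw [hexp]
          apply Real.exp_le_exp.mpr
          have h5 : -(s * β.re) ≤ |s| * ‖β‖ := by
            calc -(s * β.re) ≤ |s * β.re| := neg_le_abs _
              _ = |s| * |β.re| := abs_mul _ _
              _ ≤ |s| * ‖β‖ := mul_le_mul_of_nonneg_left (Complex.abs_re_le_norm β) (abs_nonneg _)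
          have h6 : ‖β‖ ≤ ‖b‖ + 1 := by
            have h7 := norm_sub_norm_le β b
            linarith
          exact h5.trans (mul_le_mul hsM h6 (norm_nonneg _) hM0.le)
        have h5 : ‖Complex.exp (-(s * b))‖ ≤ Real.exp (M * ‖b‖) := by
          rw [Complex.norm_exp]
          apply Real.exp_le_exp.mpr
          have h6 : (-((s : ℂ) * b)).re = -(s * b.re) := by simp
          rw [h6]
          calc -(s * b.re) ≤ |s * b.re| := neg_le_abs _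
            _ = |s| * |b.re| := abs_mul _ _
            _ ≤ M * ‖b‖ := mul_le_mul hsM (Complex.abs_re_le_norm b) (abs_nonneg _) hM0.le
        have h6 : ‖-((s : ℂ) * (β - b))‖ ≤ M * ε := by
          rw [norm_neg, norm_mul, Complex.norm_real, Real.norm_eq_abs]
          exact mul_le_mul hsM hβ (norm_nonneg _) hM0.le
        have h7 : ‖Complex.exp (-(s * (β - b))) - 1‖ ≤ 2 * (M * ε) :=
          (Complex.norm_exp_sub_one_le (h6.trans hε5')).trans (by linarith)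
        rw [h2]
        calc ‖(Q - qs) * Complex.exp (-(s * β)) +
            qs * (Complex.exp (-(s * b)) * (Complex.exp (-(s * (β - b))) - 1))‖ ≤
            ‖Q - qs‖ * ‖Complex.exp (-(s * β))‖ +
            ‖qs‖ * (‖Complex.exp (-(s * b))‖ * ‖Complex.exp (-(s * (β - b))) - 1‖) := by
              refine (norm_add_le _ _).trans (le_of_eq ?_)
              rw [norm_mul, norm_mul, norm_mul]
          _ ≤ ε * Real.exp (M * (‖b‖ + 1)) + ‖qs‖ * (Real.exp (M * ‖b‖) * (2 * (M * ε))) := by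
              gcongr
          _ = D * ε := by rw [hD]; ring
          _ ≤ _ := hε6'
      have h2 := hline s
      have h3 : qs * Complex.exp (-(s * b)) - p = (Q * Complex.exp (-(s * β)) - P) -
          (Q * Complex.exp (-(s * β)) - qs * Complex.exp (-(s * b))) + (P - p) := by ring
      rw [h3] at h2
      have h4 := norm_add_le ((Q * Complex.exp (-(s * β)) - P) -
          (Q * Complex.exp (-(s * β)) - qs * Complex.exp (-(s * b)))) (P - p)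
      have h5 := norm_sub_le (Q * Complex.exp (-(s * β)) - P)
          (Q * Complex.exp (-(s * β)) - qs * Complex.exp (-(s * b)))
      linarith
  · intro hSs
    rw [norm_mul, hexp]
    have h1 : Real.exp (-(s * β.re)) ≤ Real.exp (-(S * b.re / 2)) := by
      apply Real.exp_le_exp.mpr
      have h2 : S * (b.re / 2) ≤ s * β.re := mul_le_mul hSs hβ0 (by positivity) (by linarith)
      linarith
    calc ‖Q‖ * Real.exp (-(s * β.re)) ≤ (3 / 2 * ‖qs‖) * Real.exp (-(S * b.re / 2)) :=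
          mul_le_mul hQ2 h1 (Real.exp_pos _).le (by positivity)
      _ ≤ _ := by
          apply mul_le_mul_of_nonneg_right _ (Real.exp_pos _).le
          linarith

theorem q_run {qs p b : ℂ} (hqs : qs ≠ 0) (hp : p ≠ 0) (hb : 0 < b.re)
    (hav : ∀ s : ℝ, qs * Complex.exp (-(s * b)) ≠ p) {S : ℝ} (hS : 0 < S) :
    ∃ δ : ℝ, 0 < δ ∧ ∀ {T : Type} {l : Filter T} {H η : T → ℝ} {β P : T → ℂ} {m : T → ℕ}
      {q : T → ℕ → ℂ}, (∀ᶠ τ in l, 0 < H τ) → Tendsto H l (𝓝 0) → Tendsto β l (𝓝 b) →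
      Tendsto P l (𝓝 p) → (∀ᶠ τ in l, 0 ≤ η τ) →
      Tendsto (fun τ => ((m τ : ℝ) + 1 / H τ) * (η τ + H τ ^ 2)) l (𝓝 0) →
      Tendsto (fun τ => q τ 0 * Complex.exp (-((m τ : ℂ) * H τ * β τ))) l (𝓝 qs) →
      (∀ᶠ τ in l, ∀ i < m τ + ⌈S / H τ⌉₊, δ ≤ ‖q τ i‖ → δ ≤ ‖q τ i - P τ‖ →
        ‖q τ (i + 1) - q τ i * (1 - H τ * β τ)‖ ≤ η τ * ‖q τ i‖) →
      ∀ᶠ τ in l, (∀ i ≤ m τ + ⌈S / H τ⌉₊, δ ≤ ‖q τ i‖ ∧ δ ≤ ‖q τ i - P τ‖) ∧
        ‖q τ (m τ + ⌈S / H τ⌉₊)‖ ≤ 2 * ‖qs‖ * Real.exp (-(S * b.re / 2)) := by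
  obtain ⟨δ0, hδ0, hline⟩ := line_q hqs hp hb hav
  obtain ⟨δ, ε, hδ, hε, hε1, hgeo⟩ := qr_geo hqs hb hδ0 hline hS
  refine ⟨δ, hδ, ?_⟩
  intro T l H η β P m q hH0 hH hβ hP hη0 hη hQ hstep
  obtain ⟨C, hC⟩ : ∃ C : ℝ, C = 3 * (S + 1) * ((‖b‖ + 1) ^ 2 + 1) := ⟨_, rfl⟩
  have hC0 : 0 < C := by rw [hC]; positivity
  -- the error of the product
  have hE : Tendsto (fun τ => (Real.exp (C * (((m τ : ℝ) + 1 / H τ) * (η τ + H τ ^ 2))) - 1) *
      (‖qs‖ + 1)) l (𝓝 0) := by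
    have h1 : Tendsto (fun τ => Real.exp (C * (((m τ : ℝ) + 1 / H τ) * (η τ + H τ ^ 2)))) l
        (𝓝 (Real.exp (C * 0))) := (Real.continuous_exp.tendsto _).comp (hη.const_mul C)
    have h2 := (h1.sub_const 1).mul_const (‖qs‖ + 1)
    rw [mul_zero, Real.exp_zero, sub_self, zero_mul] at h2
    exact h2
  have e1 : ∀ᶠ τ in l, H τ < 1 := hH.eventually_lt_const one_pos
  have e2 : ∀ᶠ τ in l, ‖β τ - b‖ < ε := by
    have h1 := (hβ.sub_const b).norm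
    rw [sub_self, norm_zero] at h1
    exact h1.eventually_lt_const hε
  have e3 : ∀ᶠ τ in l, ‖P τ - p‖ < ε := by
    have h1 := (hP.sub_const p).norm
    rw [sub_self, norm_zero] at h1
    exact h1.eventually_lt_const hε
  have e4 : ∀ᶠ τ in l, ‖q τ 0 * Complex.exp (-((m τ : ℂ) * H τ * β τ)) - qs‖ < ε / 2 := by
    have h1 := (hQ.sub_const qs).norm
    rw [sub_self, norm_zero] at h1
    exact h1.eventually_lt_const (half_pos hε)
  have e5 : ∀ᶠ τ in l, (Real.exp (C * (((m τ : ℝ) + 1 / H τ) * (η τ + H τ ^ 2))) - 1) *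
      (‖qs‖ + 1) < ε / 2 := hE.eventually_lt_const (half_pos hε)
  have e6 : ∀ᶠ τ in l, H τ * (‖b‖ + 1) < 1 := by
    have h1 := hH.mul_const (‖b‖ + 1)
    rw [zero_mul] at h1
    exact h1.eventually_lt_const one_pos
  filter_upwards [hH0, hη0, hstep, e1, e2, e3, e4, e5, e6] with τ hH0 hη0 hstep e1 e2 e3 e4 e5 e6
  obtain ⟨z, hz⟩ : ∃ z : ℂ, z = (H τ : ℂ) * β τ := ⟨_, rfl⟩
  obtain ⟨Q, hQd⟩ : ∃ Q : ℂ, Q = q τ 0 * Complex.exp (-((m τ : ℂ) * H τ * β τ)) := ⟨_, rfl⟩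
  rw [← hQd] at e4
  have hβn : ‖β τ‖ ≤ ‖b‖ + 1 := by
    have h1 := norm_sub_norm_le (β τ) b
    linarith
  have hzn : ‖z‖ ≤ H τ * (‖b‖ + 1) := by
    rw [hz, norm_mul, Complex.norm_real, Real.norm_eq_abs, abs_of_pos hH0]
    exact mul_le_mul_of_nonneg_left hβn hH0.le
  have hz1 : ‖z‖ ≤ 1 := hzn.trans e6.le
  have hz2 : ‖z‖ ^ 2 ≤ H τ ^ 2 * (‖b‖ + 1) ^ 2 := by
    rw [← mul_pow]
    exact pow_le_pow_left₀ (norm_nonneg _) hzn 2
  have hHinv : 1 ≤ 1 / H τ := by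
    rw [le_div_iff₀ hH0]
    linarith
  have hceil : ((⌈S / H τ⌉₊ : ℕ) : ℝ) ≤ S / H τ + 1 := (Nat.ceil_lt_add_one (by positivity)).le
  have hceil' : S / H τ ≤ ((⌈S / H τ⌉₊ : ℕ) : ℝ) := Nat.le_ceil _
  have hK : (((m τ + ⌈S / H τ⌉₊ : ℕ)) : ℝ) ≤ (S + 1) * ((m τ : ℝ) + 1 / H τ) := by
    push_cast
    have h1 : (0 : ℝ) ≤ m τ := Nat.cast_nonneg _
    have h2 : S / H τ = S * (1 / H τ) := by ring
    have h3 : 0 ≤ S * (m τ : ℝ) := by positivity
    have h4 : (S + 1) * ((m τ : ℝ) + 1 / H τ) = m τ + S * m τ + S * (1 / H τ) + 1 / H τ := by ring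
    rw [h4]
    linarith
  have hKE : ∀ i : ℕ, i ≤ m τ + ⌈S / H τ⌉₊ → (i : ℝ) * (3 * (‖z‖ ^ 2 + η τ)) ≤
      C * (((m τ : ℝ) + 1 / H τ) * (η τ + H τ ^ 2)) := by
    intro i hi
    have h1 : (i : ℝ) ≤ (S + 1) * ((m τ : ℝ) + 1 / H τ) := by
      have h2 : (i : ℝ) ≤ ((m τ + ⌈S / H τ⌉₊ : ℕ) : ℝ) := by exact_mod_cast hi
      exact h2.trans hK
    have h2 : ‖z‖ ^ 2 + η τ ≤ ((‖b‖ + 1) ^ 2 + 1) * (η τ + H τ ^ 2) := by
      have h3 : 0 ≤ (‖b‖ + 1) ^ 2 * η τ := by positivity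
      have h4 : 0 ≤ H τ ^ 2 := sq_nonneg _
      nlinarith
    have h3 : 0 ≤ (m τ : ℝ) + 1 / H τ := by positivity
    calc (i : ℝ) * (3 * (‖z‖ ^ 2 + η τ)) ≤ ((S + 1) * ((m τ : ℝ) + 1 / H τ)) *
          (3 * (((‖b‖ + 1) ^ 2 + 1) * (η τ + H τ ^ 2))) := by
          apply mul_le_mul h1 (by linarith) (by positivity) (by positivity)
      _ = _ := by rw [hC]; ring
  -- the representation
  have hrep : ∀ i : ℕ, i ≤ m τ + ⌈S / H τ⌉₊ → (∀ j < i, δ ≤ ‖q τ j‖ ∧ δ ≤ ‖q τ j - P τ‖) →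
      ∃ Q' : ℂ, ‖Q' - qs‖ ≤ ε ∧
        q τ i = Q' * Complex.exp (-(((((i : ℝ) - (m τ : ℝ)) * H τ : ℝ) : ℂ) * β τ)) := by
    intro i hi hA
    have h1 := prod_q (q := q τ) (z := z) (η := η τ) (m := i) hz1 hη0 (by
      intro j hj
      rw [hz]
      exact hstep j (by omega) (hA j hj).1 (hA j hj).2) i le_rfl
    have h2 : Real.exp (i * (3 * (‖z‖ ^ 2 + η τ))) - 1 ≤
        Real.exp (C * (((m τ : ℝ) + 1 / H τ) * (η τ + H τ ^ 2))) - 1 := by
      have := Real.exp_le_exp.mpr (hKE i hi)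
      linarith
    refine ⟨q τ i * Complex.exp (((((i : ℝ) - (m τ : ℝ)) * H τ : ℝ) : ℂ) * β τ), ?_, ?_⟩
    · have h3 : q τ i * Complex.exp (((((i : ℝ) - (m τ : ℝ)) * H τ : ℝ) : ℂ) * β τ) - Q =
          (q τ i * Complex.exp (i * z) - q τ 0) * Complex.exp (-((m τ : ℂ) * H τ * β τ)) := by
        have h4 : Complex.exp (((((i : ℝ) - (m τ : ℝ)) * H τ : ℝ) : ℂ) * β τ) =
            Complex.exp (i * z) * Complex.exp (-((m τ : ℂ) * H τ * β τ)) := by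
          rw [← Complex.exp_add, hz]
          congr 1
          push_cast
          ring
        rw [h4, hQd]
        ring
      have h5 : ‖q τ i * Complex.exp (((((i : ℝ) - (m τ : ℝ)) * H τ : ℝ) : ℂ) * β τ) - Q‖ ≤ ε / 2 := by
        rw [h3, norm_mul]
        have hQn : ‖Q‖ ≤ ‖qs‖ + 1 := by
          have h6 := norm_sub_norm_le Q qs
          linarith
        calc ‖q τ i * Complex.exp (i * z) - q τ 0‖ * ‖Complex.exp (-((m τ : ℂ) * H τ * β τ))‖ ≤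
            ((Real.exp (C * (((m τ : ℝ) + 1 / H τ) * (η τ + H τ ^ 2))) - 1) * ‖q τ 0‖) *
              ‖Complex.exp (-((m τ : ℂ) * H τ * β τ))‖ := by
              apply mul_le_mul_of_nonneg_right _ (norm_nonneg _)
              exact h1.trans (mul_le_mul_of_nonneg_right h2 (norm_nonneg _))
          _ = (Real.exp (C * (((m τ : ℝ) + 1 / H τ) * (η τ + H τ ^ 2))) - 1) * ‖Q‖ := by
              rw [hQd, norm_mul]
              ring
          _ ≤ (Real.exp (C * (((m τ : ℝ) + 1 / H τ) * (η τ + H τ ^ 2))) - 1) * (‖qs‖ + 1) := by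
              apply mul_le_mul_of_nonneg_left hQn
              have h6 : 0 ≤ C * (((m τ : ℝ) + 1 / H τ) * (η τ + H τ ^ 2)) := by positivity
              have h7 := Real.one_le_exp h6
              linarith
          _ ≤ _ := e5.le
      have h6 : q τ i * Complex.exp (((((i : ℝ) - (m τ : ℝ)) * H τ : ℝ) : ℂ) * β τ) - qs =
          (q τ i * Complex.exp (((((i : ℝ) - (m τ : ℝ)) * H τ : ℝ) : ℂ) * β τ) - Q) + (Q - qs) := by
        ring
      rw [h6]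
      refine (norm_add_le _ _).trans ?_
      linarith
    · rw [mul_assoc, ← Complex.exp_add, add_neg_cancel, Complex.exp_zero, mul_one]
  have hsle : ∀ i : ℕ, i ≤ m τ + ⌈S / H τ⌉₊ → ((i : ℝ) - (m τ : ℝ)) * H τ ≤ S + 1 := by
    intro i hi
    have h1 : (i : ℝ) ≤ ((m τ + ⌈S / H τ⌉₊ : ℕ) : ℝ) := by exact_mod_cast hi
    push_cast at h1
    have h2 : ((i : ℝ) - (m τ : ℝ)) ≤ S / H τ + 1 := by linarith
    have h3 : (S / H τ + 1) * H τ = S + H τ := by field_simp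
    have h4 := mul_le_mul_of_nonneg_right h2 hH0.le
    linarith
  have hA : ∀ i : ℕ, i ≤ m τ + ⌈S / H τ⌉₊ → δ ≤ ‖q τ i‖ ∧ δ ≤ ‖q τ i - P τ‖ := by
    intro i
    induction i using Nat.strong_induction_on with
    | _ i ih =>
      intro hi
      obtain ⟨Q', hQ', hqi⟩ := hrep i hi (fun j hj => ih j hj (by omega))
      have h1 := (hgeo Q' (β τ) (P τ) (((i : ℝ) - (m τ : ℝ)) * H τ) hQ' e2.le e3.le (hsle i hi)).1
      rw [← hqi] at h1
      exact h1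
  refine ⟨hA, ?_⟩
  obtain ⟨Q', hQ', hqi⟩ := hrep (m τ + ⌈S / H τ⌉₊) le_rfl (fun j hj => hA j hj.le)
  have h1 := (hgeo Q' (β τ) (P τ) ((((m τ + ⌈S / H τ⌉₊ : ℕ) : ℝ) - (m τ : ℝ)) * H τ) hQ' e2.le e3.le
    (hsle _ le_rfl)).2
  rw [← hqi] at h1
  apply h1
  push_cast
  have h2 : ((m τ : ℝ) + (⌈S / H τ⌉₊ : ℝ) - (m τ : ℝ)) = (⌈S / H τ⌉₊ : ℝ) := by ring
  rw [h2]
  have h3 := mul_le_mul_of_nonneg_right hceil' hH0.le
  rwa [div_mul_cancel₀ _ hH0.ne'] at h3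

end Pool.Agent.H35.PL
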