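import Mathlib

/-!
# Module RootN: if `z ^ N` is close to `w` then `z` is close to an `N`-th root of `w`

PROOF. `ε = ρ ^ N`. The polynomial `X ^ N - C w` is monic and splits over `ℂ`: `z ^ N - w = ∏ (z - s)` over the
multiset of its `N` roots (`IsAlgClosed.splits`, `Polynomial.eq_prod_roots_of_splits_id` and evaluation; card of the
roots `= N`). If all `‖z - s‖ ≥ ρ` then `‖z ^ N - w‖ ≥ ρ ^ N`.
-/

set_option autoImplicit false

open Filter Topology Metric Set

namespace Pool.Agent.H35.PL

theorem root_near_aux {ρ : ℝ} (hρ : 0 < ρ) (g : ℂ → ℝ) (S : Multiset ℂ) :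
    (∀ a ∈ S, ρ ≤ g a) → ρ ^ S.card ≤ (S.map g).prod := by
  induction S using Multiset.induction_on with
  | empty => intro _; simp
  | cons a S ih =>
    intro h
    have h1 := ih (fun b hb => h b (Multiset.mem_cons_of_mem hb))
    have h2 := h a (Multiset.mem_cons_self a S)
    rw [Multiset.card_cons, Multiset.map_cons, Multiset.prod_cons, pow_succ, mul_comm]
    exact mul_le_mul h2 h1 (by positivity) (hρ.le.trans h2)

theorem root_near {N : ℕ} (hN : 1 ≤ N) (w : ℂ) {ρ : ℝ} (hρ : 0 < ρ) :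
    ∃ ε : ℝ, 0 < ε ∧ ∀ z : ℂ, ‖z ^ N - w‖ < ε → ∃ s : ℂ, s ^ N = w ∧ ‖z - s‖ < ρ := by
  refine ⟨ρ ^ N, by positivity, fun z hz => ?_⟩
  by_contra hcon
  have hcon' : ∀ s : ℂ, s ^ N = w → ρ ≤ ‖z - s‖ := by
    intro s hs
    by_contra h
    exact hcon ⟨s, hs, not_le.1 h⟩
  obtain ⟨P, hPdef⟩ : ∃ P : Polynomial ℂ, P = Polynomial.X ^ N - Polynomial.C w := ⟨_, rfl⟩
  have hP : P.Monic := by
    rw [hPdef]
    exact Polynomial.monic_X_pow_sub_C w (by omega)
  have hdeg : P.natDegree = N := by
    rw [hPdef]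
    exact Polynomial.natDegree_X_pow_sub_C
  have hcard : P.roots.card = P.natDegree :=
    (Polynomial.splits_iff_card_roots.1 (IsAlgClosed.splits P))
  have hprod := Polynomial.prod_multiset_X_sub_C_of_monic_of_roots_card_eq hP hcard
  have heval : z ^ N - w = (P.roots.map (fun a => z - a)).prod := by
    have h1 := congrArg (Polynomial.eval z) hprod
    rw [Polynomial.eval_multiset_prod, Multiset.map_map] at h1
    have h2 : P.eval z = z ^ N - w := by
      rw [hPdef]
      simp
    rw [h2] at h1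
    rw [← h1]
    congr 1
    apply Multiset.map_congr rfl
    intro a _
    simp
  have hnorm : ‖z ^ N - w‖ = (P.roots.map (fun a => ‖z - a‖)).prod := by
    rw [heval]
    have h1 := map_multiset_prod (normHom : ℂ →*₀ ℝ) (P.roots.map (fun a => z - a))
    rw [Multiset.map_map] at h1
    exact h1
  have hroots : ∀ a ∈ P.roots, ρ ≤ ‖z - a‖ := by
    intro a ha
    apply hcon'
    have h1 := (Polynomial.mem_roots'.1 ha).2
    rw [hPdef, Polynomial.IsRoot.def] at h1
    simp at h1
    exact sub_eq_zero.1 h1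
  have h1 := root_near_aux hρ (fun a => ‖z - a‖) P.roots hroots
  rw [hcard, hdeg] at h1
  rw [hnorm] at hz
  exact absurd hz (not_lt.2 h1)

end Pool.Agent.H35.PL
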