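import Pool.Agent.H35.PL.EDefs

/-!
# Module RotAvg: averaging over rotations

PROOF. For fixed `s` the map `v ↦ rt h s v` is multiplication by a complex number `ζ` of modulus one: it maps `ball 0 1`
onto itself (`norm_smul`) and preserves the volume of `E d = (Fin (d + 1) → ℂ) × (Fin (d + 1) → ℂ)`: on `ℂ` it is a linear
isometry (`rotation`, `LinearIsometryEquiv.measurePreserving`), then `measurePreserving_pi` (or
`MeasureTheory.volume_preserving_pi`) and `MeasurePreserving.prod`. So
`volume {v ∈ ball 0 1 | rt h s v ∈ B} = volume (ball 0 1 ∩ B)` (`MeasurePreserving.measure_preimage`). Tonelli for the set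
`{(v, s) | v ∈ ball 0 1, s ∈ Icc 0 1, rt h s v ∈ B}`, which is measurable (`rt h` is continuous in `(s, v)`, `B` closed):
`Measure.prod_apply` and `Measure.prod_apply_symm`; `volume (Icc 0 1) = 1`.
-/

set_option autoImplicit false

open Filter Topology Polynomial Metric Set

namespace Pool.Agent.H35.PL

open Pool.Agent.H44.Fatou Pool.Agent.H32.BT Pool.Agent.H79.Eul Pool.Agent.H79.Par Pool.Agent.H35.RL

open MeasureTheory in
/-- multiplication by a complex number of modulus one preserves the volume -/
theorem smul_mp {d : ℕ} {ζ : ℂ} (hζ : ‖ζ‖ = 1) :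
    MeasurePreserving (fun v : E d => ζ • v) volume volume := by
  have h0 : MeasurePreserving (fun c : ℂ => ζ * c) volume volume := by
    have h1 := (rotation (⟨ζ, mem_sphere_zero_iff_norm.2 hζ⟩ : Circle)).measurePreserving
    exact h1
  have h1 : MeasurePreserving (fun (a : Fin (d + 1) → ℂ) (i : Fin (d + 1)) => ζ * a i)
      volume volume := volume_preserving_pi (fun _ => h0)
  exact h1.prod h1

theorem rt_norm {d : ℕ} (h s : ℝ) : ‖Complex.exp (((s / ll h : ℝ) : ℂ) * Complex.I)‖ = 1 :=
  Complex.norm_exp_ofReal_mul_I _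

open MeasureTheory in
theorem rot_set {d : ℕ} {B : Set (E d)} (hB : IsClosed B) (h : ℝ) :
    IsClosed {q : E d × ℝ | q.2 ∈ Icc (0 : ℝ) 1 ∧ rt h q.2 q.1 ∈ B} := by
  have h1 : Continuous (fun q : E d × ℝ => rt h q.2 q.1) := by
    unfold rt
    fun_prop
  exact (isClosed_Icc.preimage continuous_snd).inter (hB.preimage h1)

open MeasureTheory in
theorem rot_avg {d : ℕ} {B : Set (E d)} (hB : IsClosed B) (h : ℝ) :
    volume (ball (0 : E d) 1 ∩ B) =
      ∫⁻ v in ball (0 : E d) 1, volume {s : ℝ | s ∈ Icc (0 : ℝ) 1 ∧ rt h s v ∈ B} := by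
  set W : Set (E d × ℝ) := {q : E d × ℝ | q.2 ∈ Icc (0 : ℝ) 1 ∧ rt h q.2 q.1 ∈ B} with hW
  have hWm : MeasurableSet W := (rot_set hB h).measurableSet
  have h1 := Measure.prod_apply (μ := (volume : Measure (E d)).restrict (ball 0 1))
    (ν := (volume : Measure ℝ)) hWm
  have h2 := Measure.prod_apply_symm (μ := (volume : Measure (E d)).restrict (ball 0 1))
    (ν := (volume : Measure ℝ)) hWm
  have h3 : ∫⁻ v in ball (0 : E d) 1, volume {s : ℝ | s ∈ Icc (0 : ℝ) 1 ∧ rt h s v ∈ B} =
      ((volume : Measure (E d)).restrict (ball 0 1)).prod (volume : Measure ℝ) W := h1.symm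
  rw [h3, h2]
  have h4 : ∀ s : ℝ, ((volume : Measure (E d)).restrict (ball 0 1))
      ((fun v : E d => (v, s)) ⁻¹' W) =
      (Icc (0 : ℝ) 1).indicator (fun _ => volume (ball (0 : E d) 1 ∩ B)) s := by
    intro s
    by_cases hs : s ∈ Icc (0 : ℝ) 1
    · rw [indicator_of_mem hs]
      set ζ : ℂ := Complex.exp (((s / ll h : ℝ) : ℂ) * Complex.I) with hζ
      have hn : ‖ζ‖ = 1 := rt_norm (d := d) h s
      have h5 := (smul_mp (d := d) hn).measure_preimage
        (isOpen_ball.measurableSet.inter hB.measurableSet :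
          MeasurableSet (ball (0 : E d) 1 ∩ B)).nullMeasurableSet
      rw [← h5, Measure.restrict_apply (measurable_prodMk_right hWm)]
      congr 1
      ext v
      constructor
      · rintro ⟨hv1, hv2⟩
        refine ⟨?_, hv1.2⟩
        rw [mem_ball_zero_iff] at hv2 ⊢
        rw [norm_smul, hn, one_mul]
        exact hv2
      · rintro ⟨hv1, hv2⟩
        refine ⟨⟨hs, hv2⟩, ?_⟩
        rw [mem_ball_zero_iff] at hv1 ⊢
        rw [norm_smul, hn, one_mul] at hv1
        exact hv1
    · rw [indicator_of_notMem hs]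
      have h5 : (fun v : E d => (v, s)) ⁻¹' W = ∅ := by
        ext v
        constructor
        · intro hv
          exact absurd hv.1 hs
        · intro hv
          exact absurd hv (notMem_empty _)
      rw [h5, measure_empty]
  rw [lintegral_congr h4, lintegral_indicator measurableSet_Icc, lintegral_const,
    Measure.restrict_apply MeasurableSet.univ, univ_inter, Real.volume_Icc, sub_zero,
    ENNReal.ofReal_one, mul_one]

open MeasureTheory in
theorem rot_meas {d : ℕ} {B : Set (E d)} (hB : IsClosed B) (h : ℝ) :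
    Measurable (fun v : E d => volume {s : ℝ | s ∈ Icc (0 : ℝ) 1 ∧ rt h s v ∈ B}) :=
  measurable_measure_prodMk_left (rot_set hB h).measurableSet

end Pool.Agent.H35.PL
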