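import Pool.Agent.H35.PL.StepQ
import Pool.Agent.H35.PL.QRun
import Pool.Agent.H35.PL.MLog

/-!
# Module SrcExit: from the source to a sink

PROOF. `u τ i = (F τ)^[i] (u0 τ)`, `q τ i = h τ / (u τ i) ^ N + a / β τ`, `P τ = a / β τ → p = a / b`, `H τ = N h τ`.
Fix `S` with `2 ‖qs‖ exp (-S b.re / 2)` so small that `‖q‖ ≤ 2 ‖qs‖ exp (-S b.re / 2)` and `β` near `b` imply
`‖(q - a / β)⁻¹ + b / a‖ < ε` (continuity of `(q, β) ↦ (q - a / β)⁻¹` at `(0, b)`, value `-b / a`). Let `δ` be given by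
`q_run` for this `S`, and `C1, ep0` by `step_q` (`β0 = ‖b‖ / 2`, `β1 = 2 ‖b‖`, `C` replaced by `|C|`). `η τ = C1 ep τ ^ (N + 1)`.
Start: `q τ 0 exp (-m H β) → qs`: `h / u0 ^ N = (h / (u0 ^ N))`, `(u0 / h) ^ N → κ ^ N`, so
`h / u0 ^ N = (κ ^ N h ^ (N - 1))⁻¹ (1 + o(1))`, and `(a / β) exp (-m H β) → 0` because
`‖exp (-m H β)‖ = ‖(κ ^ N h ^ (N - 1))⁻¹ exp ..‖ ‖κ ^ N h ^ (N - 1)‖ → 0` (`N ≥ 2`). The rate condition
`(m + 1 / H) (η + H ^ 2) → 0`: `m_log` and `h = ep ^ N`, `2 N ≥ N + 1`, `η / H = C1 ep / N`.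
Step condition: if `δ ≤ ‖q i‖`, `δ ≤ ‖q i - P‖ = ‖h / u ^ N‖` then `u i ≠ 0` (else `h / 0 = 0`), `‖u i‖ ^ N ≤ h / δ`, so
`‖u i‖ < min r ε` for `τ` far; `hF` and `step_q` give the estimate. `q_run` gives the conclusion with
`M τ = m τ + ⌈S / H τ⌉₊`: all `‖u i‖ < ε`, and `(u M / ep) ^ N = u ^ N / h = (q M - P)⁻¹`.
-/

set_option autoImplicit false

open Filter Topology Metric Set

namespace Pool.Agent.H35.PL

theorem src_exit {T : Type} {l : Filter T} {N : ℕ} (hN : 2 ≤ N) {a b κ qs : ℂ} (ha : a ≠ 0)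
    (hb : 0 < b.re) (hκ : κ ≠ 0) (hqs : qs ≠ 0)
    (hav : ∀ s : ℝ, qs * Complex.exp (-(s * b)) ≠ a / b) {h ep : T → ℝ}
    (hep : ∀ᶠ τ in l, 0 < ep τ) (hep0 : Tendsto ep l (𝓝 0)) (hh : ∀ᶠ τ in l, h τ = ep τ ^ N)
    {β : T → ℂ} (hβ : Tendsto β l (𝓝 b)) {F : T → ℂ → ℂ} {C r : ℝ} (hr : 0 < r)
    (hF : ∀ᶠ τ in l, ∀ u : ℂ, ‖u‖ ≤ r → ‖F τ u - u * (1 + h τ * β τ + a * u ^ N)‖ ≤
      C * ‖u‖ * (h τ ^ 2 + h τ * ‖u‖ + ‖u‖ ^ (N + 1)))
    {u0 : T → ℂ} (hu : Tendsto (fun τ => u0 τ / (h τ : ℂ)) l (𝓝 κ)) {m : T → ℕ}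
    (hq : Tendsto (fun τ => (κ ^ N * (h τ : ℂ) ^ (N - 1))⁻¹ *
      Complex.exp (-((N : ℂ) * h τ * β τ * m τ))) l (𝓝 qs)) {ε : ℝ} (hε : 0 < ε) :
    ∃ M : T → ℕ, ∀ᶠ τ in l, (∀ i ≤ M τ, ‖(F τ)^[i] (u0 τ)‖ < ε) ∧
      ‖((F τ)^[M τ] (u0 τ) / ep τ) ^ N + b / a‖ < ε := by
  have hb0 : b ≠ 0 := by
    intro h0
    rw [h0] at hb
    simp at hb
  have hp : a / b ≠ 0 := div_ne_zero ha hb0
  have hN0 : (N : ℝ) ≠ 0 := by
    have : N ≠ 0 := by omega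
    exact_mod_cast this
  have hNp : (0 : ℝ) < N := by
    have : 0 < N := by omega
    exact_mod_cast this
  -- the final accuracy
  obtain ⟨ε2, hε2, hG⟩ : ∃ ε2 : ℝ, 0 < ε2 ∧ ∀ q β' : ℂ, ‖q‖ < ε2 → ‖β' - b‖ < ε2 →
      ‖(q - a / β')⁻¹ + b / a‖ < ε := by
    have hc : ContinuousAt (fun y : ℂ × ℂ => ‖(y.1 - a / y.2)⁻¹ + b / a‖) (0, b) := by
      have h1 : ContinuousAt (fun y : ℂ × ℂ => y.1 - a / y.2) (0, b) :=
        continuousAt_fst.sub (continuousAt_const.div continuousAt_snd hb0)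
      have h2 : (0 : ℂ) - a / b ≠ 0 := by
        rw [zero_sub]
        exact neg_ne_zero.mpr hp
      exact ((h1.inv₀ h2).add continuousAt_const).norm
    have hv : ‖((0 : ℂ) - a / b)⁻¹ + b / a‖ = 0 := by
      rw [zero_sub, inv_neg, inv_div, neg_add_cancel, norm_zero]
    have h3 := (Metric.continuousAt_iff.1 hc) ε hε
    obtain ⟨ε2, h4, h5⟩ := h3
    refine ⟨ε2, h4, fun q β' h6 h7 => ?_⟩
    have h8 := h5 (x := (q, β')) (by
      rw [Prod.dist_eq, dist_zero_right, dist_eq_norm]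
      exact max_lt h6 h7)
    simp only at h8
    rw [hv, dist_zero_right, norm_norm] at h8
    exact h8
  obtain ⟨S, hS, hSε⟩ : ∃ S : ℝ, 0 < S ∧ 2 * ‖qs‖ * Real.exp (-(S * b.re / 2)) < ε2 := by
    have h1 : Tendsto (fun S : ℝ => 2 * ‖qs‖ * Real.exp (-(S * b.re / 2))) atTop
        (𝓝 (2 * ‖qs‖ * 0)) := by
      refine Tendsto.const_mul _ (Real.tendsto_exp_neg_atTop_nhds_zero.comp ?_)
      exact (tendsto_id.atTop_mul_const hb).atTop_div_const two_pos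
    rw [mul_zero] at h1
    obtain ⟨S, h2, h3⟩ := ((h1.eventually (gt_mem_nhds hε2)).and (eventually_gt_atTop 0)).exists
    exact ⟨S, h3, h2⟩
  obtain ⟨δ, hδ, hrun⟩ := q_run hqs hp hb hav hS
  have hbn : 0 < ‖b‖ := norm_pos_iff.mpr hb0
  obtain ⟨C1, ep1, hC1, hep1, hstep⟩ := step_q hN a (β0 := ‖b‖ / 2) (β1 := 2 * ‖b‖)
    (half_pos hbn) (abs_nonneg C) hδ
  -- limits
  have hepN : Tendsto (fun τ => ep τ ^ N) l (𝓝 0) := by
    have := hep0.pow N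
    rwa [zero_pow (by omega)] at this
  have hh0 : Tendsto h l (𝓝 0) := hepN.congr' (hh.mono fun τ hτ => hτ.symm)
  have hhpos : ∀ᶠ τ in l, 0 < h τ := by
    filter_upwards [hh, hep] with τ h1 h2
    rw [h1]
    exact pow_pos h2 N
  have hh0C : Tendsto (fun τ => (h τ : ℂ)) l (𝓝 0) := by
    have := (Complex.continuous_ofReal.tendsto (0 : ℝ)).comp hh0
    rw [Complex.ofReal_zero] at this
    exact this
  have hβn1 : ∀ᶠ τ in l, ‖b‖ / 2 ≤ ‖β τ‖ :=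
    (hβ.norm.eventually (lt_mem_nhds (by linarith : ‖b‖ / 2 < ‖b‖))).mono fun τ hτ => hτ.le
  have hβn2 : ∀ᶠ τ in l, ‖β τ‖ ≤ 2 * ‖b‖ :=
    (hβ.norm.eventually (gt_mem_nhds (by linarith : ‖b‖ < 2 * ‖b‖))).mono fun τ hτ => hτ.le
  have hmlog := m_log hN hb hκ hqs hep hep0 hh hβ hq
  have hP : Tendsto (fun τ => a / β τ) l (𝓝 (a / b)) := tendsto_const_nhds.div hβ hb0
  -- smallness of the orbit
  have hsmall : ∀ᶠ τ in l, ∀ u : ℂ, δ ≤ ‖(h τ : ℂ) / u ^ N‖ → u ≠ 0 ∧ ‖u‖ < min r ε := by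
    have hmin : 0 < min r ε := lt_min hr hε
    have h1 : ∀ᶠ τ in l, h τ < δ * (min r ε) ^ N :=
      hh0.eventually (gt_mem_nhds (by positivity))
    filter_upwards [h1, hhpos] with τ h1 h2 u h3
    have hu0 : u ≠ 0 := by
      intro h0
      rw [h0, zero_pow (by omega), div_zero, norm_zero] at h3
      linarith
    refine ⟨hu0, ?_⟩
    have hun : 0 < ‖u‖ ^ N := pow_pos (norm_pos_iff.mpr hu0) N
    rw [norm_div, norm_pow, Complex.norm_real, Real.norm_of_nonneg h2.le, le_div_iff₀ hun] at h3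
    have h4 : δ * ‖u‖ ^ N < δ * (min r ε) ^ N := lt_of_le_of_lt h3 h1
    exact lt_of_pow_lt_pow_left₀ N hmin.le (lt_of_mul_lt_mul_left h4 hδ.le)
  -- the run
  have hfin := hrun (T := T) (l := l) (H := fun τ => N * h τ) (η := fun τ => C1 * ep τ ^ (N + 1))
    (β := β) (P := fun τ => a / β τ) (m := m)
    (q := fun τ i => (h τ : ℂ) / ((F τ)^[i] (u0 τ)) ^ N + a / β τ)
    (hhpos.mono fun τ hτ => mul_pos hNp hτ)
    (by
      have := hh0.const_mul (N : ℝ)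
      rwa [mul_zero] at this)
    hβ hP (hep.mono fun τ hτ => by positivity)
    (by
      -- the rate
      have e1 : Tendsto (fun τ => C1 * ((m τ : ℝ) * ep τ ^ (N + 1)) +
          (N : ℝ) ^ 2 * (((m τ : ℝ) * ep τ ^ (N + 1)) * ep τ ^ (N - 1)) + C1 / N * ep τ +
          N * h τ) l (𝓝 (C1 * 0 + (N : ℝ) ^ 2 * (0 * 0) + C1 / N * 0 + N * 0)) := by
        have e2 : Tendsto (fun τ => ep τ ^ (N - 1)) l (𝓝 0) := by
          have := hep0.pow (N - 1)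
          rwa [zero_pow (by omega)] at this
        exact (((hmlog.const_mul C1).add ((hmlog.mul e2).const_mul _)).add
          (hep0.const_mul _)).add (hh0.const_mul _)
      have e3 : (C1 * 0 + (N : ℝ) ^ 2 * (0 * 0) + C1 / N * 0 + N * 0) = 0 := by ring
      rw [e3] at e1
      refine e1.congr' ?_
      filter_upwards [hh, hep] with τ h1 h2
      have h3 : ep τ ^ N ≠ 0 := (pow_pos h2 N).ne'
      obtain ⟨n, rfl⟩ : ∃ n, N = n + 1 := ⟨N - 1, by omega⟩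
      simp only [Nat.add_sub_cancel]
      rw [h1]
      have h4 : ep τ ≠ 0 := h2.ne'
      field_simp
      ring)
    (by
      -- the start
      have e1 : Tendsto (fun τ => ((κ ^ N * (h τ : ℂ) ^ (N - 1))⁻¹ *
          Complex.exp (-((N : ℂ) * h τ * β τ * m τ))) * (κ ^ N / (u0 τ / (h τ : ℂ)) ^ N) +
          a / β τ * (((κ ^ N * (h τ : ℂ) ^ (N - 1))⁻¹ *
          Complex.exp (-((N : ℂ) * h τ * β τ * m τ))) * (κ ^ N * (h τ : ℂ) ^ (N - 1)))) l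
          (𝓝 (qs * (κ ^ N / κ ^ N) + a / b * (qs * (κ ^ N * 0 ^ (N - 1))))) := by
        have hκN : κ ^ N ≠ 0 := pow_ne_zero _ hκ
        exact (hq.mul (tendsto_const_nhds.div (hu.pow N) hκN)).add
          (hP.mul (hq.mul (tendsto_const_nhds.mul (hh0C.pow (N - 1)))))
      have hκN : κ ^ N ≠ 0 := pow_ne_zero _ hκ
      have e2 : qs * (κ ^ N / κ ^ N) + a / b * (qs * (κ ^ N * 0 ^ (N - 1))) = qs := by
        rw [div_self hκN, zero_pow (by omega)]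
        ring
      rw [e2] at e1
      refine e1.congr' ?_
      have hune : ∀ᶠ τ in l, u0 τ / (h τ : ℂ) ≠ 0 := hu.eventually_ne hκ
      filter_upwards [hhpos, hune] with τ h1 h2
      have h3 : (h τ : ℂ) ≠ 0 := by exact_mod_cast h1.ne'
      have h4 : u0 τ ≠ 0 := by
        intro h0
        rw [h0, zero_div] at h2
        exact h2 rfl
      have h5 : (κ ^ N * (h τ : ℂ) ^ (N - 1)) ≠ 0 := mul_ne_zero hκN (pow_ne_zero _ h3)
      have h6 : Complex.exp (-((m τ : ℂ) * ((N * h τ : ℝ) : ℂ) * β τ)) =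
          Complex.exp (-((N : ℂ) * h τ * β τ * m τ)) := by
        congr 1
        push_cast
        ring
      show _ = ((h τ : ℂ) / (u0 τ) ^ N + a / β τ) * Complex.exp (-((m τ : ℂ) * ((N * h τ : ℝ) : ℂ) * β τ))
      rw [h6, add_mul]
      generalize Complex.exp (-((N : ℂ) * h τ * β τ * m τ)) = X
      congr 1
      · obtain ⟨n, rfl⟩ : ∃ n, N = n + 1 := ⟨N - 1, by omega⟩
        simp only [Nat.add_sub_cancel]
        rw [div_pow, mul_inv]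
        field_simp
        ring
      · calc a / β τ * ((κ ^ N * (h τ : ℂ) ^ (N - 1))⁻¹ * X * (κ ^ N * (h τ : ℂ) ^ (N - 1))) =
            a / β τ * X * ((κ ^ N * (h τ : ℂ) ^ (N - 1))⁻¹ * (κ ^ N * (h τ : ℂ) ^ (N - 1))) := by
              ring
          _ = a / β τ * X := by rw [inv_mul_cancel₀ h5, mul_one])
    (by
      filter_upwards [hsmall, hF, hh, hep, hβn1, hβn2, hep0.eventually (gt_mem_nhds hep1), hhpos]
        with τ h1 h2 h3 h4 h5 h6 h7 h8 i _ h9 h10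
      have h11 : δ ≤ ‖(h τ : ℂ) / ((F τ)^[i] (u0 τ)) ^ N‖ := by
        simpa using h10
      obtain ⟨h12, h13⟩ := h1 _ h11
      have h14 := h2 _ (h13.trans_le (min_le_left _ _)).le
      have h15 := hstep (h τ) (ep τ) (β τ) ((F τ)^[i] (u0 τ)) (F τ ((F τ)^[i] (u0 τ))) h4 h7.le h3
        h5 h6 h12 (h14.trans (by
          have : 0 ≤ h τ ^ 2 + h τ * ‖(F τ)^[i] (u0 τ)‖ + ‖(F τ)^[i] (u0 τ)‖ ^ (N + 1) := by
            positivity
          have hc := le_abs_self C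
          gcongr)) h9 h11
      have h16 := h15.2
      simp only [Function.iterate_succ_apply']
      push_cast
      exact h16)
  refine ⟨fun τ => m τ + ⌈S / ((N : ℝ) * h τ)⌉₊, ?_⟩
  filter_upwards [hfin, hsmall, hh, hep, hhpos,
    hβ.eventually (Metric.ball_mem_nhds b hε2)] with τ h1 h2 h3 h4 h5 h6
  obtain ⟨h7, h8⟩ := h1
  refine ⟨fun i hi => ?_, ?_⟩
  · have h9 := (h7 i hi).2
    have h10 : δ ≤ ‖(h τ : ℂ) / ((F τ)^[i] (u0 τ)) ^ N‖ := by simpa using h9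
    exact ((h2 _ h10).2).trans_le (min_le_right _ _)
  · have h6 : ‖β τ - b‖ < ε2 := by
      rw [← dist_eq_norm]
      exact h6
    have h9 := hG _ (β τ) (h8.trans_lt hSε) h6
    have h10 := h7 _ le_rfl
    simp only [add_sub_cancel_right] at h9 h10
    have h11 := (h2 _ h10.2).1
    rw [inv_div] at h9
    have h12 : ((F τ)^[m τ + ⌈S / ((N : ℝ) * h τ)⌉₊] (u0 τ) / (ep τ : ℂ)) ^ N =
        ((F τ)^[m τ + ⌈S / ((N : ℝ) * h τ)⌉₊] (u0 τ)) ^ N / (h τ : ℂ) := by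
      rw [div_pow, h3]
      push_cast
      rfl
    rw [h12]
    exact h9

end Pool.Agent.H35.PL
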