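import Pool.Agent.H35.PL.SrcExit
import Pool.Agent.H35.PL.RootN
import Pool.Agent.H79.Par.SinkTrap
import Pool.Agent.H35.RL.RDefs

/-!
# Module SrcLand: landing near the source

PROOF. `s.h_ep` with `κ = 1`: `h = ep ^ N` (`ep > 0`). The sinks are the `z` with `z ^ N = -b / a`: then
`V z = z (a z ^ N + b) = 0` (`vp_eval`) and `V' z = (N + 1) a z ^ N + b = -N b` (`vp_deriv_eval`), real part `< 0`.
They are finitely many (roots of `X ^ N - C (-b / a)`; `z ≠ 0`), `sink_trap` (H79/Par/SinkTrap) gives for each of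
them `ρ`, take the minimum `ρ` and the intersection of the events. `root_near` for `w = -b / a` gives `ε1`. `s.step`:
there is `ε2` with: eventually, for all `u ∈ ball 0 ε2`, `att (F u) → att u`. Apply `src_exit` with
`ε = min ε1 ε2`: `u M / ep` is within `ρ` of a sink `z`, so `att (ep * (u M / ep)) = att (u M)`; downward induction
(`Function.iterate_succ_apply'`) gives `att (u 0)`.
-/

set_option autoImplicit false

open Filter Topology Polynomial Metric Set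

namespace Pool.Agent.H35.PL

open Pool.Agent.H44.Fatou Pool.Agent.H32.BT Pool.Agent.H79.Eul Pool.Agent.H79.Par Pool.Agent.H35.RL

theorem germ_h_ep {T : Type} {l : Filter T} {N : ℕ} {a b : ℂ} (s : Germ T l N 1 a b) :
    ∀ᶠ τ in l, s.h τ = s.ep τ ^ N := by
  filter_upwards [s.h_ep, s.ep_pos] with τ h1 h2
  rw [pow_one, pow_succ] at h1
  exact mul_right_cancel₀ h2.ne' h1

theorem src_land {T : Type} {l : Filter T} {N : ℕ} (hN : 2 ≤ N) {a b κ qs : ℂ} (ha : a ≠ 0)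
    (hb : 0 < b.re) (hκ : κ ≠ 0) (hqs : qs ≠ 0)
    (hav : ∀ s : ℝ, qs * Complex.exp (-(s * b)) ≠ a / b) (s : Germ T l N 1 a b)
    {β : T → ℂ} (hβ : Tendsto β l (𝓝 b)) {C r : ℝ} (hr : 0 < r)
    (hF : ∀ᶠ τ in l, ∀ u : ℂ, ‖u‖ ≤ r → ‖s.F τ u - u * (1 + s.h τ * β τ + a * u ^ N)‖ ≤
      C * ‖u‖ * (s.h τ ^ 2 + s.h τ * ‖u‖ + ‖u‖ ^ (N + 1)))
    {u0 : T → ℂ} (hu : Tendsto (fun τ => u0 τ / (s.h τ : ℂ)) l (𝓝 κ)) {m : T → ℕ}
    (hq : Tendsto (fun τ => (κ ^ N * (s.h τ : ℂ) ^ (N - 1))⁻¹ *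
      Complex.exp (-((N : ℂ) * s.h τ * β τ * m τ))) l (𝓝 qs)) :
    ∀ᶠ τ in l, s.att τ (u0 τ) := by
  classical
  have hN1 : 1 ≤ N := by omega
  have hNr : (0 : ℝ) < N := by
    have : 0 < N := by omega
    exact_mod_cast this
  -- the sinks
  have htrap : ∀ z : ℂ, ∃ ρ : ℝ, 0 < ρ ∧ (z ^ N = -(b / a) →
      ∀ᶠ τ in l, ∀ z' ∈ closedBall z ρ, s.att τ ((s.ep τ : ℂ) * z')) := by
    intro z
    by_cases hz : z ^ N = -(b / a)
    · have haz : a * z ^ N = -b := by
        rw [hz]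
        field_simp
      have h0 : (Vp N 1 a b).eval z = 0 := by
        rw [vp_eval, pow_one, pow_succ]
        linear_combination z * haz
      have h1 : ((derivative (Vp N 1 a b)).eval z).re < 0 := by
        rw [vp_deriv_eval le_rfl]
        have h2 : ((N : ℂ) + 1) * a * z ^ N + ((1 : ℕ) : ℂ) * b = ((-(N : ℝ) : ℝ) : ℂ) * b := by
          push_cast
          linear_combination ((N : ℂ) + 1) * haz
        rw [h2, Complex.re_ofReal_mul]
        nlinarith
      obtain ⟨ρ, h2, h3⟩ := sink_trap hN1 s h0 h1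
      exact ⟨ρ, h2, fun _ => h3⟩
    · exact ⟨1, one_pos, fun h => absurd h hz⟩
  choose ρ hρ hρt using htrap
  set Fs : Finset ℂ := (nthRoots N (-(b / a))).toFinset with hFs
  have hmem : ∀ z, z ∈ Fs ↔ z ^ N = -(b / a) := by
    intro z
    rw [hFs, Multiset.mem_toFinset, mem_nthRoots (by omega)]
  obtain ⟨ρ0, hρ0, hρ0'⟩ : ∃ ρ0 : ℝ, 0 < ρ0 ∧ ∀ z ∈ Fs, ρ0 ≤ ρ z := by
    have h1 : ∀ᶠ r in 𝓝[>] (0 : ℝ), ∀ z ∈ Fs, r ≤ ρ z := by
      rw [Filter.eventually_all_finset]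
      intro z _
      filter_upwards [Ioc_mem_nhdsGT (hρ z)] with r hr
      exact hr.2
    obtain ⟨r, h2, h3⟩ := (h1.and self_mem_nhdsWithin).exists
    exact ⟨r, h3, h2⟩
  have hall : ∀ᶠ τ in l, ∀ z ∈ Fs, ∀ z' ∈ closedBall z (ρ z), s.att τ ((s.ep τ : ℂ) * z') := by
    rw [Filter.eventually_all_finset]
    intro z hz
    exact hρt z ((hmem z).1 hz)
  obtain ⟨ε1, hε1, hroot⟩ := root_near hN1 (-(b / a)) hρ0
  -- the step
  have hstep := s.step
  rw [Filter.eventually_prod_iff] at hstep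
  obtain ⟨pa, hpa, pb, hpb, hab⟩ := hstep
  obtain ⟨ε2, hε2, hball⟩ := Metric.eventually_nhds_iff.1 hpb
  obtain ⟨M, hM⟩ := src_exit hN ha hb hκ hqs hav s.ep_pos s.ep_lim (germ_h_ep s) hβ hr hF hu hq
    (lt_min hε1 hε2)
  filter_upwards [hM, hall, hpa, s.ep_pos] with τ h1 h2 h3 h4
  obtain ⟨h5, h6⟩ := h1
  have hepC : (s.ep τ : ℂ) ≠ 0 := by exact_mod_cast h4.ne'
  obtain ⟨z, hz, hz2⟩ := hroot ((s.F τ)^[M τ] (u0 τ) / s.ep τ) (by
    rw [sub_neg_eq_add]
    exact h6.trans_le (min_le_left _ _))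
  have h7 : s.att τ ((s.F τ)^[M τ] (u0 τ)) := by
    have h8 := h2 z ((hmem z).2 hz) ((s.F τ)^[M τ] (u0 τ) / s.ep τ) (by
      rw [mem_closedBall, dist_eq_norm]
      exact hz2.le.trans (hρ0' z ((hmem z).2 hz)))
    rwa [mul_div_cancel₀ _ hepC] at h8
  have h8 : ∀ j ≤ M τ, s.att τ ((s.F τ)^[M τ - j] (u0 τ)) := by
    intro j
    induction j with
    | zero =>
      intro _
      exact h7
    | succ j ih =>
      intro hj
      have h9 := ih (by omega)
      have h10 : M τ - j = (M τ - (j + 1)) + 1 := by omega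
      rw [h10, Function.iterate_succ_apply'] at h9
      refine hab h3 (hball ?_) h9
      rw [dist_zero_right]
      exact (h5 _ (by omega)).trans_le (min_le_right _ _)
  have h9 := h8 (M τ) le_rfl
  rwa [Nat.sub_self, Function.iterate_zero, id] at h9

/-- the periodic point itself is a sink -/
theorem snk_land {T : Type} {l : Filter T} {N : ℕ} (hN : 2 ≤ N) {a b κ : ℂ}
    (hb : b.re < 0) (s : Germ T l N 1 a b) {u0 : T → ℂ}
    (hu : Tendsto (fun τ => u0 τ / (s.h τ : ℂ)) l (𝓝 κ)) : ∀ᶠ τ in l, s.att τ (u0 τ) := by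
  have h0 : (Vp N 1 a b).eval 0 = 0 := by
    rw [vp_eval]
    simp
  have h1 : ((derivative (Vp N 1 a b)).eval 0).re < 0 := by
    rw [vp_deriv_eval le_rfl, zero_pow (by omega)]
    simpa using hb
  obtain ⟨ρ, hρ, h2⟩ := sink_trap (by omega) s h0 h1
  have h3 : Tendsto (fun τ => u0 τ / (s.h τ : ℂ) * ((s.ep τ ^ (N - 1) : ℝ) : ℂ)) l (𝓝 0) := by
    have h4 : Tendsto (fun τ => s.ep τ ^ (N - 1)) l (𝓝 0) := by
      have := s.ep_lim.pow (N - 1)
      rwa [zero_pow (by omega)] at this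
    have h5 := (Complex.continuous_ofReal.tendsto (0 : ℝ)).comp h4
    have h6 := hu.mul h5
    rw [Complex.ofReal_zero, mul_zero] at h6
    exact h6
  have h4 := h3.eventually (Metric.closedBall_mem_nhds (0 : ℂ) hρ)
  filter_upwards [h2, h4, s.ep_pos, germ_h_ep s] with τ e1 e2 e3 e4
  have hepC : (s.ep τ : ℂ) ≠ 0 := by exact_mod_cast e3.ne'
  have e5 := e1 _ e2
  have e6 : (s.ep τ : ℂ) * (u0 τ / (s.h τ : ℂ) * ((s.ep τ ^ (N - 1) : ℝ) : ℂ)) = u0 τ := by
    rw [e4]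
    obtain ⟨n, rfl⟩ : ∃ n, N = n + 1 := ⟨N - 1, by omega⟩
    simp only [Nat.add_sub_cancel]
    push_cast
    field_simp
    ring
  rwa [e6] at e5

/-- restriction of a germ along a map of parameters -/
theorem germ_comp {T T' : Type} {l : Filter T} {l' : Filter T'} {N κ : ℕ} {a β : ℂ}
    (s : Germ T l N κ a β) {g : T' → T} (hg : Tendsto g l' l) :
    ∃ s' : Germ T' l' N κ a β, (∀ y, s'.h y = s.h (g y)) ∧ (∀ y, s'.ep y = s.ep (g y)) ∧
      (∀ y u, s'.F y u = s.F (g y) u) ∧ ∀ y u, (s'.att y u ↔ s.att (g y) u) := by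
  have hg2 : Tendsto (fun y : T' × ℂ => (g y.1, y.2)) (l' ×ˢ 𝓝 (0 : ℂ)) (l ×ˢ 𝓝 (0 : ℂ)) :=
    (hg.comp tendsto_fst).prodMk tendsto_snd
  exact ⟨{ h := fun y => s.h (g y)
           ep := fun y => s.ep (g y)
           F := fun y u => s.F (g y) u
           att := fun y u => s.att (g y) u
           ep_pos := hg.eventually s.ep_pos
           ep_lim := s.ep_lim.comp hg
           h_ep := hg.eventually s.h_ep
           ph := fun δ hδ => hg2.eventually (s.ph δ hδ)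
           hol := hg2.eventually s.hol
           step := hg2.eventually s.step
           trap := by
             obtain ⟨r, hr, h⟩ := s.trap
             exact ⟨r, hr, hg.eventually h⟩ },
    fun _ => rfl, fun _ => rfl, fun _ _ => rfl, fun _ _ => Iff.rfl⟩

end Pool.Agent.H35.PL
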