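import Mathlib

/-!
# Module StepQ: one step in the variable `q = h / u ^ N + a / β`, `h = ep ^ N`

PROOF. Write `F = u (1 + y)`, `y = h β + a u ^ N + e`, `‖e‖ ≤ C (h ^ 2 + h ‖u‖ + ‖u‖ ^ (N + 1))` (divide the
hypothesis by `‖u‖`). Let `R = h / u ^ N`, so `‖R‖ ≥ δ`, `‖u‖ ^ N ≤ h / δ = ep ^ N / δ`, hence `‖u‖ ≤ K ep` with
`K = max 1 (1 / δ)` (`(K ep) ^ N ≥ K ep ^ N ≥ ep ^ N / δ`). So `‖e‖ ≤ C (ep ^ (2 N) + K ep ^ (N + 1) +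
K ^ (N + 1) ep ^ (N + 1)) ≤ C2 ep ^ (N + 1)` for `ep ≤ 1`, and `‖y‖ ≤ h β1 + ‖a‖ h / δ + ‖e‖ ≤ C3 ep ^ N`; choose
`ep0 ≤ 1` with `C3 ep0 ^ N ≤ 1 / 2`. Then `1 + y ≠ 0`, `F ≠ 0`. There is `C4 = C4 N` with
`‖((1 + y) ^ N)⁻¹ - (1 - N y)‖ ≤ C4 ‖y‖ ^ 2` for `‖y‖ ≤ 1 / 2` (the polynomial `1 - (1 - N y) (1 + y) ^ N` is
divisible by `y ^ 2`, and `‖(1 + y) ^ N‖ ≥ 2⁻¹ ^ N`; or induction on `N`). With `q = R + a / β`: the new value is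
`q' = R ((1 + y) ^ N)⁻¹ + a / β = q - N R y + R O(‖y‖ ^ 2)`, and `R y = h β R + a h + R e = h β q + R e` (because
`a u ^ N R = a h`, `h β R + a h = h β (R + a / β)`). So
`‖q' - q (1 - N h β)‖ ≤ ‖R‖ (N ‖e‖ + C4 ‖y‖ ^ 2) ≤ ‖R‖ C5 ep ^ (N + 1)` (`2 N ≥ N + 1`), and
`‖R‖ ≤ ‖q‖ + ‖a / β‖ ≤ ‖q‖ (1 + ‖a‖ / (β0 δ))` as `‖q‖ ≥ δ`.
-/

set_option autoImplicit false

open Filter Topology Metric Set

namespace Pool.Agent.H35.PL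

theorem inv_pow_est (N : ℕ) : ∃ C4 : ℝ, 0 ≤ C4 ∧ ∀ y : ℂ, ‖y‖ ≤ 1 / 2 →
    ‖((1 + y) ^ N)⁻¹ - (1 - N * y)‖ ≤ C4 * ‖y‖ ^ 2 := by
  induction N with
  | zero => exact ⟨0, le_rfl, fun y _ => by simp⟩
  | succ N ih =>
    obtain ⟨C, hC, hN⟩ := ih
    refine ⟨N + (2 + N) + 2 * C, by positivity, fun y hy => ?_⟩
    have h1 : (1 : ℝ) / 2 ≤ ‖1 + y‖ := by
      have := norm_sub_norm_le (1 : ℂ) (-y)
      rw [norm_neg, norm_one, sub_neg_eq_add] at this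
      linarith
    have h1' : (1 : ℂ) + y ≠ 0 := by
      intro h
      rw [h, norm_zero] at h1
      linarith
    have h2 : ‖(1 + y)⁻¹‖ ≤ 2 := by
      rw [norm_inv]
      calc ‖1 + y‖⁻¹ ≤ (1 / 2 : ℝ)⁻¹ := inv_anti₀ (by norm_num) h1
        _ = 2 := by norm_num
    have e : ((1 + y) ^ (N + 1))⁻¹ - (1 - ((N + 1 : ℕ) : ℂ) * y) =
        N * y ^ 2 + (1 - N * y) * (y ^ 2 * (1 + y)⁻¹) +
          (((1 + y) ^ N)⁻¹ - (1 - N * y)) * (1 + y)⁻¹ := by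
      rw [pow_succ, mul_inv]
      push_cast
      have h3 : (1 + y) * (1 + y)⁻¹ = 1 := mul_inv_cancel₀ h1'
      have h4 : (1 + y)⁻¹ = 1 - y + y ^ 2 * (1 + y)⁻¹ := by
        linear_combination (1 - y) * h3
      generalize (1 + y)⁻¹ = I at *
      linear_combination (1 - N * y) * h4
    rw [e]
    refine (norm_add_le _ _).trans ?_
    have a1 : ‖(N : ℂ) * y ^ 2 + (1 - N * y) * (y ^ 2 * (1 + y)⁻¹)‖ ≤
        N * ‖y‖ ^ 2 + (1 + N * (1 / 2)) * (‖y‖ ^ 2 * 2) := by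
      refine (norm_add_le _ _).trans (add_le_add ?_ ?_)
      · rw [norm_mul, norm_pow, Complex.norm_natCast]
      · rw [norm_mul, norm_mul, norm_pow]
        refine mul_le_mul ?_ ?_ (by positivity) (by positivity)
        · refine (norm_sub_le _ _).trans ?_
          rw [norm_one, norm_mul, Complex.norm_natCast]
          gcongr
        · gcongr
    have a2 : ‖(((1 + y) ^ N)⁻¹ - (1 - N * y)) * (1 + y)⁻¹‖ ≤ C * ‖y‖ ^ 2 * 2 := by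
      rw [norm_mul]
      exact mul_le_mul (hN y hy) h2 (norm_nonneg _) (by positivity)
    calc _ ≤ N * ‖y‖ ^ 2 + (1 + N * (1 / 2)) * (‖y‖ ^ 2 * 2) + C * ‖y‖ ^ 2 * 2 :=
          add_le_add a1 a2
      _ = (N + (2 + N) + 2 * C) * ‖y‖ ^ 2 := by ring

theorem step_q {N : ℕ} (hN : 2 ≤ N) (a : ℂ) {β0 β1 C δ : ℝ} (hβ0 : 0 < β0) (hC : 0 ≤ C)
    (hδ : 0 < δ) :
    ∃ C1 ep0 : ℝ, 0 ≤ C1 ∧ 0 < ep0 ∧ ∀ (h ep : ℝ) (β u F : ℂ), 0 < ep → ep ≤ ep0 → h = ep ^ N →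
      β0 ≤ ‖β‖ → ‖β‖ ≤ β1 → u ≠ 0 →
      ‖F - u * (1 + h * β + a * u ^ N)‖ ≤ C * ‖u‖ * (h ^ 2 + h * ‖u‖ + ‖u‖ ^ (N + 1)) →
      δ ≤ ‖(h : ℂ) / u ^ N + a / β‖ → δ ≤ ‖(h : ℂ) / u ^ N‖ →
      F ≠ 0 ∧ ‖((h : ℂ) / F ^ N + a / β) - ((h : ℂ) / u ^ N + a / β) * (1 - N * h * β)‖ ≤
        C1 * ep ^ (N + 1) * ‖(h : ℂ) / u ^ N + a / β‖ := by
  obtain ⟨C4, hC4, hinv⟩ := inv_pow_est N
  obtain ⟨K, hK1, hKδ⟩ : ∃ K : ℝ, 1 ≤ K ∧ 1 / δ ≤ K := ⟨max 1 (1 / δ), le_max_left _ _, le_max_right _ _⟩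
  have hK0 : 0 < K := by linarith
  obtain ⟨C2, hC2, hC2e⟩ : ∃ C2 : ℝ, 0 ≤ C2 ∧ C2 = C * (1 + K + K ^ (N + 1)) :=
    ⟨_, by positivity, rfl⟩
  obtain ⟨C3, hC3, hC3e⟩ : ∃ C3 : ℝ, 0 ≤ C3 ∧ C3 = |β1| + ‖a‖ * K + C2 :=
    ⟨_, by positivity, rfl⟩
  refine ⟨(C4 * C3 ^ 2 + N * C2) * (1 + ‖a‖ / (β0 * δ)), min 1 (1 / (2 * (C3 + 1))),
    by positivity, by positivity, ?_⟩
  intro h ep β u F hep hep0 hh hβ0' hβ1 hu hF hq hR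
  have hep1 : ep ≤ 1 := hep0.trans (min_le_left _ _)
  have hep2 : ep ≤ 1 / (2 * (C3 + 1)) := hep0.trans (min_le_right _ _)
  have hh0 : 0 < h := by rw [hh]; positivity
  have hun : 0 < ‖u‖ := norm_pos_iff.mpr hu
  have huN : 0 < ‖u‖ ^ N := by positivity
  have hβne : β ≠ 0 := by
    intro h0
    rw [h0, norm_zero] at hβ0'
    linarith
  -- size of u
  have hRn : ‖(h : ℂ) / u ^ N‖ = h / ‖u‖ ^ N := by
    rw [norm_div, norm_pow, Complex.norm_real, Real.norm_of_nonneg hh0.le]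
  have hu1 : ‖u‖ ^ N ≤ K * h := by
    have h1 : δ ≤ h / ‖u‖ ^ N := by rwa [hRn] at hR
    rw [le_div_iff₀ huN] at h1
    calc ‖u‖ ^ N = (1 / δ) * (δ * ‖u‖ ^ N) := by field_simp
      _ ≤ (1 / δ) * h := by gcongr
      _ ≤ K * h := by gcongr
  have hu2 : ‖u‖ ≤ K * ep := by
    apply le_of_pow_le_pow_left₀ (n := N) (by omega) (by positivity)
    rw [mul_pow]
    calc ‖u‖ ^ N ≤ K * h := hu1
      _ = K ^ 1 * ep ^ N := by rw [hh, pow_one]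
      _ ≤ K ^ N * ep ^ N := by
        gcongr
        omega
  have hpow : ep ^ (2 * N) ≤ ep ^ (N + 1) := pow_le_pow_of_le_one hep.le hep1 (by omega)
  have hpow2 : ep ^ (N + 1) ≤ ep ^ N := pow_le_pow_of_le_one hep.le hep1 (by omega)
  have hpow3 : ep ^ N ≤ ep := by
    calc ep ^ N ≤ ep ^ 1 := pow_le_pow_of_le_one hep.le hep1 (by omega)
      _ = ep := pow_one _
  -- the error
  obtain ⟨e, he⟩ : ∃ e : ℂ, e = F / u - (1 + h * β + a * u ^ N) := ⟨_, rfl⟩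
  have hFe : F = u * (1 + (h * β + a * u ^ N + e)) := by
    rw [he]
    field_simp
    ring
  have heb : ‖e‖ ≤ C2 * ep ^ (N + 1) := by
    have h1 : F - u * (1 + h * β + a * u ^ N) = u * e := by
      rw [he]
      field_simp
    rw [h1, norm_mul] at hF
    have h2 : ‖e‖ ≤ C * (h ^ 2 + h * ‖u‖ + ‖u‖ ^ (N + 1)) := by
      have h3 : ‖u‖ * ‖e‖ ≤ ‖u‖ * (C * (h ^ 2 + h * ‖u‖ + ‖u‖ ^ (N + 1))) := by
        calc ‖u‖ * ‖e‖ ≤ C * ‖u‖ * (h ^ 2 + h * ‖u‖ + ‖u‖ ^ (N + 1)) := hF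
          _ = _ := by ring
      exact le_of_mul_le_mul_left h3 hun
    refine h2.trans ?_
    have h4 : h ^ 2 ≤ ep ^ (N + 1) := by
      rw [hh, ← pow_mul, mul_comm N 2]
      exact hpow
    have h5 : h * ‖u‖ ≤ K * ep ^ (N + 1) := by
      calc h * ‖u‖ ≤ ep ^ N * (K * ep) := by rw [hh]; gcongr
        _ = K * ep ^ (N + 1) := by ring
    have h6 : ‖u‖ ^ (N + 1) ≤ K ^ (N + 1) * ep ^ (N + 1) := by
      rw [← mul_pow]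
      gcongr
    rw [hC2e]
    calc C * (h ^ 2 + h * ‖u‖ + ‖u‖ ^ (N + 1)) ≤
        C * (ep ^ (N + 1) + K * ep ^ (N + 1) + K ^ (N + 1) * ep ^ (N + 1)) := by gcongr
      _ = C * (1 + K + K ^ (N + 1)) * ep ^ (N + 1) := by ring
  obtain ⟨y, hy⟩ : ∃ y : ℂ, y = h * β + a * u ^ N + e := ⟨_, rfl⟩
  have hyb : ‖y‖ ≤ C3 * ep ^ N := by
    rw [hy]
    have h1 : ‖(h : ℂ) * β‖ ≤ |β1| * ep ^ N := by
      rw [norm_mul, Complex.norm_real, Real.norm_of_nonneg hh0.le, hh, mul_comm]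
      gcongr
      exact hβ1.trans (le_abs_self _)
    have h2 : ‖a * u ^ N‖ ≤ ‖a‖ * K * ep ^ N := by
      rw [norm_mul, norm_pow, mul_assoc, ← hh]
      gcongr
    calc ‖(h : ℂ) * β + a * u ^ N + e‖ ≤ ‖(h : ℂ) * β‖ + ‖a * u ^ N‖ + ‖e‖ := norm_add₃_le
      _ ≤ |β1| * ep ^ N + ‖a‖ * K * ep ^ N + C2 * ep ^ N := by
        refine add_le_add (add_le_add h1 h2) (heb.trans ?_)
        gcongr
      _ = C3 * ep ^ N := by rw [hC3e]; ring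
  have hy2 : ‖y‖ ≤ 1 / 2 := by
    calc ‖y‖ ≤ C3 * ep ^ N := hyb
      _ ≤ (C3 + 1) * (1 / (2 * (C3 + 1))) := by
        refine mul_le_mul (by linarith) (hpow3.trans hep2) (by positivity) (by positivity)
      _ = 1 / 2 := by field_simp
  have hy1 : (1 : ℂ) + y ≠ 0 := by
    intro h0
    have h1 := norm_sub_norm_le (1 : ℂ) (-y)
    rw [norm_neg, norm_one, sub_neg_eq_add, h0, norm_zero] at h1
    linarith
  have hFy : F = u * (1 + y) := by rw [hFe, hy]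
  refine ⟨by rw [hFy]; exact mul_ne_zero hu hy1, ?_⟩
  have huN' : u ^ N ≠ 0 := pow_ne_zero _ hu
  obtain ⟨R, hRd⟩ : ∃ R : ℂ, R = (h : ℂ) / u ^ N := ⟨_, rfl⟩
  have hRa : R * (a * u ^ N) = a * h := by
    rw [hRd]
    field_simp
  have hRF : (h : ℂ) / F ^ N = R * ((1 + y) ^ N)⁻¹ := by
    rw [hFy, mul_pow, hRd, div_mul_eq_div_div, div_eq_mul_inv _ ((1 + y) ^ N)]
  have hab : a / β * β = a := div_mul_cancel₀ _ hβne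
  rw [← hRd] at hq hR ⊢
  rw [hRF]
  have key : R * ((1 + y) ^ N)⁻¹ + a / β - (R + a / β) * (1 - N * h * β) =
      R * ((((1 + y) ^ N)⁻¹ - (1 - N * y)) - N * e) := by
    have h1 : R * y = R * h * β + a * h + R * e := by
      rw [hy]
      linear_combination hRa
    linear_combination (N * h : ℂ) * hab - (N : ℂ) * h1
  rw [key, norm_mul]
  have hb1 : ‖(((1 + y) ^ N)⁻¹ - (1 - N * y)) - N * e‖ ≤ (C4 * C3 ^ 2 + N * C2) * ep ^ (N + 1) := by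
    refine (norm_sub_le _ _).trans ?_
    have h1 : ‖((1 + y) ^ N)⁻¹ - (1 - N * y)‖ ≤ C4 * C3 ^ 2 * ep ^ (N + 1) := by
      refine (hinv y hy2).trans ?_
      calc C4 * ‖y‖ ^ 2 ≤ C4 * (C3 * ep ^ N) ^ 2 := by gcongr
        _ = C4 * C3 ^ 2 * ep ^ (2 * N) := by ring
        _ ≤ C4 * C3 ^ 2 * ep ^ (N + 1) := by gcongr
    have h2 : ‖(N : ℂ) * e‖ ≤ N * C2 * ep ^ (N + 1) := by
      rw [norm_mul, Complex.norm_natCast, mul_assoc]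
      gcongr
    calc _ ≤ C4 * C3 ^ 2 * ep ^ (N + 1) + N * C2 * ep ^ (N + 1) := add_le_add h1 h2
      _ = _ := by ring
  have hRq : ‖R‖ ≤ (1 + ‖a‖ / (β0 * δ)) * ‖R + a / β‖ := by
    have h1 : ‖R‖ ≤ ‖R + a / β‖ + ‖a / β‖ := by
      have := norm_sub_le (R + a / β) (a / β)
      rwa [add_sub_cancel_right] at this
    have h2 : ‖a / β‖ ≤ ‖a‖ / (β0 * δ) * ‖R + a / β‖ := by
      rw [norm_div]
      calc ‖a‖ / ‖β‖ ≤ ‖a‖ / β0 := by gcongr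
        _ = ‖a‖ / (β0 * δ) * δ := by field_simp
        _ ≤ ‖a‖ / (β0 * δ) * ‖R + a / β‖ := by gcongr
    linarith
  calc ‖R‖ * ‖(((1 + y) ^ N)⁻¹ - (1 - N * y)) - N * e‖ ≤
      ((1 + ‖a‖ / (β0 * δ)) * ‖R + a / β‖) * ((C4 * C3 ^ 2 + N * C2) * ep ^ (N + 1)) :=
        mul_le_mul hRq hb1 (norm_nonneg _) (by positivity)
    _ = _ := by ring

end Pool.Agent.H35.PL
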