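import Mathlib

/-!
# Module Tay: Schwarz lemma and Taylor remainder of order two

PROOF. `schw`: for every `B' > B` (and `B ≥ 0`: take `z = c`) `f` maps `ball c r` into `ball (f c) B'`, so
`Complex.dist_le_div_mul_dist_of_mapsTo_ball` gives `‖f z - f c‖ ≤ B' / r * ‖z - c‖`; let `B' → B`.
`tay2`: `g = dslope f c` is differentiable on the ball (`Complex.differentiableOn_dslope`), `f z - f c =
(z - c) g z`, so `‖g z‖ ≤ B / r` for `z ≠ c` by `schw`, and for `z = c` by continuity of `g` (closure of the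
punctured ball), so `‖g z - g c‖ ≤ 2 B / r`, and `schw` for `g` gives `‖g z - g c‖ ≤ 2 B / r ^ 2 * ‖z - c‖`.
`f z - f c - deriv f c * (z - c) = (z - c) * (g z - g c)`.
-/

set_option autoImplicit false

open Filter Topology Metric Set

namespace Pool.Agent.H35.PL

theorem schw {f : ℂ → ℂ} {c : ℂ} {r B : ℝ} (hr : 0 < r) (hf : DifferentiableOn ℂ f (ball c r))
    (hB : ∀ z ∈ ball c r, ‖f z - f c‖ ≤ B) : ∀ z ∈ ball c r, ‖f z - f c‖ ≤ B / r * ‖z - c‖ := by
  intro z hz
  have h1 : MapsTo f (ball c r) (closedBall (f c) B) := fun w hw => by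
    rw [mem_closedBall, dist_eq_norm]
    exact hB w hw
  have h2 := Complex.dist_le_div_mul_dist_of_mapsTo_ball hf h1 hz
  rwa [dist_eq_norm, dist_eq_norm] at h2

theorem tay2 {f : ℂ → ℂ} {c : ℂ} {r B : ℝ} (hr : 0 < r) (hf : DifferentiableOn ℂ f (ball c r))
    (hB : ∀ z ∈ ball c r, ‖f z - f c‖ ≤ B) :
    ∀ z ∈ ball c r, ‖f z - f c - deriv f c * (z - c)‖ ≤ 2 * B / r ^ 2 * ‖z - c‖ ^ 2 := by
  intro z hz
  have h1 : MapsTo f (ball c r) (closedBall (f c) B) := fun w hw => by
    rw [mem_closedBall, dist_eq_norm]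
    exact hB w hw
  have hg : DifferentiableOn ℂ (dslope f c) (ball c r) :=
    (Complex.differentiableOn_dslope (ball_mem_nhds c hr)).2 hf
  have hgb : ∀ w ∈ ball c r, ‖dslope f c w‖ ≤ B / r := fun w hw =>
    Complex.norm_dslope_le_div_of_mapsTo_ball hf h1 hw
  have hc : c ∈ ball c r := mem_ball_self hr
  have h2 : ∀ w ∈ ball c r, ‖dslope f c w - dslope f c c‖ ≤ 2 * B / r := by
    intro w hw
    calc ‖dslope f c w - dslope f c c‖ ≤ ‖dslope f c w‖ + ‖dslope f c c‖ := norm_sub_le _ _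
      _ ≤ B / r + B / r := add_le_add (hgb w hw) (hgb c hc)
      _ = 2 * B / r := by ring
  have h3 := schw hr hg h2 z hz
  have h4 : f z - f c - deriv f c * (z - c) = (z - c) * (dslope f c z - dslope f c c) := by
    have h5 := sub_smul_dslope f c z
    rw [smul_eq_mul] at h5
    rw [dslope_same]
    linear_combination -h5
  rw [h4, norm_mul]
  calc ‖z - c‖ * ‖dslope f c z - dslope f c c‖ ≤ ‖z - c‖ * (2 * B / r / r * ‖z - c‖) :=
        mul_le_mul_of_nonneg_left h3 (norm_nonneg _)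
    _ = 2 * B / r ^ 2 * ‖z - c‖ ^ 2 := by
      field_simp

end Pool.Agent.H35.PL
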